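import Mathlib
import Pool.Agent.W964.Pram.RandMachine

/-!
Interactive proofs with private coins whose verifier uses parallel machines.
-/

namespace Pool.Agent.W964.Pram

open Finset

/-- The content of the output cell after `T` steps on the input `x`. -/
noncomputable def Machine.result {J : Type} {P : ℕ} (M : Machine J P) (T : ℕ) (x : J → Bool) :
    M.V := (M.run x T).2 M.out

/-- A verifier of an interactive proof system with private coins, for inputs whose bits are
indexed by `J`. It draws `ω` from the finite probability space `Ω` and keeps it secret. Whenever it
has received the list `z` of bits from the prover so far, it runs the parallel machine `mach ω z`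
on the input and sends the message `msg ω z v` to the prover, where `v` is the content of the
output cell; the messages are elements of an arbitrary set `W`. -/
structure Verifier (J : Type) (P : ℕ) where
  Ω : Type
  fin : Fintype Ω
  prob : Ω → ℝ
  nonneg : ∀ ω, 0 ≤ prob ω
  total : ∑ ω, prob ω = 1
  W : Type
  mach : Ω → List Bool → Machine J P
  msg : ∀ ω z, (mach ω z).V → W

namespace Verifier

variable {J : Type} {P : ℕ}

/-- All lists searched by the machines of the verifier have length at most `k`. -/
def Lists (V : Verifier J P) (k : ℕ) : Prop := ∀ ω z, (V.mach ω z).Lists k

/-- The messages of the verifier and the bits of the prover after `i` rounds, when the verifier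
gives its machines `T` steps and the prover uses the strategy `π`, which determines its next bit
from the list of all messages that it has received (the last message is the last entry). -/
noncomputable def talk (V : Verifier J P) (T : ℕ) (x : J → Bool) (π : List V.W → Bool) (ω : V.Ω) :
    ℕ → List V.W × List Bool
  | 0 => ([], [])
  | i + 1 =>
    let c := talk V T x π ω i
    let q := c.1 ++ [V.msg ω c.2 ((V.mach ω c.2).result T x)]
    (q, c.2 ++ [π q])

open Classical in
/-- The probability that the verifier accepts the input `x` after it has received `g` bits from
the prover, who uses the strategy `π`: when it has received the list `z` of `g` bits it accepts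
when the machine `mach ω z` accepts. -/
noncomputable def acc (V : Verifier J P) (T g : ℕ) (x : J → Bool) (π : List V.W → Bool) : ℝ :=
  letI := V.fin
  ∑ ω, if (V.mach ω (V.talk T x π ω g).2).answer T x = true then V.prob ω else 0

end Verifier

end Pool.Agent.W964.Pram
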