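import Mathlib
import Pool.Agent.W964.Pram.Ip.Verifier
import Pool.Agent.W964.Pram.CntDefs

/-!
Parallel machines that check in one step whether an assignment satisfies a formula.
-/

set_option linter.unusedSectionVars false

namespace Pool.Agent.W964.Pram

open Finset SmallDepth

/-- The machine that checks the assignment `α`: processor `p` looks for a true literal in the
clause `p` and writes `false` into the output cell if there is none. -/
def checkMachine {n M : ℕ} (α : Fin n → Bool) : Machine (Fin M × Fin n × Bool) M where
  Q := Fin M ⊕ Bool
  A := Unit
  V := Bool
  bit := id
  blank := true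
  start := Sum.inl
  query := fun q => q.elim (fun p => (List.finRange n).map (fun v => Sum.inl (p, v, α v)))
    (fun _ => [])
  test := fun _ v => v
  next := fun q o => q.elim (fun _ => Sum.inr o.isSome) (fun _ => Sum.inr true)
  write := fun q => q.elim (fun _ => none) (fun b => if b = true then none else
    some (Sum.inr (), false))
  out := Sum.inr ()
  accept := id

variable {n M : ℕ}

lemma check_lists (α : Fin n → Bool) : (checkMachine (M := M) α).Lists n := by
  rintro (p | b)
  · show ((List.finRange n).map (fun v => (Sum.inl (p, v, α v) :
      (Fin M × Fin n × Bool) ⊕ Unit))).length ≤ n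
    simp
  · show ([] : List ((Fin M × Fin n × Bool) ⊕ Unit)).length ≤ n
    simp

lemma check_find (α : Fin n → Bool) (x : Fin M × Fin n × Bool → Bool) (p : Fin M) :
    ((checkMachine α).find (Sum.inl p) (Sum.elim (fun j => x j) (fun _ => true))).isSome = true ↔
      ∃ v, x (p, v, α v) = true := by
  show ((List.map (fun v => (Sum.inl (p, v, α v) : (Fin M × Fin n × Bool) ⊕ Unit))
    (List.finRange n)).findSome? (fun c => if (Sum.elim (fun j => x j) (fun _ => true) c : Bool)
      = true then some (c, (Sum.elim (fun j => x j) (fun _ => true) c : Bool)) else none)).isSome
      = true ↔ _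
  rw [List.findSome?_isSome_iff]
  constructor
  · rintro ⟨c, hc, h⟩
    obtain ⟨v, _, rfl⟩ := List.mem_map.1 hc
    refine ⟨v, ?_⟩
    by_contra hne
    simp [hne] at h
  · rintro ⟨v, hv⟩
    refine ⟨Sum.inl (p, v, α v), List.mem_map.2 ⟨v, List.mem_finRange v, rfl⟩, ?_⟩
    simp [hv]

lemma check_run (α : Fin n → Bool) (x : Fin M × Fin n × Bool → Bool) (t : ℕ) :
    (∀ p, ((checkMachine α).run x (t + 1)).1 p = Sum.inr true ∨
      (t = 0 ∧ ((checkMachine α).run x (t + 1)).1 p = Sum.inr false)) ∧
    (((checkMachine α).run x (t + 1)).2 (Sum.inr ()) = true ↔ Models x α) := by
  classical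
  induction t with
  | zero =>
    have hst : ∀ p, ((checkMachine α).run x (0 + 1)).1 p =
        Sum.inr ((checkMachine α).find (Sum.inl p)
          (Sum.elim (fun j => x j) (fun _ => true))).isSome := fun p => rfl
    refine ⟨fun p => ?_, ?_⟩
    · rw [hst p]
      cases ((checkMachine α).find (Sum.inl p)
          (Sum.elim (fun j => x j) (fun _ => true))).isSome
      · right; exact ⟨rfl, rfl⟩
      · left; rfl
    · have hwr : ∀ p, (checkMachine α).wr (Sum.inr ())
          (((checkMachine α).run x (0 + 1)).1 p) =
          (if (∃ v, x (p, v, α v) = true) then none else some false : Option Bool) := by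
        intro p
        rw [hst p]
        have h1 := check_find α x p
        cases h2 : ((checkMachine α).find (Sum.inl p)
          (Sum.elim (fun j => x j) (fun _ => true))).isSome
        · rw [if_neg (fun h => by rw [← h1, h2] at h; cases h)]
          unfold Machine.wr
          exact if_pos rfl
        · rw [if_pos (h1.1 h2)]
          rfl
      have hmem : ((checkMachine α).run x (0 + 1)).2 (Sum.inr ()) =
          (((List.finRange M).findSome? (fun p =>
            (if (∃ v, x (p, v, α v) = true) then none else some false : Option Bool))).getD
              true) :=
        congrArg (fun f : Fin M → Option Bool => ((List.finRange M).findSome? f).getD true)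
          (funext hwr)
      rw [hmem]
      constructor
      · intro h p
        by_contra hne
        have h3 : ((List.finRange M).findSome? (fun p =>
            (if (∃ v, x (p, v, α v) = true) then none
            else some false : Option Bool))) = some false := by
          cases h4 : ((List.finRange M).findSome? (fun p =>
            (if (∃ v, x (p, v, α v) = true) then none else some false : Option Bool))) with
          | none =>
            rw [List.findSome?_eq_none_iff] at h4
            have := h4 p (List.mem_finRange p)
            rw [if_neg hne] at this
            cases this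
          | some b =>
            obtain ⟨p', _, h5⟩ := List.exists_of_findSome?_eq_some h4
            split_ifs at h5
            rw [← Option.some.inj h5]
        rw [h3] at h
        cases h
      · intro h
        have h3 : ((List.finRange M).findSome? (fun p =>
            (if (∃ v, x (p, v, α v) = true) then none
            else some false : Option Bool))) = none := by
          rw [List.findSome?_eq_none_iff]
          intro p _
          rw [if_pos (h p)]
        rw [h3]
        rfl
  | succ t ih =>
    obtain ⟨ih1, ih2⟩ := ih
    have hst : ∀ p, ((checkMachine α).run x (t + 1 + 1)).1 p = Sum.inr true := by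
      intro p
      show (checkMachine α).next (((checkMachine α).run x (t + 1)).1 p)
        ((checkMachine α).find (((checkMachine α).run x (t + 1)).1 p)
          ((checkMachine α).run x (t + 1)).2) = Sum.inr true
      rcases ih1 p with h | ⟨_, h⟩
      · rw [h]; rfl
      · rw [h]; rfl
    refine ⟨fun p => Or.inl (hst p), ?_⟩
    rw [← ih2]
    have hmem : ((checkMachine α).run x (t + 1 + 1)).2 (Sum.inr ()) =
        ((List.finRange M).findSome? (fun p => (checkMachine α).wr (Sum.inr ())
          (((checkMachine α).run x (t + 1 + 1)).1 p))).getD
          (((checkMachine α).run x (t + 1)).2 (Sum.inr ())) := rfl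
    rw [hmem]
    have h3 : ((List.finRange M).findSome? (fun p => (checkMachine α).wr (Sum.inr ())
          (((checkMachine α).run x (t + 1 + 1)).1 p))) = none := by
      rw [List.findSome?_eq_none_iff]
      intro p _
      rw [hst p]
      rfl
    rw [h3]
    rfl

/-- The machine accepts in every positive number of steps exactly when the assignment satisfies
the formula. -/
theorem check_answer (α : Fin n → Bool) (x : Fin M × Fin n × Bool → Bool) {T : ℕ} (hT : 1 ≤ T) :
    (checkMachine α).answer T x = true ↔ Models x α := by
  obtain ⟨t, rfl⟩ : ∃ t, T = t + 1 := ⟨T - 1, by omega⟩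
  exact (check_run α x t).2

end Pool.Agent.W964.Pram
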