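import Mathlib
import Pool.Agent.W964.Pram.Ip.Check

/-!
Satisfiability has short proofs that are checked in one step, and the majority problem is decided
in one step by a probabilistic parallel machine in the sense of the class PP.
-/

set_option linter.unusedSectionVars false

namespace Pool.Agent.W964.Pram

open Finset SmallDepth

variable {n M : ℕ}

/-- The verifier that checks whether the bits of the prover are a satisfying assignment. -/
noncomputable def satVerifier (n M : ℕ) : Verifier (Fin M × Fin n × Bool) M where
  Ω := Unit
  fin := inferInstance
  prob := fun _ => 1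
  nonneg := fun _ => zero_le_one
  total := by simp
  W := Unit
  mach := fun _ z => checkMachine (fun v : Fin n => z.getD v false)
  msg := fun _ _ _ => ()

lemma satVerifier_lists : (satVerifier n M).Lists n := fun _ _ => check_lists _

lemma satVerifier_acc {T : ℕ} (hT : 1 ≤ T) (g : ℕ) (x : Fin M × Fin n × Bool → Bool)
    (π : List (satVerifier n M).W → Bool) :
    ((satVerifier n M).acc T g x π = 1 ∧
      Models x (fun v : Fin n => ((satVerifier n M).talk T x π () g).2.getD v false)) ∨
    ((satVerifier n M).acc T g x π = 0 ∧
      ¬ Models x (fun v : Fin n => ((satVerifier n M).talk T x π () g).2.getD v false)) := by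
  classical
  have h1 : (satVerifier n M).acc T g x π =
      if (checkMachine (M := M) (fun v : Fin n =>
        ((satVerifier n M).talk T x π () g).2.getD v false)).answer T x = true
      then (1 : ℝ) else 0 := by
    unfold Verifier.acc
    show ∑ ω : Unit, _ = _
    rw [Fintype.sum_unique]
    rfl
  rw [h1]
  by_cases h : Models x (fun v : Fin n =>
      ((satVerifier n M).talk T x π () g).2.getD v false)
  · left
    rw [if_pos ((check_answer _ x hT).2 h)]
    exact ⟨rfl, h⟩
  · right
    rw [if_neg (fun h' => h ((check_answer _ x hT).1 h'))]
    exact ⟨rfl, h⟩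

/-- The strategy that sends the assignment `α`. -/
def send (α : Fin n → Bool) (q : List Unit) : Bool :=
  if h : q.length - 1 < n then α ⟨q.length - 1, h⟩ else false

lemma send_len (α : Fin n → Bool) (L : List Unit) (i : ℕ) (hL : L.length = i + 1) :
    send α L = if h : i < n then α ⟨i, h⟩ else false := by
  unfold send
  have h3 : L.length - 1 = i := by omega
  simp only [h3]

lemma talk_send (T : ℕ) (x : Fin M × Fin n × Bool → Bool) (α : Fin n → Bool) (i : ℕ) :
    ((satVerifier n M).talk T x (send α) () i).1.length = i ∧
    ((satVerifier n M).talk T x (send α) () i).2 =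
      (List.range i).map (fun j => if h : j < n then α ⟨j, h⟩ else false) := by
  induction i with
  | zero => exact ⟨rfl, rfl⟩
  | succ i ih =>
    obtain ⟨ih1, ih2⟩ := ih
    have h1 : ((satVerifier n M).talk T x (send α) () (i + 1)).1.length = i + 1 := by
      show (((satVerifier n M).talk T x (send α) () i).1 ++ [_]).length = i + 1
      rw [List.length_append, ih1]
      rfl
    refine ⟨h1, ?_⟩
    have h2 : ((satVerifier n M).talk T x (send α) () (i + 1)).2 =
        ((satVerifier n M).talk T x (send α) () i).2 ++
          [send α ((satVerifier n M).talk T x (send α) () (i + 1)).1] := rfl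
    rw [h2, ih2, List.range_succ, List.map_append]
    congr 1
    show [send α _] = [_]
    congr 1
    exact send_len α _ i h1

/-- Satisfiability has proofs of `n` bits that are checked in one step. -/
theorem sat_proofs (n M : ℕ) : ∃ V : Verifier (Fin M × Fin n × Bool) M, V.Lists n ∧
    ∀ T, 1 ≤ T → ∀ x, ((∃ α, Models x α) → ∃ π, V.acc T n x π = 1) ∧
      ((¬ ∃ α, Models x α) → ∀ π, V.acc T n x π = 0) := by
  refine ⟨satVerifier n M, satVerifier_lists, fun T hT x => ⟨?_, ?_⟩⟩
  · rintro ⟨α, hα⟩
    refine ⟨send α, ?_⟩
    have h1 : (fun v : Fin n => ((satVerifier n M).talk T x (send α) () n).2.getD v false) = α := by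
      funext v
      rw [(talk_send T x α n).2]
      rw [List.getD_eq_getElem?_getD, List.getElem?_map, List.getElem?_range v.2]
      simp
    rcases satVerifier_acc hT n x (send α) with h | h
    · exact h.1
    · exfalso
      apply h.2
      rw [h1]
      exact hα
  · intro hno π
    rcases satVerifier_acc hT n x π with h | h
    · exact absurd ⟨_, h.2⟩ hno
    · exact h.1

/-- The probabilistic machine that checks a random assignment. -/
noncomputable def ppMachine (n M : ℕ) : RandMachine (Fin M × Fin n × Bool) M where
  Ω := Fin n → Bool
  fin := inferInstance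
  prob := fun _ => 1 / 2 ^ n
  nonneg := fun _ => by positivity
  total := by
    rw [Finset.sum_const, Finset.card_univ, Fintype.card_fun, Fintype.card_fin,
      Fintype.card_bool, nsmul_eq_mul]
    push_cast
    field_simp
  mach := fun α => checkMachine α

/-- The fraction of satisfying assignments is the acceptance probability of a probabilistic
parallel machine with one processor for every clause after one step. -/
theorem pp_machine (n M : ℕ) : ∃ R : RandMachine (Fin M × Fin n × Bool) M, R.Lists n ∧
    ∀ T, 1 ≤ T → ∀ x, R.success T x True = (numModels x : ℝ) / 2 ^ n := by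
  classical
  refine ⟨ppMachine n M, fun α => check_lists α, fun T hT x => ?_⟩
  have h1 : (ppMachine n M).success T x True =
      ∑ α : Fin n → Bool, if Models x α then (1 : ℝ) / 2 ^ n else 0 := by
    unfold RandMachine.success
    refine Finset.sum_congr rfl fun α _ => ?_
    by_cases h : Models x α
    · rw [if_pos h]
      exact if_pos ⟨fun _ => trivial, fun _ => (check_answer α x hT).2 h⟩
    · rw [if_neg h]
      exact if_neg (fun h' => h ((check_answer α x hT).1 (h'.2 trivial)))
  rw [h1, ← Finset.sum_filter, Finset.sum_const, nsmul_eq_mul]
  have h2 : ((univ.filter (fun α : Fin n → Bool => Models x α)).card : ℝ) = numModels x := by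
    unfold numModels
    rw [Nat.card_eq_fintype_card, Fintype.card_subtype]
  rw [h2]
  ring

end Pool.Agent.W964.Pram
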