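import Mathlib

/-!
Asymptotic estimates.
-/

set_option linter.unusedSectionVars false

namespace Pool.Agent.W964.Pram

open Filter

theorem asym (δ : ℝ) (hδ : 0 < δ) (hδ2 : δ < 2) : ∃ ε : ℝ, 0 < ε ∧
    ∀ (C : ℝ), 0 < C → ∀ (c : ℕ) (T : ℕ → ℕ), (∀ n, 1 ≤ T n) →
    (fun n : ℕ => (T n : ℝ) * Real.log n) =o[atTop] (fun n : ℕ => (n : ℝ)) →
    ∃ w : ℕ → ℕ, (∃ C₁ : ℝ, ∀ n, 2 ≤ n → (w n : ℝ) ≤ C₁ * (T n * Real.log n)) ∧
      (∀ n, 2 ≤ n → C * (T n * Real.log (n + (n ^ c : ℕ))) ≤ w n) ∧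
      ∀ e : ℕ, ∀ᶠ n : ℕ in atTop, 2 ≤ n ∧ w n + 1 ≤ n ∧ 3 * C ≤ w n ∧
        (2 - δ) ^ n * (e * (((n * 2 ^ w n : ℕ) : ℝ)) ^ e) ≤ 2 ^ ((1 - ε) * (n - 1)) ∧
        (2 - δ) ^ n * (e * (((n * 2 ^ w n : ℕ) : ℝ)) ^ e) ≤ 2 ^ ((1 - ε) * n) := by
  obtain ⟨β, hβ⟩ : ∃ β : ℝ, β = Real.logb 2 (2 - δ) := ⟨_, rfl⟩
  have hβ1 : β < 1 := by
    rw [hβ, Real.logb_lt_iff_lt_rpow (by norm_num) (by linarith), Real.rpow_one]
    linarith
  have hβ2 : (2 - δ) = 2 ^ β := by
    rw [hβ, Real.rpow_logb (by norm_num) (by norm_num) (by linarith)]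
  obtain ⟨ε, hε⟩ : ∃ ε : ℝ, ε = (1 - β) / 2 := ⟨_, rfl⟩
  have hε0 : 0 < ε := by rw [hε]; linarith
  refine ⟨ε, hε0, ?_⟩
  intro C hC c T hT hTo
  obtain ⟨D, hD⟩ : ∃ D : ℝ, D = C * (c + 2) := ⟨_, rfl⟩
  have hD0 : 0 < D := by rw [hD]; positivity
  obtain ⟨w, hw⟩ : ∃ w : ℕ → ℕ, w = fun n => ⌈D * (T n * Real.log n)⌉₊ := ⟨_, rfl⟩
  have hwge : ∀ n, D * (T n * Real.log n) ≤ w n := by
    intro n; rw [hw]; exact Nat.le_ceil _
  have hlogn : Tendsto (fun n : ℕ => Real.log (n : ℝ)) atTop atTop :=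
    Real.tendsto_log_atTop.comp tendsto_natCast_atTop_atTop
  have hnt : Tendsto (fun n : ℕ => (n : ℝ)) atTop atTop := tendsto_natCast_atTop_atTop
  have hl2 : (1 : ℝ) / 2 ≤ Real.log 2 := by
    have := Real.log_two_gt_d9
    linarith
  have hl2' : Real.log 2 ≤ 1 := by
    have := Real.log_two_lt_d9
    linarith
  have hwle : ∀ n : ℕ, 2 ≤ n → (w n : ℝ) ≤ (D + 2) * (T n * Real.log n) := by
    intro n hn
    have hnR : (2 : ℝ) ≤ n := by exact_mod_cast hn
    have hTR : (1 : ℝ) ≤ T n := by exact_mod_cast hT n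
    have hlog : 1 / 2 ≤ Real.log n := hl2.trans (Real.log_le_log (by norm_num) hnR)
    have h1 : (w n : ℝ) ≤ D * (T n * Real.log n) + 1 := by
      rw [congrFun hw n]
      exact (Nat.ceil_lt_add_one (by positivity)).le
    have h2 : 1 * (1 / 2) ≤ (T n : ℝ) * Real.log n :=
      mul_le_mul hTR hlog (by norm_num) (by linarith)
    linarith
  have hMle : ∀ n : ℕ, 2 ≤ n → ((n * 2 ^ w n : ℕ) : ℝ) ≤ (n : ℝ) ^ ((D + 3) * T n) := by
    intro n hn
    have hnR : (2 : ℝ) ≤ n := by exact_mod_cast hn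
    have hn0 : (0 : ℝ) < n := by linarith
    have hTR : (1 : ℝ) ≤ T n := by exact_mod_cast hT n
    have hlog : 0 ≤ Real.log n := Real.log_nonneg (by linarith)
    have h1 := hwle n hn
    push_cast
    rw [← Real.rpow_natCast, Real.rpow_def_of_pos (by norm_num : (0 : ℝ) < 2),
      Real.rpow_def_of_pos hn0]
    nth_rewrite 1 [← Real.exp_log hn0]
    rw [← Real.exp_add]
    apply Real.exp_le_exp.2
    calc Real.log n + Real.log 2 * (w n : ℝ) ≤ Real.log n + 1 * (w n : ℝ) := by gcongr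
      _ ≤ Real.log n + 1 * ((D + 2) * (T n * Real.log n)) := by gcongr
      _ ≤ T n * Real.log n + 1 * ((D + 2) * (T n * Real.log n)) := by
          have : 1 * Real.log n ≤ T n * Real.log n := mul_le_mul_of_nonneg_right hTR hlog
          linarith
      _ = Real.log n * ((D + 3) * T n) := by ring
  refine ⟨w, ⟨D + 2, hwle⟩, ?_, ?_⟩
  · intro n hn
    refine le_trans ?_ (hwge n)
    have hnR : (2 : ℝ) ≤ n := by exact_mod_cast hn
    have h1 : Real.log (n + (n ^ c : ℕ)) ≤ (c + 2) * Real.log n := by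
      have h2 : ((n : ℝ) + (n ^ c : ℕ)) ≤ (n : ℝ) ^ (c + 2) := by
        have h3 : n + n ^ c ≤ n ^ (c + 2) := by
          have h4 : n ^ 1 ≤ n ^ (c + 1) := Nat.pow_le_pow_right (by omega) (by omega)
          have h5 : n ^ c ≤ n ^ (c + 1) := Nat.pow_le_pow_right (by omega) (by omega)
          have h6 : n ^ (c + 1) * 2 ≤ n ^ (c + 1) * n := Nat.mul_le_mul_left _ hn
          rw [pow_succ n (c + 1)]
          rw [pow_one] at h4
          omega
        exact_mod_cast h3
      calc Real.log (n + (n ^ c : ℕ)) ≤ Real.log ((n : ℝ) ^ (c + 2)) := by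
            apply Real.log_le_log _ h2
            positivity
        _ = (c + 2) * Real.log n := by
            rw [Real.log_pow]
            push_cast
            ring
    calc C * (T n * Real.log (n + (n ^ c : ℕ))) ≤ C * (T n * ((c + 2) * Real.log n)) := by gcongr
      _ = D * (T n * Real.log n) := by rw [hD]; ring
  · intro e
    have hE : (fun n : ℕ => (((e : ℝ) + 1) + 2 * e * ((D + 3) * (T n * Real.log n))))
        =o[atTop] (fun n : ℕ => (n : ℝ)) := by
      have hconst : (fun _ : ℕ => ((e : ℝ) + 1)) =o[atTop] (fun n : ℕ => (n : ℝ)) :=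
        Asymptotics.isLittleO_const_left.2 (Or.inr (tendsto_norm_atTop_atTop.comp hnt))
      have h1 : (fun n : ℕ => (((e : ℝ) + 1) + 2 * e * ((D + 3) * (T n * Real.log n)))) =
          fun n : ℕ => ((e : ℝ) + 1) + (2 * e * (D + 3)) * (T n * Real.log n) := by
        funext n; ring
      rw [h1]
      exact hconst.add (hTo.const_mul_left _)
    have hW : (fun n : ℕ => 1 + (D + 2) * (T n * Real.log n)) =o[atTop]
        (fun n : ℕ => (n : ℝ)) := by
      have hconst : (fun _ : ℕ => (1 : ℝ)) =o[atTop] (fun n : ℕ => (n : ℝ)) :=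
        Asymptotics.isLittleO_const_left.2 (Or.inr (tendsto_norm_atTop_atTop.comp hnt))
      exact hconst.add (hTo.const_mul_left _)
    filter_upwards [hE.bound hε0, hW.bound (zero_lt_one), hlogn.eventually
      (eventually_ge_atTop 3), eventually_ge_atTop 2] with n h1 h2 h4 h5
    have hnR : (2 : ℝ) ≤ n := by exact_mod_cast h5
    have hn0 : (0 : ℝ) < n := by linarith
    have hTR : (1 : ℝ) ≤ T n := by exact_mod_cast hT n
    have hTL : 0 ≤ (T n : ℝ) * Real.log n := by positivity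
    rw [Real.norm_of_nonneg (by positivity), Real.norm_of_nonneg (by linarith)] at h1 h2
    refine ⟨h5, ?_, ?_, ?_⟩
    · have : ((w n + 1 : ℕ) : ℝ) ≤ n := by
        push_cast
        linarith [hwle n h5]
      exact_mod_cast this
    · have h7 : 1 * 3 ≤ (T n : ℝ) * Real.log n := mul_le_mul hTR h4 (by norm_num) (by linarith)
      have h8 : D * 3 ≤ D * (T n * Real.log n) := mul_le_mul_of_nonneg_left (by linarith) hD0.le
      have h9 : C ≤ D := by
        rw [hD]
        have : (0 : ℝ) ≤ c := Nat.cast_nonneg c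
        nlinarith
      linarith [hwge n]
    · have hMle' : ((n * 2 ^ w n : ℕ) : ℝ) ≤ 2 ^ (2 * ((D + 3) * (T n * Real.log n))) := by
        refine (hMle n h5).trans ?_
        rw [Real.rpow_def_of_pos (by norm_num : (0 : ℝ) < 2), Real.rpow_def_of_pos hn0]
        apply Real.exp_le_exp.2
        have h6 : 0 ≤ (D + 3) * ((T n : ℝ) * Real.log n) := by positivity
        have h7 : (1 / 2) * (2 * ((D + 3) * ((T n : ℝ) * Real.log n))) ≤
            Real.log 2 * (2 * ((D + 3) * (T n * Real.log n))) :=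
          mul_le_mul_of_nonneg_right hl2 (by positivity)
        calc Real.log n * ((D + 3) * T n) = (1 / 2) * (2 * ((D + 3) * (T n * Real.log n))) := by
              ring
          _ ≤ _ := h7
      have hc : (e : ℝ) ≤ 2 ^ (e : ℝ) := by
        rw [Real.rpow_natCast]
        exact_mod_cast Nat.lt_two_pow_self.le
      have hpow : (0 : ℝ) ≤ (2 - δ) ^ n := pow_nonneg (by linarith) n
      have hmain : (2 - δ) ^ n * (e * ((n * 2 ^ w n : ℕ) : ℝ) ^ e) ≤
          2 ^ (β * n + ((e : ℝ) + 2 * e * ((D + 3) * (T n * Real.log n)))) := by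
        calc (2 - δ) ^ n * (e * ((n * 2 ^ w n : ℕ) : ℝ) ^ e)
          ≤ (2 - δ) ^ n * (2 ^ (e : ℝ) *
            (2 ^ (2 * ((D + 3) * (T n * Real.log n)))) ^ e) := by gcongr
        _ = 2 ^ (β * n + ((e : ℝ) + 2 * e * ((D + 3) * (T n * Real.log n)))) := by
            rw [hβ2, ← Real.rpow_natCast (2 ^ β) n, ← Real.rpow_natCast (2 ^ _ : ℝ) e,
              ← Real.rpow_mul (by norm_num), ← Real.rpow_mul (by norm_num),
              ← Real.rpow_add (by norm_num), ← Real.rpow_add (by norm_num)]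
            congr 1
            ring
      have h9 : β = 1 - 2 * ε := by rw [hε]; ring
      refine ⟨hmain.trans ?_, hmain.trans ?_⟩
      · apply Real.rpow_le_rpow_of_exponent_le (by norm_num)
        have h10 : (1 - ε) * ((n : ℝ) - 1) = (1 - ε) * n - (1 - ε) := by ring
        rw [h10, h9]
        linarith
      · apply Real.rpow_le_rpow_of_exponent_le (by norm_num)
        rw [h9]
        linarith

end Pool.Agent.W964.Pram
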