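import Mathlib
import Pool.Agent.H592R3.MobArith

/-!
The arithmetic for the moments.
-/

namespace Pool.Agent.W964.Pram

open Finset H568R2 H592R3

/-- The common setting of the arithmetic. -/
structure Ar2 (Q T b m' k : ℕ) (U τ : ℝ) (e Wm : ℕ) : Prop where
  hQ : 6 ≤ Q
  hT : 1 ≤ T
  hm' : 2 ≤ m'
  hk : 1 ≤ k
  hb : 1 ≤ b
  hU : U = τ ^ (3 * T)
  he : e = 3 * T * (E1 Q * m' + k)
  hτ : τ = 2 ^ b
  hA : 2 * (24 * (e : ℝ)) ^ 16 ≤ τ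
  hB1 : (2 : ℝ) ^ (2 * Q + 16) * (b : ℝ) ^ 4 ≤ τ
  hB2 : (2 : ℝ) ^ (4 * Q + 8) ≤ U
  hW : Wm = 3 * T * (2 * e * (3 * T * b * (E0 Q * m')))

section
variable {Q T b m' k : ℕ} {U τ : ℝ} {e Wm : ℕ}

lemma Ar2.E1pos (_h : Ar2 Q T b m' k U τ e Wm) : 1 ≤ E1 Q := by unfold E1; omega

lemma Ar2.He (h : Ar2 Q T b m' k U τ e Wm) : 3 * T ≤ e ∧ m' ≤ e ∧ Q * m' ≤ e ∧
    3 * T * (E0 Q * m') ≤ e := by
  have hE := h.E1pos
  have hm := h.hm'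
  have hT := h.hT
  rw [h.he]
  have h1 : m' ≤ E1 Q * m' + k := (Nat.le_mul_of_pos_left m' (by omega)).trans (Nat.le_add_right _ _)
  have h2 : Q * m' ≤ E1 Q * m' + k :=
    (Nat.mul_le_mul_right _ (by unfold E1 E0; omega)).trans (Nat.le_add_right _ _)
  have h3 : E0 Q * m' ≤ E1 Q * m' + k :=
    (Nat.mul_le_mul_right _ (by unfold E1; omega)).trans (Nat.le_add_right _ _)
  have h0 : 1 ≤ 3 * T := by omega
  refine ⟨Nat.le_mul_of_pos_right _ (by omega), ?_, ?_, Nat.mul_le_mul_left _ h3⟩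
  · exact h1.trans (Nat.le_mul_of_pos_left _ (by omega))
  · exact h2.trans (Nat.le_mul_of_pos_left _ (by omega))

lemma Ar2.e1 (h : Ar2 Q T b m' k U τ e Wm) : 1 ≤ e := by
  have := h.He.1
  have := h.hT
  omega

lemma Ar2.eR (h : Ar2 Q T b m' k U τ e Wm) : (1 : ℝ) ≤ e := by exact_mod_cast h.e1

lemma Ar2.bpos (h : Ar2 Q T b m' k U τ e Wm) : 1 ≤ b := h.hb

lemma Ar2.e16 (h : Ar2 Q T b m' k U τ e Wm) : (e : ℝ) ^ 16 * 24 ^ 16 * 2 ≤ τ := by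
  have := h.hA
  rw [mul_pow] at this
  linarith

lemma Ar2.e1k (h : Ar2 Q T b m' k U τ e Wm) (j : ℕ) : (1 : ℝ) ≤ (e : ℝ) ^ j := one_le_pow₀ h.eR

lemma Ar2.τ2 (h : Ar2 Q T b m' k U τ e Wm) : (24 : ℝ) ^ 16 * 2 ≤ τ := by
  have h1 := h.e16
  have h2 := h.e1k 16
  nlinarith

lemma Ar2.τpos (h : Ar2 Q T b m' k U τ e Wm) : 0 < τ := by
  have := h.τ2
  linarith [show (0 : ℝ) < 24 ^ 16 * 2 by norm_num]

lemma Ar2.τU (h : Ar2 Q T b m' k U τ e Wm) : τ ≤ U := by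
  rw [h.hU]
  calc τ = τ ^ 1 := (pow_one _).symm
    _ ≤ τ ^ (3 * T) := pow_le_pow_right₀ (by
      have := h.τ2
      have : (1 : ℝ) ≤ 24 ^ 16 * 2 := by norm_num
      linarith) (by have := h.hT; omega)

lemma Ar2.Upos (h : Ar2 Q T b m' k U τ e Wm) : 0 < U := lt_of_lt_of_le h.τpos h.τU

lemma Ar2.U576 (h : Ar2 Q T b m' k U τ e Wm) : 576 ≤ U := by
  have h1 := h.τ2
  have h2 := h.τU
  have : (576 : ℝ) ≤ 24 ^ 16 * 2 := by norm_num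
  linarith

lemma Ar2.U1 (h : Ar2 Q T b m' k U τ e Wm) : 1 ≤ U := by
  have := h.U576
  linarith

/-- The bound of the depth of the trees. -/
lemma Ar2.Wle (h : Ar2 Q T b m' k U τ e Wm) : (Wm : ℝ) ≤ 2 * (e : ℝ) ^ 3 * b := by
  obtain ⟨h1, _, _, h4⟩ := h.He
  have h5 : Wm ≤ 2 * e ^ 3 * b := by
    rw [h.hW]
    have h6 : 3 * T * b * (E0 Q * m') ≤ e * b := by
      calc 3 * T * b * (E0 Q * m') = 3 * T * (E0 Q * m') * b := by ring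
        _ ≤ e * b := Nat.mul_le_mul_right _ h4
    calc 3 * T * (2 * e * (3 * T * b * (E0 Q * m'))) ≤ e * (2 * e * (e * b)) :=
          Nat.mul_le_mul h1 (Nat.mul_le_mul_left _ h6)
      _ = 2 * e ^ 3 * b := by ring
  exact_mod_cast h5

lemma Ar2.b4 (h : Ar2 Q T b m' k U τ e Wm) : (b : ℝ) ^ 4 * 2 ^ 16 ≤ τ := by
  have h1 := h.hB1
  have h2 : (2 : ℝ) ^ 16 ≤ 2 ^ (2 * Q + 16) := pow_le_pow_right₀ (by norm_num) (by omega)
  have h3 : (0 : ℝ) ≤ (b : ℝ) ^ 4 := by positivity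
  have h4 := mul_le_mul_of_nonneg_right h2 h3
  linarith

/-- `(24 W)² ≤ τ`. -/
lemma Ar2.W2 (h : Ar2 Q T b m' k U τ e Wm) : (24 * (Wm : ℝ)) ^ 2 ≤ τ := by
  have hW := h.Wle
  have he := h.eR
  have h0 := h.τpos
  have h1 : (24 * (Wm : ℝ)) ^ 2 ≤ (48 * (e : ℝ) ^ 3 * b) ^ 2 := by
    apply pow_le_pow_left₀ (by positivity)
    linarith
  refine h1.trans ?_
  apply (pow_le_pow_iff_left₀ (by positivity) h0.le (by norm_num : (2 : ℕ) ≠ 0)).1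
  have h2 : (((48 * (e : ℝ) ^ 3 * b) ^ 2) ^ 2) = 48 ^ 4 * ((e : ℝ) ^ 12 * (b : ℝ) ^ 4) := by ring
  rw [h2]
  have h3 : (e : ℝ) ^ 12 ≤ (e : ℝ) ^ 16 := pow_le_pow_right₀ he (by norm_num)
  have h4 := h.e16
  have h5 := h.b4
  have h6 : (0 : ℝ) ≤ (b : ℝ) ^ 4 := by positivity
  have h7 : (0 : ℝ) ≤ (e : ℝ) ^ 16 := by positivity
  calc (48 : ℝ) ^ 4 * ((e : ℝ) ^ 12 * (b : ℝ) ^ 4) ≤ 48 ^ 4 * ((e : ℝ) ^ 16 * (b : ℝ) ^ 4) := by
        gcongr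
    _ ≤ ((e : ℝ) ^ 16 * 24 ^ 16 * 2) * ((b : ℝ) ^ 4 * 2 ^ 16) := by
        have : (48 : ℝ) ^ 4 ≤ 24 ^ 16 * 2 * 2 ^ 16 := by norm_num
        have h8 : (0 : ℝ) ≤ (e : ℝ) ^ 16 * (b : ℝ) ^ 4 := by positivity
        nlinarith
    _ ≤ τ * τ := mul_le_mul h4 h5 (by positivity) h0.le
    _ = τ ^ 2 := by ring

/-- The condition of `small_sum`. -/
lemma Ar2.small (h : Ar2 Q T b m' k U τ e Wm) :
    8 * (Wm : ℝ) * m' * ((Q * m' : ℕ) : ℝ) ≤ U := by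
  have hW := h.Wle
  have he := h.eR
  have h0 := h.τpos
  obtain ⟨_, hm, hQm, _⟩ := h.He
  have hmR : (m' : ℝ) ≤ e := by exact_mod_cast hm
  have hQmR : ((Q * m' : ℕ) : ℝ) ≤ e := by exact_mod_cast hQm
  refine le_trans ?_ h.τU
  have h1 : 8 * (Wm : ℝ) * m' * ((Q * m' : ℕ) : ℝ) ≤ 16 * (e : ℝ) ^ 5 * b := by
    calc 8 * (Wm : ℝ) * m' * ((Q * m' : ℕ) : ℝ) ≤ 8 * (2 * (e : ℝ) ^ 3 * b) * e * e := by gcongr
      _ = 16 * (e : ℝ) ^ 5 * b := by ring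
  refine h1.trans ?_
  apply (pow_le_pow_iff_left₀ (by positivity) h0.le (by norm_num : (4 : ℕ) ≠ 0)).1
  have h2 : (16 * (e : ℝ) ^ 5 * b) ^ 4 = 16 ^ 4 * ((e : ℝ) ^ 20 * (b : ℝ) ^ 4) := by ring
  rw [h2]
  have h3 : (e : ℝ) ^ 20 ≤ (e : ℝ) ^ 48 := pow_le_pow_right₀ he (by norm_num)
  have h4 : (e : ℝ) ^ 16 ≤ τ := by
    have h5 := h.e16
    have h7 : (0 : ℝ) ≤ (e : ℝ) ^ 16 := by positivity
    nlinarith
  have h5 := h.b4
  calc (16 : ℝ) ^ 4 * ((e : ℝ) ^ 20 * (b : ℝ) ^ 4) ≤ 16 ^ 4 * ((e : ℝ) ^ 48 * (b : ℝ) ^ 4) := by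
        gcongr
    _ = ((e : ℝ) ^ 16) ^ 3 * ((b : ℝ) ^ 4 * 2 ^ 16) := by norm_num; ring
    _ ≤ τ ^ 3 * τ := by
        apply mul_le_mul _ h5 (by positivity) (by positivity)
        exact pow_le_pow_left₀ (by positivity) h4 3
    _ = τ ^ 4 := by ring

/-- `T (2 m' + 1) ≤ U`. -/
lemma Ar2.Tm (h : Ar2 Q T b m' k U τ e Wm) : (T : ℝ) * (2 * m' + 1) ≤ U := by
  have he := h.eR
  obtain ⟨hTe, hm, _, _⟩ := h.He
  have hmR : (m' : ℝ) ≤ e := by exact_mod_cast hm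
  have hTe' : T ≤ e := by omega
  have hTeR : (T : ℝ) ≤ e := by exact_mod_cast hTe'
  have h1 : (T : ℝ) * (2 * m' + 1) ≤ e * (2 * e + 1) := by gcongr
  have h2 : (e : ℝ) * (2 * e + 1) ≤ 3 * (e : ℝ) ^ 16 := by
    have h3 : (e : ℝ) * (2 * e + 1) ≤ 3 * (e : ℝ) ^ 2 := by nlinarith
    have h4 : (e : ℝ) ^ 2 ≤ (e : ℝ) ^ 16 := pow_le_pow_right₀ he (by norm_num)
    linarith
  have h3 := h.e16
  have h4 := h.τU
  have h5 : (0 : ℝ) ≤ (e : ℝ) ^ 16 := by positivity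
  nlinarith

/-- The contribution of the sets of medium size. -/
lemma Ar2.medium (h : Ar2 Q T b m' k U τ e Wm) {P : ℕ}
    (hP : (P : ℝ) ≤ U ^ ((2 * Q - 12) * m')) :
    2 ^ (Q * m') * ((2 * U ^ 4) ^ (2 * m') * ((T * P : ℝ) * ((2 * m' + 1) *
      ((2 * (Wm : ℝ)) ^ (2 * m') * (2 * (Wm : ℝ)) ^ (2 * m'))) *
      ((2 * m') ^ (2 * m') * (U ^ 2) ^ m'))) ≤
      (U ^ 2) ^ (Q * m') / U := by
  have hW := h.Wle
  have he := h.eR
  have h0 := h.τpos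
  have hU0 := h.Upos
  have hU1 := h.U1
  have hm' := h.hm'
  have hQ := h.hQ
  have hTm := h.Tm
  obtain ⟨hTe, hm, _, _⟩ := h.He
  have hmR : (m' : ℝ) ≤ e := by exact_mod_cast hm
  obtain ⟨Z, hZ⟩ : ∃ Z : ℝ, Z = 2 ^ (Q + 2) * (2 * (Wm : ℝ)) ^ 4 * (2 * (m' : ℝ)) ^ 2 :=
    ⟨_, rfl⟩
  have hZ0 : 0 ≤ Z := by rw [hZ]; positivity
  have hτU2 : τ ^ 2 ≤ U := by
    rw [h.hU]
    apply pow_le_pow_right₀
    · have := h.τ2
      have : (1 : ℝ) ≤ 24 ^ 16 * 2 := by norm_num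
      linarith
    · have := h.hT; omega
  have hZU : Z ≤ U := by
    refine le_trans ?_ hτU2
    calc Z ≤ 2 ^ (Q + 2) * (2 * (2 * (e : ℝ) ^ 3 * b)) ^ 4 * (2 * (e : ℝ)) ^ 2 := by
          rw [hZ]; gcongr
      _ = (2 ^ (Q + 2) * 2 ^ 10 * (b : ℝ) ^ 4) * (e : ℝ) ^ 14 := by ring
      _ ≤ (2 ^ (2 * Q + 16) * (b : ℝ) ^ 4) * (e : ℝ) ^ 16 := by
          have h1 : (2 : ℝ) ^ (Q + 2) * 2 ^ 10 ≤ 2 ^ (2 * Q + 16) := by
            rw [← pow_add]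
            exact pow_le_pow_right₀ (by norm_num) (by omega)
          have h2 : (e : ℝ) ^ 14 ≤ (e : ℝ) ^ 16 := pow_le_pow_right₀ he (by norm_num)
          gcongr
      _ ≤ τ * τ := by
          apply mul_le_mul h.hB1 _ (by positivity) h0.le
          have h5 := h.e16
          have h7 : (0 : ℝ) ≤ (e : ℝ) ^ 16 := by positivity
          nlinarith
      _ = τ ^ 2 := by ring
  rw [le_div_iff₀ hU0]
  have e1 : 2 ^ (Q * m') * ((2 * U ^ 4) ^ (2 * m') * ((T * P : ℝ) * ((2 * m' + 1) *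
      ((2 * (Wm : ℝ)) ^ (2 * m') * (2 * (Wm : ℝ)) ^ (2 * m'))) *
      ((2 * m') ^ (2 * m') * (U ^ 2) ^ m'))) =
      U ^ (10 * m') * (P * (T * (2 * m' + 1)) * Z ^ m') := by
    have h1 : Z ^ m' = 2 ^ (Q * m') * 2 ^ (2 * m') * ((2 * (Wm : ℝ)) ^ (2 * m') *
        (2 * (Wm : ℝ)) ^ (2 * m') * (2 * m') ^ (2 * m')) := by
      rw [hZ, mul_pow, mul_pow, ← pow_mul, ← pow_mul, ← pow_mul, ← pow_add, ← pow_add,
        show (Q + 2) * m' = Q * m' + 2 * m' by ring,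
        show 4 * m' = 2 * m' + 2 * m' by ring]
      ring
    have h3 : (U ^ 4) ^ (2 * m') * (U ^ 2) ^ m' = U ^ (10 * m') := by
      rw [← pow_mul, ← pow_mul, ← pow_add]; congr 1; ring
    rw [h1, ← h3, mul_pow 2 (U ^ 4)]
    ring
  rw [e1]
  have hP0 : (0 : ℝ) ≤ P := Nat.cast_nonneg P
  have hUm : U * U ≤ U ^ m' := by
    calc U * U = U ^ 2 := by ring
      _ ≤ U ^ m' := pow_le_pow_right₀ hU1 hm'
  calc U ^ (10 * m') * (P * (T * (2 * m' + 1)) * Z ^ m') * U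
      ≤ U ^ (10 * m') * (P * U * U ^ m') * U := by gcongr
    _ = U ^ (10 * m') * P * (U * U) * U ^ m' := by ring
    _ ≤ U ^ (10 * m') * U ^ ((2 * Q - 12) * m') * U ^ m' * U ^ m' := by gcongr
    _ = (U ^ 2) ^ (Q * m') := by
        rw [← pow_mul, ← pow_add, ← pow_add, ← pow_add]
        congr 1
        have h1 : (2 * Q - 12) * m' + 12 * m' = 2 * Q * m' := by
          rw [← Nat.add_mul]; congr 1; omega
        have h2 : 2 * (Q * m') = 2 * Q * m' := by ring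
        omega

/-- The probability of failure. -/
lemma Ar2.fail (h : Ar2 Q T b m' k U τ e Wm) {P Kl : ℕ}
    (hP : (P : ℝ) ≤ U ^ ((2 * Q - 12) * m')) (hK : (Kl : ℝ) ≤ U ^ (2 * Q ^ 2 * m')) :
    (2 ^ (Q * m') * (2 * U ^ 4) ^ (2 * m')) *
      (T * (((P * 2 ^ (2 * e) * (Kl + P + 3) : ℕ) : ℝ) *
        (12 * (Wm : ℝ) * (1 / τ)) ^ (2 * e + 1))) ≤ 1 / U ^ k := by
  have he := h.eR
  have h0 := h.τpos
  have hU0 := h.Upos
  have hU1 := h.U1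
  have hm' := h.hm'
  have hQ := h.hQ
  have hU576 := h.U576
  obtain ⟨hTe, hm, _, _⟩ := h.He
  have hTeR : (3 : ℝ) * T ≤ e := by exact_mod_cast hTe
  have hTU : (T : ℝ) ≤ U := by
    have h1 := h.hA
    have h2 := h.τU
    have h3 : 24 * (e : ℝ) ≤ (24 * (e : ℝ)) ^ 16 := by
      calc 24 * (e : ℝ) = (24 * (e : ℝ)) ^ 1 := (pow_one _).symm
        _ ≤ (24 * (e : ℝ)) ^ 16 := pow_le_pow_right₀ (by linarith) (by norm_num)
    have h4 : (0 : ℝ) ≤ T := Nat.cast_nonneg _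
    linarith
  have hW2 := h.W2
  -- the power
  have hpw : (2 : ℝ) ^ (2 * e) * (12 * (Wm : ℝ) * (1 / τ)) ^ (2 * e + 1) *
      U ^ (E1 Q * m' + k) ≤ 1 := by
    have hW0 : (0 : ℝ) ≤ 24 * (Wm : ℝ) := by positivity
    by_cases hW1 : 24 * (Wm : ℝ) < 1
    · have hWm : Wm = 0 := by
        by_contra hne
        have h1 : 1 ≤ Wm := Nat.one_le_iff_ne_zero.2 hne
        have h2 : (1 : ℝ) ≤ Wm := by exact_mod_cast h1
        linarith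
      rw [hWm]
      simp
    push Not at hW1
    have f2 : U ^ (E1 Q * m' + k) = τ ^ e := by
      rw [h.hU, ← pow_mul, h.he]
    have g1 : (2 : ℝ) ^ (2 * e) * (12 * (Wm : ℝ) * (1 / τ)) ^ (2 * e + 1) ≤
        (24 * (Wm : ℝ)) ^ (2 * e + 1) / τ ^ (2 * e + 1) := by
      have h1 : (24 * (Wm : ℝ)) ^ (2 * e + 1) / τ ^ (2 * e + 1) =
          2 ^ (2 * e + 1) * (12 * (Wm : ℝ) * (1 / τ)) ^ (2 * e + 1) := by
        rw [← div_pow, ← mul_pow]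
        congr 1
        field_simp
        ring
      rw [h1]
      apply mul_le_mul_of_nonneg_right _ (by positivity)
      exact pow_le_pow_right₀ (by norm_num) (by omega)
    rw [f2]
    have g2 : (24 * (Wm : ℝ)) ^ (2 * e + 1) ≤ τ ^ (e + 1) := by
      calc (24 * (Wm : ℝ)) ^ (2 * e + 1) ≤ (24 * (Wm : ℝ)) ^ (2 * (e + 1)) :=
            pow_le_pow_right₀ hW1 (by omega)
        _ = ((24 * (Wm : ℝ)) ^ 2) ^ (e + 1) := by rw [pow_mul]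
        _ ≤ τ ^ (e + 1) := pow_le_pow_left₀ (by positivity) hW2 _
    calc (2 : ℝ) ^ (2 * e) * (12 * (Wm : ℝ) * (1 / τ)) ^ (2 * e + 1) * τ ^ e
        ≤ (24 * (Wm : ℝ)) ^ (2 * e + 1) / τ ^ (2 * e + 1) * τ ^ e := by gcongr
      _ ≤ τ ^ (e + 1) / τ ^ (2 * e + 1) * τ ^ e := by gcongr
      _ = 1 := by
          rw [div_mul_eq_mul_div, ← pow_add, show e + 1 + e = 2 * e + 1 by ring]
          exact div_self (by positivity)
  have h2Q : ((2 : ℝ) ^ (Q * m')) * 2 ^ (2 * m') ≤ U ^ m' := by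
    rw [← pow_add, show Q * m' + 2 * m' = (Q + 2) * m' by ring, pow_mul]
    apply pow_le_pow_left₀ (by positivity)
    refine le_trans ?_ h.hB2
    exact pow_le_pow_right₀ (by norm_num) (by omega)
  have hsum : (Kl : ℝ) + P + 3 ≤ U ^ (2 * Q ^ 2 * m' + 1) := by
    have h1 : U ^ ((2 * Q - 12) * m') ≤ U ^ (2 * Q ^ 2 * m') := by
      apply pow_le_pow_right₀ hU1
      apply Nat.mul_le_mul_right
      have : Q ≤ Q ^ 2 := Nat.le_self_pow (by norm_num) Q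
      omega
    have h2 : 1 ≤ U ^ (2 * Q ^ 2 * m') := one_le_pow₀ hU1
    rw [pow_succ]
    nlinarith
  rw [le_div_iff₀ (by positivity)]
  have hP0 : (0 : ℝ) ≤ P := Nat.cast_nonneg P
  obtain ⟨δ, hδ⟩ : ∃ δ : ℝ, δ = (2 : ℝ) ^ (2 * e) * (12 * (Wm : ℝ) * (1 / τ)) ^ (2 * e + 1) :=
    ⟨_, rfl⟩
  have hδ0 : 0 ≤ δ := by rw [hδ]; positivity
  rw [← hδ] at hpw
  have h3 : (2 ^ (Q * m') * (2 * U ^ 4) ^ (2 * m')) *
      (T * (((P * 2 ^ (2 * e) * (Kl + P + 3) : ℕ) : ℝ) *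
        (12 * (Wm : ℝ) * (1 / τ)) ^ (2 * e + 1))) * U ^ k =
      ((2 ^ (Q * m') * 2 ^ (2 * m')) * U ^ (8 * m') * T * P * (Kl + P + 3)) * U ^ k * δ := by
    rw [hδ, mul_pow 2 (U ^ 4), ← pow_mul U 4 (2 * m'), show 4 * (2 * m') = 8 * m' by ring]
    push_cast
    ring
  rw [h3]
  have h4 : (2 ^ (Q * m') * 2 ^ (2 * m')) * U ^ (8 * m') * T * P * ((Kl : ℝ) + P + 3) ≤
      U ^ (E1 Q * m') := by
    calc (2 ^ (Q * m') * 2 ^ (2 * m')) * U ^ (8 * m') * T * P * ((Kl : ℝ) + P + 3)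
        ≤ U ^ m' * U ^ (8 * m') * U * U ^ ((2 * Q - 12) * m') * U ^ (2 * Q ^ 2 * m' + 1) := by
          gcongr
      _ = U ^ (m' + 8 * m' + 1 + (2 * Q - 12) * m' + (2 * Q ^ 2 * m' + 1)) := by
          simp only [pow_add, pow_one]
      _ ≤ U ^ (E1 Q * m') := by
          apply pow_le_pow_right₀ hU1
          have h5 : (2 * Q - 12) * m' ≤ 2 * Q * m' := Nat.mul_le_mul_right _ (by omega)
          have h6 : E1 Q * m' = 2 * Q ^ 2 * m' + 2 * Q * m' + (6 * Q ^ 2 + 6 * Q + 88) * m' := by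
            unfold E1 E0; ring
          have h7 : 9 * m' + 2 ≤ (6 * Q ^ 2 + 6 * Q + 88) * m' := by
            have : 10 * m' ≤ (6 * Q ^ 2 + 6 * Q + 88) * m' := Nat.mul_le_mul_right _ (by omega)
            omega
          omega
  calc (2 ^ (Q * m') * 2 ^ (2 * m')) * U ^ (8 * m') * T * P * ((Kl : ℝ) + P + 3) * U ^ k * δ
      ≤ U ^ (E1 Q * m') * U ^ k * δ := by gcongr
    _ = U ^ (E1 Q * m' + k) * δ := by rw [pow_add]
    _ ≤ 1 := by rw [mul_comm]; exact hpw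

end

end Pool.Agent.W964.Pram
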