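import Mathlib
import Pool.Agent.W964.Pram.MachFam

/-!
The sets with a nonzero coefficient in one of the functions of a restricted parallel machine: a
bound that does not depend on the number of cells.
-/

set_option linter.unusedSectionVars false

namespace Pool.Agent.W964.Pram

open Finset H568R2 H592R3

section Fam2
variable {J : Type} {P : ℕ} {I : Type*} [Fintype I] [DecidableEq I]

/-- On a cube on which nobody writes into the cell, the attempts to write are trivial. -/
lemma wr_idle' (M : Machine J P) {s : ℕ} {c : J ⊕ M.A} {y : J → Bool}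
    (hc : ∀ p, M.wr c ((M.run y (s + 1)).1 p) = none) :
    M.Wr s c y = (fun (v : M.V) (j : ℕ) => if min j (P + 1) ≤ P then none else some v)
      ((M.run y s).2 c) := by
  funext j
  show fs (M.wrf c (fun p => (M.run y (s + 1)).1 p)
    ((M.run y s).2 c)) (min j (P + 1)) =
    if min j (P + 1) ≤ P then none else some ((M.run y s).2 c)
  have hnone : ∀ k ≤ P, fs (M.wrf c (fun p => (M.run y (s + 1)).1 p)
      ((M.run y s).2 c)) k = none := by
    intro k hk
    rw [fs_none_iff]
    intro i hi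
    unfold Machine.wrf
    rw [dif_pos (by omega : i < P)]
    exact hc _
  by_cases hj : min j (P + 1) ≤ P
  · rw [if_pos hj]
    exact hnone _ hj
  · rw [if_neg hj]
    have hj' : min j (P + 1) = P + 1 := by
      have := Nat.min_le_right j (P + 1)
      omega
    rw [hj', fs_succ, hnone P le_rfl]
    unfold Machine.wrf
    simp

/-- Somebody writes into the cell in step `s` on the cube. -/
def Active (M : Machine J P) (σ : (I → Bool) → (J → Bool)) (ρ : Restr I) (D : I → Bool)
    (V : Finset I) (c : J ⊕ M.A) (s : ℕ) : Prop :=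
  ∃ p, ∃ U ⊆ V, M.wr c ((M.run (σ (ov ρ (blend D V U))) (s + 1)).1 p) ≠ none

lemma wr_back' (M : Machine J P) (σ : (I → Bool) → (J → Bool))
    (hσ : ∀ j, Junta 1 (fun x => σ x j)) {ρ : Restr I}
    (D : I → Bool) (V : Finset I) (hV : 2 ≤ V.card) (c : J ⊕ M.A) :
    ∀ s : ℕ, ∀ g : (ℕ → Option M.V) → ℤ,
      cz (fun x => g (rv (fun x => M.Wr s c (σ x)) ρ x)) D V ≠ 0 →
      ∃ s' ≤ s, Active M σ ρ D V c s' ∧ ∃ g' : (ℕ → Option M.V) → ℤ,
        cz (fun x => g' (rv (fun x => M.Wr s' c (σ x)) ρ x)) D V ≠ 0 := by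
  intro s
  induction s with
  | zero =>
    intro g hg
    by_cases hc : Active M σ ρ D V c 0
    · exact ⟨0, le_rfl, hc, g, hg⟩
    · exfalso
      apply hg
      have h1 : MT 1 (rv (fun x => (M.run (σ x) 0).2 c) ρ) := by
        apply MT.rv
        cases c with
        | inl j =>
          have h1 : MT 1 (fun x => σ x j) := MT.of_dt (DT.of_junta_one (hσ j) le_rfl)
          exact h1.map M.bit
        | inr a => exact MT.of_const ⟨M.blank, fun _ => rfl⟩
      have h2 := h1.cz_zero (fun v => g (fun j => if min j (P + 1) ≤ P then none else some v)) D V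
        (by omega)
      rw [← h2]
      unfold cz
      apply mb_congr
      intro U hU
      have h3 : ∀ p, M.wr c ((M.run (σ (ov ρ (blend D V U))) (0 + 1)).1 p) = none := by
        intro p
        by_contra hne
        exact hc ⟨p, U, hU, hne⟩
      show g (M.Wr 0 c (σ (ov ρ (blend D V U)))) = _
      rw [wr_idle' M h3]
      rfl
  | succ s ih =>
    intro g hg
    by_cases hc : Active M σ ρ D V c (s + 1)
    · exact ⟨s + 1, le_rfl, hc, g, hg⟩
    · have e : cz (fun x => g (rv (fun x => M.Wr (s + 1) c (σ x)) ρ x)) D V =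
          cz (fun x => (fun z : ℕ → Option M.V => g (fun j => if min j (P + 1) ≤ P then none
            else some ((z (P + 1)).getD M.blank)))
            (rv (fun x => M.Wr s c (σ x)) ρ x)) D V := by
        unfold cz
        apply mb_congr
        intro U hU
        have h3 : ∀ p, M.wr c ((M.run (σ (ov ρ (blend D V U))) (s + 1 + 1)).1 p) = none := by
          intro p
          by_contra hne
          exact hc ⟨p, U, hU, hne⟩
        show g (M.Wr (s + 1) c (σ (ov ρ (blend D V U)))) = _
        rw [wr_idle' M h3]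
        show g (fun j => if min j (P + 1) ≤ P then none
            else some ((M.run (σ (ov ρ (blend D V U))) (s + 1)).2 c)) =
            g (fun j => if min j (P + 1) ≤ P
            then none else some ((M.Wr s c (σ (ov ρ (blend D V U))) (P + 1)).getD M.blank))
        rw [M.mem_succ]
      rw [e] at hg
      obtain ⟨s', hs', h1, g', hg'⟩ := ih (fun z : ℕ → Option M.V => g (fun j =>
        if min j (P + 1) ≤ P then none
            else some ((z (P + 1)).getD M.blank))) hg
      exact ⟨s', by omega, h1, g', hg'⟩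

lemma blend_sub {D : I → Bool} {V U U' : Finset I} (hD : ∀ i ∈ V, D i = false) (hU : U ⊆ V)
    (hU' : U' ⊆ U) : blend D U U' = blend D V U' := by
  funext i
  unfold blend
  by_cases h1 : i ∈ U
  · rw [if_pos h1, if_pos (hU h1)]
  · rw [if_neg h1]
    have h2 : i ∉ U' := fun h => h1 (hU' h)
    by_cases h3 : i ∈ V
    · rw [if_pos h3, hD i h3]
      simp [h2]
    · rw [if_neg h3]

open Classical in
/-- A minimal set at which a processor writes into the cell. -/
lemma active_min (M : Machine J P) (σ : (I → Bool) → (J → Bool)) {ρ : Restr I} {D : I → Bool}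
    {V : Finset I} (hD : ∀ i ∈ V, D i = false) {c : J ⊕ M.A} {s : ℕ} {p : Fin P}
    (h : ∃ U ⊆ V, M.wr c ((M.run (σ (ov ρ (blend D V U))) (s + 1)).1 p) ≠ none) :
    ∃ U ⊆ V, M.wr c ((M.run (σ (ov ρ (blend D U U))) (s + 1)).1 p) ≠ none ∧
      cz (fun x => (fun q => if M.wr c q ≠ none then (1 : ℤ) else 0)
        (rv (fun x => (M.run (σ x) (s + 1)).1 p) ρ x)) D U ≠ 0 := by
  have h' : (V.powerset.filter (fun U =>
      M.wr c ((M.run (σ (ov ρ (blend D V U))) (s + 1)).1 p) ≠ none)).Nonempty := by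
    obtain ⟨U, hU, h1⟩ := h
    exact ⟨U, Finset.mem_filter.2 ⟨Finset.mem_powerset.2 hU, h1⟩⟩
  obtain ⟨U, hU, hmin⟩ := Finset.exists_min_image _ (fun U : Finset I => U.card) h'
  rw [Finset.mem_filter, Finset.mem_powerset] at hU
  refine ⟨U, hU.1, ?_, ?_⟩
  · rw [blend_sub hD hU.1 (Finset.Subset.refl U)]
    exact hU.2
  · unfold cz mb
    rw [Finset.sum_eq_single U]
    · show (-1 : ℤ) ^ (U.card + U.card) *
        (if M.wr c ((M.run (σ (ov ρ (blend D U U))) (s + 1)).1 p) ≠ none then (1 : ℤ) else 0) ≠ 0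
      rw [blend_sub hD hU.1 (Finset.Subset.refl U), if_pos hU.2, mul_one]
      exact pow_ne_zero _ (by norm_num)
    · intro U' hU' hne
      rw [Finset.mem_powerset] at hU'
      show (-1 : ℤ) ^ (U.card + U'.card) *
        (if M.wr c ((M.run (σ (ov ρ (blend D U U'))) (s + 1)).1 p) ≠ none then (1 : ℤ) else 0) = 0
      rw [blend_sub hD hU.1 hU', if_neg, mul_zero]
      rw [not_not]
      by_contra hcon
      have h2 := hmin U' (Finset.mem_filter.2
        ⟨Finset.mem_powerset.2 (hU'.trans hU.1), hcon⟩)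
      have h3 : U'.card < U.card := Finset.card_lt_card (lt_of_le_of_ne hU' hne)
      omega
    · intro hn
      exact absurd (Finset.mem_powerset.2 (Finset.Subset.refl U)) hn

open Classical in
lemma wr_write {M : Machine J P} {c : J ⊕ M.A} {q : M.Q} (h : M.wr c q ≠ none) :
    ∃ v, M.write q = some (c, v) := by
  unfold Machine.wr at h
  cases hw : M.write q with
  | none => rw [hw] at h; exact absurd rfl h
  | some w =>
    rw [hw] at h
    by_cases hc : w.1 = c
    · exact ⟨w.2, by rw [← hc]⟩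
    · exfalso
      apply h
      show (if w.1 = c then some w.2 else none) = none
      rw [if_neg hc]

open Classical in
/-- The sets with a nonzero coefficient. -/
theorem machine_fam2 (M : Machine J P) (σ : (I → Bool) → (J → Bool))
    (hσ : ∀ j, Junta 1 (fun x => σ x j)) {Kl h m T Wm : ℕ}
    (hK : ∀ q, (M.query q).length ≤ Kl) {ρ : Restr I}
    (hG : Good M σ Kl h m T ρ) (hWm : h + (h * m + (h + T * (h * m))) ≤ Wm) (hWm1 : 1 ≤ Wm)
    (D : I → Bool) (k : ℕ) (hk : 2 ≤ k) :
    ∃ Fam : Finset (Finset I), Fam.card ≤ (T * P) * ((k + 2) * ((2 * Wm) ^ k * (2 * Wm) ^ k)) ∧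
      ∀ (f : (I → Bool) → ℤ) (V : Finset I), Fns M σ Kl T f → V.card = k →
        (∀ i ∈ V, D i = false) → cz (rv f ρ) D V ≠ 0 → V ∈ Fam := by
  have hmon : ∀ s < T, h + (h * m + (h + s * (h * m))) ≤ Wm ∧ h * m + (h + s * (h * m)) ≤ Wm := by
    intro s hs
    have : s * (h * m) ≤ T * (h * m) := Nat.mul_le_mul_right _ (by omega)
    omega
  have hpow : ∀ w ≤ Wm, ∀ j, (2 * w) ^ j ≤ (2 * Wm) ^ j := fun w hw j =>
    Nat.pow_le_pow_left (by omega) j
  have hR : ∀ (t : Fin T) (p : Fin P), ∃ Fam : Finset (Finset I), Fam.card ≤ (2 * Wm) ^ k ∧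
      ∀ (g : (ℕ → M.Q × Option ((J ⊕ M.A) × M.V)) → ℤ) (V : Finset I), V.card = k →
        cz (fun x => g (rv (fun x => M.Rd Kl t p (σ x)) ρ x)) D V ≠ 0 → V ∈ Fam := by
    intro t p
    obtain ⟨Fam, h1, h2⟩ := (hG.rd t t.2 p).fam D k
    exact ⟨Fam, h1.trans (hpow _ (hmon t t.2).1 k), h2⟩
  have hS : ∀ (t : Fin T) (p : Fin P) (j : ℕ), ∃ Fam : Finset (Finset I),
      Fam.card ≤ (2 * Wm) ^ j ∧
      ∀ (g : M.Q → ℤ) (V : Finset I), V.card = j →
        cz (fun x => g (rv (fun x => (M.run (σ x) (t + 1)).1 p) ρ x)) D V ≠ 0 → V ∈ Fam := by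
    intro t p j
    have hst : MT (h + (h * m + (h + t * (h * m))))
        (rv (fun x => (M.run (σ x) (t + 1)).1 p) ρ) := by
      have h1 := (hG.rd t t.2 p).map (fun z : ℕ → M.Q × Option ((J ⊕ M.A) × M.V) =>
        M.next (z Kl).1 (z Kl).2)
      have e : (fun x => (fun z : ℕ → M.Q × Option ((J ⊕ M.A) × M.V) =>
          M.next (z Kl).1 (z Kl).2) (rv (fun x => M.Rd Kl t p (σ x)) ρ x)) =
          rv (fun x => (M.run (σ x) (t + 1)).1 p) ρ := by
        funext x
        exact (M.st_succ hK t p (σ (ov ρ x))).symm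
      rw [e] at h1
      exact h1
    obtain ⟨Fam, h1, h2⟩ := hst.fam D j
    exact ⟨Fam, h1.trans (hpow _ (hmon t t.2).1 j), h2⟩
  have hW : ∀ (t : Fin T) (c : J ⊕ M.A), ∃ Fam : Finset (Finset I), Fam.card ≤ (2 * Wm) ^ k ∧
      ∀ (g : (ℕ → Option M.V) → ℤ) (V : Finset I), V.card = k →
        cz (fun x => g (rv (fun x => M.Wr t c (σ x)) ρ x)) D V ≠ 0 → V ∈ Fam := by
    intro t c
    obtain ⟨Fam, h1, h2⟩ := (hG.wr t t.2 c).fam D k
    exact ⟨Fam, h1.trans (hpow _ (hmon t t.2).2 k), h2⟩
  choose FR hFR1 hFR2 using hR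
  choose FS hFS1 hFS2 using hS
  choose FW hFW1 hFW2 using hW
  refine ⟨(univ : Finset (Fin T)).biUnion (fun t => (univ : Finset (Fin P)).biUnion (fun p =>
    FR t p ∪ (Finset.range (k + 1)).biUnion (fun j => (FS t p j).biUnion (fun U =>
      (M.write ((M.run (σ (ov ρ (blend D U U))) (t + 1)).1 p)).elim ∅
        (fun w => FW t w.1))))), ?_, ?_⟩
  · have hb1 : ∀ (t : Fin T) (p : Fin P), (FR t p ∪ (Finset.range (k + 1)).biUnion (fun j =>
        (FS t p j).biUnion (fun U =>
        (M.write ((M.run (σ (ov ρ (blend D U U))) (t + 1)).1 p)).elim ∅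
        (fun w => FW t w.1)))).card ≤ (k + 2) * ((2 * Wm) ^ k * (2 * Wm) ^ k) := by
      intro t p
      refine (Finset.card_union_le _ _).trans ?_
      have h1 : (FR t p).card ≤ (2 * Wm) ^ k * (2 * Wm) ^ k :=
        (hFR1 t p).trans (Nat.le_mul_of_pos_left _ (by positivity))
      have h2 : ((Finset.range (k + 1)).biUnion (fun j => (FS t p j).biUnion (fun U =>
          (M.write ((M.run (σ (ov ρ (blend D U U))) (t + 1)).1 p)).elim ∅
          (fun w => FW t w.1)))).card ≤ (k + 1) * ((2 * Wm) ^ k * (2 * Wm) ^ k) := by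
        refine Finset.card_biUnion_le.trans ?_
        have h3 : ∀ j ∈ Finset.range (k + 1), ((FS t p j).biUnion (fun U =>
            (M.write ((M.run (σ (ov ρ (blend D U U))) (t + 1)).1 p)).elim ∅
            (fun w => FW t w.1))).card ≤ (2 * Wm) ^ k * (2 * Wm) ^ k := by
          intro j hj
          rw [Finset.mem_range] at hj
          refine Finset.card_biUnion_le.trans ?_
          have h4 : ∀ U ∈ FS t p j, ((M.write ((M.run (σ (ov ρ (blend D U U)))
              (t + 1)).1 p)).elim ∅ (fun w => FW t w.1)).card ≤ (2 * Wm) ^ k := by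
            intro U _
            cases M.write ((M.run (σ (ov ρ (blend D U U))) (t + 1)).1 p) with
            | none => simp
            | some w => exact hFW1 t w.1
          refine (Finset.sum_le_card_nsmul _ _ _ h4).trans ?_
          rw [smul_eq_mul]
          apply Nat.mul_le_mul_right
          exact (hFS1 t p j).trans (Nat.pow_le_pow_right (by omega) (by omega))
        refine (Finset.sum_le_card_nsmul _ _ _ h3).trans ?_
        rw [Finset.card_range, smul_eq_mul]
      calc (FR t p).card + _ ≤ (2 * Wm) ^ k * (2 * Wm) ^ k +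
            (k + 1) * ((2 * Wm) ^ k * (2 * Wm) ^ k) := Nat.add_le_add h1 h2
        _ = (k + 2) * ((2 * Wm) ^ k * (2 * Wm) ^ k) := by ring
    refine Finset.card_biUnion_le.trans ?_
    refine (Finset.sum_le_card_nsmul _ _ (P * ((k + 2) * ((2 * Wm) ^ k * (2 * Wm) ^ k)))
      (fun t _ => ?_)).trans ?_
    · refine Finset.card_biUnion_le.trans ?_
      refine (Finset.sum_le_card_nsmul _ _ _ (fun p _ => hb1 t p)).trans ?_
      rw [smul_eq_mul, Finset.card_univ, Fintype.card_fin]
    · rw [smul_eq_mul, Finset.card_univ, Fintype.card_fin, Nat.mul_assoc]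
  · rintro f V ⟨t, ht, hf⟩ hV hD hne
    rw [Finset.mem_biUnion]
    rcases hf with ⟨p, g, rfl⟩ | ⟨c, g, rfl⟩
    · refine ⟨⟨t, ht⟩, Finset.mem_univ _, ?_⟩
      rw [Finset.mem_biUnion]
      exact ⟨p, Finset.mem_univ _, Finset.mem_union_left _ (hFR2 ⟨t, ht⟩ p g V hV hne)⟩
    · obtain ⟨s', hs', ⟨p, hp⟩, g', hg'⟩ := wr_back' M σ hσ D V (by omega) c t g hne
      have hs'T : s' < T := by omega
      obtain ⟨U, hUV, hU1, hU2⟩ := active_min M σ hD hp
      obtain ⟨v, hv⟩ := wr_write hU1
      refine ⟨⟨s', hs'T⟩, Finset.mem_univ _, ?_⟩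
      rw [Finset.mem_biUnion]
      refine ⟨p, Finset.mem_univ _, Finset.mem_union_right _ ?_⟩
      rw [Finset.mem_biUnion]
      refine ⟨U.card, ?_, ?_⟩
      · rw [Finset.mem_range]
        have := Finset.card_le_card hUV
        omega
      · rw [Finset.mem_biUnion]
        refine ⟨U, hFS2 ⟨s', hs'T⟩ p U.card (fun q => if M.wr c q ≠ none then (1 : ℤ) else 0) U
          rfl hU2, ?_⟩
        show V ∈ (M.write ((M.run (σ (ov ρ (blend D U U))) (s' + 1)).1 p)).elim ∅
          (fun w => FW ⟨s', hs'T⟩ w.1)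
        rw [hv]
        exact hFW2 ⟨s', hs'T⟩ c g' V hV hg'

end Fam2

end Pool.Agent.W964.Pram
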