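import Mathlib
import Pool.Agent.W964.Pram.Moment

/-!
The weighted expected number of planted instances on which a function changes its value.
-/

set_option linter.unusedSectionVars false

namespace Pool.Agent.W964.Pram

open Finset H568R2 H592R3

section Wt
variable {m n r : ℕ} {α : Type}

open Classical in
/-- The number of planted instances on which the value of the function changes. -/
noncomputable def nch (s : Fin m → Fin r → Fin m)
    (out : ((Fin m × (Fin r → Fin n)) → Bool) → α)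
    (X : (Fin m × (Fin r → Fin n)) → Bool) : ℝ :=
  ∑ a : Fin m → Fin n, if out X ≠ out (plant (vr s a) univ X) then (1 : ℝ) else 0

lemma nch_nonneg (s : Fin m → Fin r → Fin m)
    (out : ((Fin m × (Fin r → Fin n)) → Bool) → α)
    (X : (Fin m × (Fin r → Fin n)) → Bool) : 0 ≤ nch s out X := by
  classical
  unfold nch
  refine Finset.sum_nonneg fun a _ => ?_
  split_ifs <;> norm_num

lemma nch_le (s : Fin m → Fin r → Fin m)
    (out : ((Fin m × (Fin r → Fin n)) → Bool) → α)
    (X : (Fin m × (Fin r → Fin n)) → Bool) : nch s out X ≤ (n : ℝ) ^ m := by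
  classical
  unfold nch
  calc _ ≤ ∑ _a : Fin m → Fin n, (1 : ℝ) := by
        refine Finset.sum_le_sum fun a _ => ?_
        split_ifs <;> norm_num
    _ = (n : ℝ) ^ m := by
        rw [Finset.sum_const, Finset.card_univ, Fintype.card_fun, Fintype.card_fin,
          Fintype.card_fin, nsmul_eq_mul]
        push_cast
        ring

open Classical in
/-- The weighted first moment. -/
theorem first_weighted (s : Fin m → Fin r → Fin m)
    (out : ((Fin m × (Fin r → Fin n)) → Bool) → α)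
    (𝓕 : ℕ → (((Fin m × (Fin r → Fin n)) → Bool) → ℤ) → Prop) (L : ℕ)
    (hsize : ∀ k f, 𝓕 k f → 1 ≤ k ∧ k < 2 * L)
    (cover : ∀ (X : (Fin m × (Fin r → Fin n)) → Bool) (a : Fin m → Fin n),
      out X ≠ out (plant (vr s a) univ X) →
      ∃ (H : Finset (Fin m)) (f : ((Fin m × (Fin r → Fin n)) → Bool) → ℤ),
        𝓕 H.card f ∧ mb (pz f (vr s a) X) H ≠ 0)
    (Gd : ((Fin m × (Fin r → Fin n)) → Bool) → Restr (Fin m × (Fin r → Fin n)) → Prop)
    (Nk : ℕ → ℕ)
    (hfam : ∀ Y ρ, Gd Y ρ → ∀ D k, 1 ≤ k → k < 2 * L →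
      ∃ Fam : Finset (Finset (Fin m × (Fin r → Fin n))), Fam.card ≤ Nk k ∧
        ∀ f V, 𝓕 k f → V.card = k → (∀ i ∈ V, D i = false) →
          cz (rv (fun x => f (mask Y x)) ρ) D V ≠ 0 → V ∈ Fam)
    {y q c ε : ℝ} (hy0 : 0 < y) (hy1 : y ≤ 1) (hq0 : 0 < q) (hq1 : q ≤ 1)
    (hcyq : 2 ≤ c * (y * q)) (hc : 1 ≤ c)
    (hε : ∀ Y, Ex (wq q) (fun ρ : Restr (Fin m × (Fin r → Fin n)) =>
      if ¬ Gd Y ρ then (1 : ℝ) else 0) ≤ ε)
    (ψ : ((Fin m × (Fin r → Fin n)) → Bool) → ℝ) (hψ0 : ∀ X, 0 ≤ ψ X) {B0 : ℝ}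
    (hψ1 : ∀ X, ψ X ≤ B0) :
    Ex (vp (y / 2)) (fun X : (Fin m × (Fin r → Fin n)) → Bool => ψ X * nch s out X) ≤
    (∑ H ∈ univ.filter (fun H : Finset (Fin m) => 1 ≤ H.card ∧ H.card < 2 * L),
      c ^ H.card * ((Nk H.card * (H.card ^ H.card * n ^ (m - (touched s H).card)) : ℕ) : ℝ)) *
      Ex (vp (y / 2)) ψ +
      B0 * ((n : ℝ) ^ m * (2 ^ m * c ^ (2 * L))) * ε := by
  have hc0 : 0 ≤ c := by linarith
  have hB00 : 0 ≤ B0 := (hψ0 (fun _ => false)).trans (hψ1 _)
  obtain ⟨e, he⟩ : ∃ e : ((Fin m → Fin n) × Finset (Fin m)) →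
      ((Fin m × (Fin r → Fin n)) → Bool) → ℝ, e = fun k X =>
      if ∃ f, 𝓕 k.2.card f ∧ mb (pz f (vr s k.1) X) k.2 ≠ 0 then (1 : ℝ) else 0 := ⟨_, rfl⟩
  obtain ⟨E', hE'⟩ : ∃ E' : ((Fin m → Fin n) × Finset (Fin m)) →
      ((Fin m × (Fin r → Fin n)) → Bool × (Option Bool × Bool)) → ℝ, E' = fun k ω =>
      if (∀ i ∈ k.2.image (vr s k.1), (ω i).2.2 = false) ∧
        ∃ f, 𝓕 k.2.card f ∧ cz (rv (fun x => f (mask (fun i => (ω i).1) x))
        (fun i => (ω i).2.1)) (fun i => (ω i).2.2) (k.2.image (vr s k.1)) ≠ 0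
        then (1 : ℝ) else 0 := ⟨_, rfl⟩
  have he0 : ∀ k X, 0 ≤ e k X := by
    intro k X; rw [he]; dsimp only; split_ifs <;> norm_num
  have hE0 : ∀ k ω, 0 ≤ E' k ω := by
    intro k X; rw [hE']; dsimp only; split_ifs <;> norm_num
  have hcard : ∀ k : (Fin m → Fin n) × Finset (Fin m),
      (k.2.image (vr s k.1)).card = k.2.card := fun k =>
    Finset.card_image_of_injective _ (vr_inj s k.1)
  -- step 1
  have hstep1 : Ex (vp (y / 2)) (fun X : (Fin m × (Fin r → Fin n)) → Bool =>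
      ψ X * nch s out X) ≤
      Ex (vp (y / 2)) (fun X => ψ X * ∑ k, e k X) := by
    apply Ex_mono (vp_nonneg (by linarith) (by linarith))
    intro X
    apply mul_le_mul_of_nonneg_left _ (hψ0 X)
    unfold nch
    rw [Fintype.sum_prod_type]
    refine Finset.sum_le_sum fun a _ => ?_
    by_cases hs : out X ≠ out (plant (vr s a) univ X)
    · rw [if_pos hs]
      obtain ⟨H, f, hf, hm⟩ := cover X a hs
      refine le_trans ?_ (Finset.single_le_sum (fun H _ => he0 (a, H) X) (Finset.mem_univ H))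
      rw [he]
      dsimp only
      rw [if_pos ⟨f, hf, hm⟩]
    · rw [if_neg hs]
      exact Finset.sum_nonneg fun H _ => he0 (a, H) X
  refine hstep1.trans ?_
  -- step 2
  have hstep2 := weighted_compare (I := Fin m × (Fin r → Fin n))
    (K := (Fin m → Fin n) × Finset (Fin m)) e E' (fun k => k.2.image (vr s k.1)) he0 hE0 (by
      intro k ω hω
      rw [he, hE']
      dsimp only
      by_cases h1 : ∃ f, 𝓕 k.2.card f ∧ mb (pz f (vr s k.1) (fun i => h3 (ω i))) k.2 ≠ 0
      · rw [if_pos h1, if_pos]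
        obtain ⟨f, hf, hm⟩ := h1
        have e1 := pz_cz f (vr s k.1) (vr_inj s k.1) k.2
          (fun i => (ω i).1) (fun i => (ω i).2.1) (fun i => (ω i).2.2) hω (pz_zero hm)
        refine ⟨?_, f, hf, ?_⟩
        · intro i hi
          obtain ⟨j, hj, rfl⟩ := Finset.mem_image.1 hi
          have h2 := pz_zero hm j hj
          obtain ⟨h4, h5⟩ := hω _ hi
          unfold h3 at h2
          rw [h4, h5] at h2
          simpa using h2
        · rw [← e1]
          exact hm
      · rw [if_neg h1]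
        split_ifs <;> norm_num) hy0 hy1 hq0 hq1 hcyq hc ψ hψ0
  refine hstep2.trans ?_
  -- step 3
  obtain ⟨Bd, hBd⟩ : ∃ Bd : ℝ, Bd =
      ∑ H ∈ univ.filter (fun H : Finset (Fin m) => 1 ≤ H.card ∧ H.card < 2 * L),
      c ^ H.card * ((Nk H.card * (H.card ^ H.card * n ^ (m - (touched s H).card)) : ℕ) : ℝ) :=
    ⟨_, rfl⟩
  obtain ⟨Big, hBig⟩ : ∃ Big : ℝ, Big = (n : ℝ) ^ m * (2 ^ m * c ^ (2 * L)) := ⟨_, rfl⟩
  rw [← hBd, ← hBig]
  have hBd0 : 0 ≤ Bd := by
    rw [hBd]
    exact Finset.sum_nonneg fun H _ => by positivity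
  have hBig0 : 0 ≤ Big := by rw [hBig]; positivity
  have hpt : ∀ ω : (Fin m × (Fin r → Fin n)) → Bool × (Option Bool × Bool),
      ψ (fun i => h3 (ω i)) * ∑ k : (Fin m → Fin n) × Finset (Fin m),
        c ^ (k.2.image (vr s k.1)).card * E' k ω ≤
      Bd * ψ (fun i => h3 (ω i)) +
        (B0 * Big) * (if ¬ Gd (fun i => (ω i).1) (fun i => (ω i).2.1) then (1 : ℝ) else 0) := by
    intro ω
    simp only [hcard]
    have hψω := hψ0 (fun i => h3 (ω i))
    by_cases hG : Gd (fun i => (ω i).1) (fun i => (ω i).2.1)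
    · simp only [hG, not_true, if_false, mul_zero, add_zero]
      rw [mul_comm Bd]
      apply mul_le_mul_of_nonneg_left _ hψω
      rw [hBd, Fintype.sum_prod_type_right, Finset.sum_filter]
      refine Finset.sum_le_sum fun H _ => ?_
      by_cases hH : 1 ≤ H.card ∧ H.card < 2 * L
      · rw [if_pos hH]
        dsimp only
        rw [← Finset.mul_sum]
        apply mul_le_mul_of_nonneg_left _ (by positivity)
        obtain ⟨Fam, hF1, hF2⟩ := hfam _ _ hG (fun i => (ω i).2.2) H.card hH.1 hH.2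
        have h1 : ∀ a ∈ (univ : Finset (Fin m → Fin n)), E' (a, H) ω ≤
            (if H.image (vr s a) ∈ Fam then (1 : ℝ) else 0) := by
          intro a _
          rw [hE']
          dsimp only
          by_cases h2 : (∀ i ∈ H.image (vr s a), (ω i).2.2 = false) ∧
            ∃ f, 𝓕 H.card f ∧ cz (rv (fun x => f (mask (fun i => (ω i).1) x))
            (fun i => (ω i).2.1)) (fun i => (ω i).2.2) (H.image (vr s a)) ≠ 0
          · obtain ⟨hD, f, hf, hne⟩ := h2
            have h3 : H.image (vr s a) ∈ Fam := hF2 f _ hf (hcard (a, H)) hD hne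
            rw [if_pos h3]
            split_ifs <;> norm_num
          · rw [if_neg h2]
            split_ifs <;> norm_num
        refine (Finset.sum_le_sum h1).trans ?_
        rw [Finset.sum_boole]
        exact_mod_cast count_fam s H _ Fam hF1
      · rw [if_neg hH]
        apply le_of_eq
        refine Finset.sum_eq_zero fun a _ => ?_
        rw [hE']
        dsimp only
        rw [if_neg, mul_zero]
        rintro ⟨_, f, hf, _⟩
        exact hH (hsize _ _ hf)
    · simp only [hG, not_false_iff, if_true, mul_one]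
      have h1 : ∀ k : (Fin m → Fin n) × Finset (Fin m), c ^ k.2.card * E' k ω ≤ c ^ (2 * L) := by
        intro k
        rw [hE']
        dsimp only
        split_ifs with hk
        · obtain ⟨_, f, hf, _⟩ := hk
          rw [mul_one]
          exact pow_le_pow_right₀ hc (hsize _ _ hf).2.le
        · rw [mul_zero]; positivity
      have h2 := Finset.sum_le_card_nsmul univ _ _ (fun k _ => h1 k)
      rw [nsmul_eq_mul, Finset.card_univ, Fintype.card_prod, Fintype.card_fun, Fintype.card_fin,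
        Fintype.card_fin, Fintype.card_finset, Fintype.card_fin] at h2
      push_cast at h2
      have h4 : (n : ℝ) ^ m * 2 ^ m * c ^ (2 * L) = Big := by rw [hBig]; ring
      rw [h4] at h2
      have h5 : ψ (fun i => h3 (ω i)) * ∑ k : (Fin m → Fin n) × Finset (Fin m),
          c ^ k.2.card * E' k ω ≤ B0 * Big :=
        (mul_le_mul_of_nonneg_left h2 hψω).trans (mul_le_mul_of_nonneg_right (hψ1 _) hBig0)
      have h6 : 0 ≤ Bd * ψ (fun i => h3 (ω i)) := mul_nonneg hBd0 hψω
      linarith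
  refine (Ex_mono (w3_nonneg hy0.le hy1 hq0.le hq1) hpt).trans ?_
  rw [Ex_add, Ex_smul (w3 y q) (B0 * Big), Ex_smul (w3 y q) Bd]
  have hpush : Ex (w3 y q) (fun ω : (Fin m × (Fin r → Fin n)) → Bool × (Option Bool × Bool) =>
      ψ (fun i => h3 (ω i))) = Ex (vp (y / 2)) ψ :=
    Ex_push (I := Fin m × (Fin r → Fin n)) h3 (w3 y q) (vp (y / 2)) (fun b => h3_push b) ψ
  rw [hpush]
  have hfail : Ex (w3 y q) (fun ω : (Fin m × (Fin r → Fin n)) → Bool × (Option Bool × Bool) =>
      (if ¬ Gd (fun i => (ω i).1) (fun i => (ω i).2.1) then (1 : ℝ) else 0)) ≤ ε := by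
    have e1 : Ex (w3 y q) (fun ω : (Fin m × (Fin r → Fin n)) → Bool × (Option Bool × Bool) =>
      (if ¬ Gd (fun i => (ω i).1) (fun i => (ω i).2.1) then (1 : ℝ) else 0)) =
        Ex (vp y) (fun Y => Ex (fun e : Option Bool × Bool => wq q e.1 * vp (1 / 2) e.2)
          (fun ω => (if ¬ Gd Y (fun i => (ω i).1) then (1 : ℝ) else 0))) :=
      Ex_prod (I := Fin m × (Fin r → Fin n)) (vp y)
        (fun e : Option Bool × Bool => wq q e.1 * vp (1 / 2) e.2) _
    rw [e1]
    have e2 : ∀ Y : (Fin m × (Fin r → Fin n)) → Bool,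
        Ex (fun e : Option Bool × Bool => wq q e.1 * vp (1 / 2) e.2)
          (fun ω : (Fin m × (Fin r → Fin n)) → Option Bool × Bool =>
            (if ¬ Gd Y (fun i => (ω i).1) then (1 : ℝ) else 0)) ≤ ε := by
      intro Y
      refine (Ex_prod (I := Fin m × (Fin r → Fin n)) (wq q) (vp (1 / 2)) _).le.trans ?_
      have e3 : ∀ ρ : Restr (Fin m × (Fin r → Fin n)), Ex (vp (1 / 2))
          (fun _ : (Fin m × (Fin r → Fin n)) → Bool =>
            (if ¬ Gd Y ρ then (1 : ℝ) else 0)) =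
            (if ¬ Gd Y ρ then (1 : ℝ) else 0) :=
        fun ρ => Ex_const (vp_sum (1 / 2)) _
      refine le_trans (le_of_eq ?_) (hε Y)
      congr 1
      funext ρ
      exact e3 ρ
    refine (Ex_mono (vp_nonneg hy0.le hy1) e2).trans ?_
    exact (Ex_const (I := Fin m × (Fin r → Fin n)) (vp_sum y) _).le
  have h5 := mul_le_mul_of_nonneg_left hfail (mul_nonneg hB00 hBig0)
  linarith

end Wt

end Pool.Agent.W964.Pram
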