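import Mathlib
import Pool.Agent.W964.Pram.Ip.Weight
import Pool.Agent.W964.Pram.Ip.Fam2
import Pool.Agent.W964.Pram.First

/-!
The moments of the number of planted instances on which the content of the output cell of a
parallel machine changes.
-/

set_option linter.unusedSectionVars false

namespace Pool.Agent.W964.Pram

open Finset H568R2 H592R3

section Mo
variable {m n r : ℕ} {J : Type} {P : ℕ}

/-- The content of the output cell after `T` steps. -/
noncomputable def Machine.res (M : Machine J P) (T : ℕ) (x : J → Bool) : M.V :=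
  (M.run x T).2 M.out

/-- The functions to be controlled, by the size of the set. -/
def Fv (M : Machine J P) (σ : ((Fin m × (Fin r → Fin n)) → Bool) → (J → Bool)) (Kl T L k : ℕ)
    (f : ((Fin m × (Fin r → Fin n)) → Bool) → ℤ) : Prop :=
  (L ≤ k ∧ k < 2 * L ∧ Fns M σ Kl T f) ∨
    (1 ≤ k ∧ k < L ∧ ∃ g : M.V → ℤ, f = fun x => g (M.res T (σ x)))

lemma res_cover (M : Machine J P) (σ : ((Fin m × (Fin r → Fin n)) → Bool) → (J → Bool))
    (hσ : ∀ j, Junta 1 (fun x => σ x j)) {Kl T L : ℕ} (hK : ∀ q, (M.query q).length ≤ Kl)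
    (hL : 2 ≤ L) (s : Fin m → Fin r → Fin m) (X : (Fin m × (Fin r → Fin n)) → Bool)
    (a : Fin m → Fin n)
    (hne : M.res T (σ X) ≠ M.res T (σ (plant (vr s a) univ X))) :
    ∃ (H : Finset (Fin m)) (f : ((Fin m × (Fin r → Fin n)) → Bool) → ℤ),
        Fv M σ Kl T L H.card f ∧ mb (pz f (vr s a) X) H ≠ 0 := by
  classical
  by_contra hcon
  push Not at hcon
  have hlow := machine_low M hK (fun W : Finset (Fin m) => σ (plant (vr s a) W X))
    (fun j => lowV_one (hσ j) (vr_inj s a) X) hL (T := T)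
    (fun t ht p g H h1 h2 => by
      have := hcon H (fun x => g (M.Rd Kl t p (σ x)))
        (Or.inl ⟨h1, h2, t, ht, Or.inl ⟨p, g, rfl⟩⟩)
      exact this)
    (fun t ht c g H h1 h2 => by
      have := hcon H (fun x => g (M.Wr t c (σ x)))
        (Or.inl ⟨h1, h2, t, ht, Or.inr ⟨c, g, rfl⟩⟩)
      exact this) T le_rfl
  obtain ⟨g, hg⟩ : ∃ g : M.V → ℤ, g = fun v => if v = M.res T (σ X) then 1 else 0 := ⟨_, rfl⟩
  obtain ⟨f, hf⟩ : ∃ f : ((Fin m × (Fin r → Fin n)) → Bool) → ℤ,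
    f = fun x => g (M.res T (σ x)) := ⟨_, rfl⟩
  have h1' : Low (L - 1) (pz f (vr s a) X) := by
    rw [hf]
    exact (hlow.2 M.out) g
  have h4 : plant (vr s a) (∅ : Finset (Fin m)) X = X := by
    funext i
    unfold plant
    simp
  obtain ⟨A, _, hA, hm⟩ := mb_nonconst univ (pz f (vr s a) X) (by
    unfold pz
    rw [h4, hf, hg]
    show (if M.res T (σ (plant (vr s a) univ X)) = M.res T (σ X) then (1 : ℤ) else 0) ≠
      (if M.res T (σ X) = M.res T (σ X) then (1 : ℤ) else 0)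
    rw [if_pos rfl, if_neg (Ne.symm hne)]
    norm_num)
  have hAL : A.card < L := by
    by_contra h5
    exact hm (h1' A (by omega))
  exact hm (hcon A f (Or.inr ⟨Finset.card_pos.2 hA, hAL, g, hf⟩))

/-- The bound of the first moment. -/
noncomputable def Bdd (T P Wm L m n u : ℕ) (c Bs : ℝ) : ℝ :=
  2 ^ m * (c ^ (2 * L) * ((T * P : ℝ) * ((2 * L + 1) * ((2 * (Wm : ℝ)) ^ (2 * L) *
    (2 * (Wm : ℝ)) ^ (2 * L))) * ((2 * L) ^ (2 * L) * (n : ℝ) ^ u))) + Bs

open Classical in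
/-- The weighted first moment for a parallel machine. -/
theorem res_weighted (s : Fin m → Fin r → Fin m)
    (M : Machine J P) (σ : ((Fin m × (Fin r → Fin n)) → Bool) → (J → Bool))
    (hσ : ∀ j, Junta 1 (fun x => σ x j)) {Kl h l T Wm L u : ℕ} (hh : 1 ≤ h)
    (hK : ∀ q, (M.query q).length ≤ Kl) (hm1 : Kl + 2 ≤ 2 ^ l) (hm2 : P + 3 ≤ 2 ^ l)
    (hWm : h + (h * l + (h + T * (h * l))) ≤ Wm) (hL : 2 ≤ L) (hn : 1 ≤ n)
    (hexp : ∀ H : Finset (Fin m), L ≤ H.card → m - (touched s H).card ≤ u)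
    {q₀ y q c : ℝ} (hq₀ : 0 < q₀) (hq₀' : q₀ ≤ 1 / 3) (hq : q = (q₀ ^ 3) ^ T)
    (hy0 : 0 < y) (hy1 : y ≤ 1) (hcyq : 2 ≤ c * (y * q)) (hc : 1 ≤ c) {Bs : ℝ}
    (hBs : ∑ H ∈ univ.filter (fun H : Finset (Fin m) => 1 ≤ H.card ∧ H.card < L),
      c ^ H.card * (((2 * Wm) ^ H.card *
        (H.card ^ H.card * n ^ (m - (touched s H).card)) : ℕ) : ℝ) ≤ Bs)
    (ψ : ((Fin m × (Fin r → Fin n)) → Bool) → ℝ) (hψ0 : ∀ X, 0 ≤ ψ X) {B0 : ℝ}
    (hψ1 : ∀ X, ψ X ≤ B0) :
    Ex (vp (y / 2)) (fun X : (Fin m × (Fin r → Fin n)) → Bool =>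
      ψ X * nch s (fun X => M.res T (σ X)) X) ≤
    Bdd T P Wm L m n u c Bs * Ex (vp (y / 2)) ψ +
      B0 * ((n : ℝ) ^ m * (2 ^ m * c ^ (2 * L))) *
      (T * (((P * 2 ^ h * (Kl + P + 3) : ℕ) : ℝ) * (12 * (Wm : ℝ) * q₀) ^ (h + 1))) := by
  have hc0 : 0 ≤ c := by linarith
  have hq0 : 0 < q := by rw [hq]; positivity
  have hq1 : q ≤ 1 := by
    rw [hq]
    exact pow_le_one₀ (by positivity) (pow_le_one₀ hq₀.le (by linarith))
  obtain ⟨Nk, hNk⟩ : ∃ Nk : ℕ → ℕ, Nk = fun k => if k < L then (2 * Wm) ^ k else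
    (T * P) * ((k + 2) * ((2 * Wm) ^ k * (2 * Wm) ^ k)) := ⟨_, rfl⟩
  have hWm1 : 1 ≤ Wm := by omega
  have h1 := first_weighted s (fun X => M.res T (σ X)) (Fv M σ Kl T L) L (by
      rintro k f (⟨h1, h2, _⟩ | ⟨h1, h2, _⟩)
      · omega
      · omega)
    (fun X a hne => res_cover M σ hσ hK hL s X a hne)
    (fun Y ρ => Good M (fun x => σ (mask Y x)) Kl h l T ρ) Nk (by
      intro Y ρ hG D k hk1 hk2
      by_cases hkL : k < L
      · obtain ⟨Fam, hF1, hF2⟩ := (hG.mem M.out).fam D k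
        refine ⟨Fam, ?_, ?_⟩
        · rw [hNk]
          simp only [hkL, if_true]
          refine hF1.trans (Nat.pow_le_pow_left ?_ k)
          omega
        · rintro f V (⟨h3, _, _⟩ | ⟨_, _, g, rfl⟩) hV _ hne
          · omega
          · exact hF2 g V hV hne
      · obtain ⟨Fam, hF1, hF2⟩ := machine_fam2 M (fun x => σ (mask Y x))
          (fun j => mask_junta (hσ j) Y) hK hG hWm hWm1 D k (by omega)
        refine ⟨Fam, ?_, ?_⟩
        · rw [hNk]
          simp only [hkL, if_false]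
          exact hF1
        · rintro f V (⟨_, _, t, ht, h3⟩ | ⟨_, h4, _⟩) hV hD hne
          · refine hF2 (fun x => f (mask Y x)) V ⟨t, ht, ?_⟩ hV hD hne
            rcases h3 with ⟨p, g, rfl⟩ | ⟨c, g, rfl⟩
            · exact Or.inl ⟨p, g, rfl⟩
            · exact Or.inr ⟨c, g, rfl⟩
          · omega) hy0 hy1 hq0 hq1 hcyq hc
    (ε := T * (((P * 2 ^ h * (Kl + P + 3) : ℕ) : ℝ) * (12 * (Wm : ℝ) * q₀) ^ (h + 1))) (by
      intro Y
      have := machine_collapse M (fun x => σ (mask Y x)) (fun j => mask_junta (hσ j) Y) hh hK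
        hm1 hm2 hq₀.le hq₀' hWm T le_rfl
      rw [← hq] at this
      exact this) ψ hψ0 hψ1
  refine h1.trans ?_
  apply add_le_add_left
  have hψE : 0 ≤ Ex (vp (y / 2)) ψ := by
    unfold Ex
    exact Finset.sum_nonneg fun X _ => mul_nonneg
      (Finset.prod_nonneg fun i _ => vp_nonneg (by linarith) (by linarith) _) (hψ0 X)
  apply mul_le_mul_of_nonneg_right _ hψE
  unfold Bdd
  -- the two parts of the sum
  rw [← Finset.sum_filter_add_sum_filter_not (univ.filter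
    (fun H : Finset (Fin m) => 1 ≤ H.card ∧ H.card < 2 * L)) (fun H => H.card < L), add_comm]
  apply add_le_add
  · have h2 : ∀ H ∈ (univ.filter (fun H : Finset (Fin m) => 1 ≤ H.card ∧ H.card < 2 * L)).filter
        (fun H => ¬ H.card < L), c ^ H.card * ((Nk H.card * (H.card ^ H.card *
          n ^ (m - (touched s H).card)) : ℕ) : ℝ) ≤
          c ^ (2 * L) * ((T * P : ℝ) * ((2 * L + 1) * ((2 * (Wm : ℝ)) ^ (2 * L) *
            (2 * (Wm : ℝ)) ^ (2 * L))) * ((2 * L) ^ (2 * L) * (n : ℝ) ^ u)) := by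
      intro H hH
      rw [Finset.mem_filter, Finset.mem_filter] at hH
      obtain ⟨⟨_, h3, h4⟩, h5⟩ := hH
      have h6 := hexp H (by omega)
      rw [hNk]
      simp only [h5, if_false]
      have h7 : (((T * P) * ((H.card + 2) * ((2 * Wm) ^ H.card * (2 * Wm) ^ H.card)) *
          (H.card ^ H.card * n ^ (m - (touched s H).card)) : ℕ) : ℝ) ≤
          ((T * P) * ((2 * L + 1) * ((2 * Wm) ^ (2 * L) * (2 * Wm) ^ (2 * L))) *
            ((2 * L) ^ (2 * L) * n ^ u) : ℕ) := by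
        have h8 : (2 * Wm) ^ H.card ≤ (2 * Wm) ^ (2 * L) :=
          Nat.pow_le_pow_right (by omega) (by omega)
        have h9 : H.card ^ H.card ≤ (2 * L) ^ (2 * L) :=
          (Nat.pow_le_pow_left (by omega) _).trans (Nat.pow_le_pow_right (by omega) (by omega))
        have h10 : n ^ (m - (touched s H).card) ≤ n ^ u := Nat.pow_le_pow_right hn h6
        exact_mod_cast Nat.mul_le_mul (Nat.mul_le_mul_left _ (Nat.mul_le_mul (by omega)
          (Nat.mul_le_mul h8 h8))) (Nat.mul_le_mul h9 h10)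
      refine (mul_le_mul (pow_le_pow_right₀ hc (by omega : H.card ≤ 2 * L)) h7 (by positivity)
        (by positivity)).trans (le_of_eq ?_)
      push_cast
      ring
    refine (Finset.sum_le_card_nsmul _ _ _ h2).trans ?_
    rw [nsmul_eq_mul]
    apply mul_le_mul_of_nonneg_right _ (by positivity)
    have h3 : ((univ.filter (fun H : Finset (Fin m) => 1 ≤ H.card ∧ H.card < 2 * L)).filter
        (fun H => ¬ H.card < L)).card ≤ 2 ^ m := by
      refine (Finset.card_le_univ _).trans ?_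
      rw [Fintype.card_finset, Fintype.card_fin]
    exact_mod_cast h3
  · refine le_trans (le_of_eq ?_) hBs
    rw [Finset.filter_filter]
    have h2 : (univ.filter (fun H : Finset (Fin m) => (1 ≤ H.card ∧ H.card < 2 * L) ∧
        H.card < L)) = univ.filter (fun H : Finset (Fin m) => 1 ≤ H.card ∧ H.card < L) := by
      ext H
      simp only [Finset.mem_filter, Finset.mem_univ, true_and]
      omega
    rw [h2]
    refine Finset.sum_congr rfl fun H hH => ?_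
    rw [Finset.mem_filter] at hH
    rw [hNk]
    simp only [hH.2.2, if_true]

open Classical in
/-- The moments for a parallel machine. -/
theorem res_moment (s : Fin m → Fin r → Fin m)
    (M : Machine J P) (σ : ((Fin m × (Fin r → Fin n)) → Bool) → (J → Bool))
    (hσ : ∀ j, Junta 1 (fun x => σ x j)) {Kl h l T Wm L u : ℕ} (hh : 1 ≤ h)
    (hK : ∀ q, (M.query q).length ≤ Kl) (hm1 : Kl + 2 ≤ 2 ^ l) (hm2 : P + 3 ≤ 2 ^ l)
    (hWm : h + (h * l + (h + T * (h * l))) ≤ Wm) (hL : 2 ≤ L) (hn : 1 ≤ n)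
    (hexp : ∀ H : Finset (Fin m), L ≤ H.card → m - (touched s H).card ≤ u)
    {q₀ y q c : ℝ} (hq₀ : 0 < q₀) (hq₀' : q₀ ≤ 1 / 3) (hq : q = (q₀ ^ 3) ^ T)
    (hy0 : 0 < y) (hy1 : y ≤ 1) (hcyq : 2 ≤ c * (y * q)) (hc : 1 ≤ c) {Bs : ℝ}
    (hBs : ∑ H ∈ univ.filter (fun H : Finset (Fin m) => 1 ≤ H.card ∧ H.card < L),
      c ^ H.card * (((2 * Wm) ^ H.card *
        (H.card ^ H.card * n ^ (m - (touched s H).card)) : ℕ) : ℝ) ≤ Bs)
    (hBN : Bdd T P Wm L m n u c Bs ≤ (n : ℝ) ^ m) (t : ℕ) :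
    Ex (vp (y / 2)) (fun X : (Fin m × (Fin r → Fin n)) → Bool =>
      nch s (fun X => M.res T (σ X)) X ^ t) ≤
    Bdd T P Wm L m n u c Bs ^ t + t * ((n : ℝ) ^ m) ^ t * (2 ^ m * c ^ (2 * L)) *
      (T * (((P * 2 ^ h * (Kl + P + 3) : ℕ) : ℝ) * (12 * (Wm : ℝ) * q₀) ^ (h + 1))) := by
  have hc0 : 0 ≤ c := by linarith
  obtain ⟨ε, hε⟩ : ∃ ε : ℝ, ε = T * (((P * 2 ^ h * (Kl + P + 3) : ℕ) : ℝ) *
    (12 * (Wm : ℝ) * q₀) ^ (h + 1)) := ⟨_, rfl⟩
  have hε0 : 0 ≤ ε := by rw [hε]; positivity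
  obtain ⟨R, hR⟩ : ∃ R : ℝ, R = 2 ^ m * c ^ (2 * L) := ⟨_, rfl⟩
  have hR0 : 0 ≤ R := by rw [hR]; positivity
  have hBs0 : 0 ≤ Bs := le_trans (Finset.sum_nonneg fun H _ => by positivity) hBs
  have hBd0 : 0 ≤ Bdd T P Wm L m n u c Bs := by unfold Bdd; positivity
  induction t with
  | zero =>
    simp only [pow_zero, Nat.cast_zero, zero_mul, add_zero]
    exact (Ex_const (I := Fin m × (Fin r → Fin n)) (vp_sum (y / 2)) (1 : ℝ)).le
  | succ t ih =>
    have h1 := res_weighted s M σ hσ hh hK hm1 hm2 hWm hL hn hexp hq₀ hq₀' hq hy0 hy1 hcyq hc hBs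
      (fun X => nch s (fun X => M.res T (σ X)) X ^ t)
      (fun X => pow_nonneg (nch_nonneg s _ X) t)
      (B0 := ((n : ℝ) ^ m) ^ t) (fun X => pow_le_pow_left₀ (nch_nonneg s _ X)
        (nch_le s _ X) t)
    rw [← hε, ← hR] at ih h1 ⊢
    obtain ⟨Bd, hBd⟩ : ∃ Bd : ℝ, Bd = Bdd T P Wm L m n u c Bs := ⟨_, rfl⟩
    rw [← hBd] at ih h1 hBN hBd0 ⊢
    have h2 : Ex (vp (y / 2)) (fun X => nch s (fun X => M.res T (σ X)) X ^ (t + 1)) ≤
        Bd * Ex (vp (y / 2)) (fun X => nch s (fun X => M.res T (σ X)) X ^ t) +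
        ((n : ℝ) ^ m) ^ t * ((n : ℝ) ^ m * R) * ε := by
      simp only [pow_succ]
      exact h1
    obtain ⟨NN, hNN⟩ : ∃ NN : ℝ, NN = (n : ℝ) ^ m := ⟨_, rfl⟩
    rw [← hNN] at ih h2 hBN ⊢
    have hNN0 : 0 ≤ NN := by rw [hNN]; positivity
    have h3 : Bd * Ex (vp (y / 2)) (fun X => nch s (fun X => M.res T (σ X)) X ^ t) ≤
        Bd * (Bd ^ t + t * NN ^ t * R * ε) := mul_le_mul_of_nonneg_left ih hBd0
    have h4 : Bd * (t * NN ^ t * R * ε) ≤ NN * (t * NN ^ t * R * ε) :=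
      mul_le_mul_of_nonneg_right hBN (by positivity)
    push_cast
    have e1 : Bd * (Bd ^ t + t * NN ^ t * R * ε) = Bd ^ (t + 1) + Bd * (t * NN ^ t * R * ε) := by
      ring
    have e2 : ((t : ℝ) + 1) * NN ^ (t + 1) * R * ε =
        NN * (t * NN ^ t * R * ε) + NN ^ t * (NN * R) * ε := by ring
    linarith

end Mo

end Pool.Agent.W964.Pram
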