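import Mathlib
import Pool.Agent.H592R3.Param4

/-!
The choice of the parameters for the moments.
-/

namespace Pool.Agent.W964.Pram

open H592R3

theorem params7 (ε : ℝ) (hε : 0 < ε) : ∃ Q : ℕ, 6 ≤ Q ∧ Even Q ∧ 7 ≤ ε * Q ∧ ∃ C : ℝ, 0 < C ∧
    ∀ n d g w : ℕ, 2 ≤ n → 1 ≤ d → C * (d * Real.log (n + g)) ≤ w → w ≤ n →
    ∃ b m' k : ℕ, 1 ≤ b ∧ 2 ≤ m' ∧
      2 * (12 * (2 * (d * (E1 Q * m' + k)))) ^ 16 ≤ 2 ^ b ∧
      2 ^ (2 * Q + 16) * b ^ 4 ≤ 2 ^ b ∧
      4 * Q + 8 ≤ d * b ∧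
      2 * (g + 2) ≤ d * b * k ∧
      (2 * Q ^ 2 + 14 + 1) * (2 * d * b) + 1 ≤ w ∧ Q * m' * (2 * d * b + 1) ≤ n ∧
      (1 - ε) * n ≤ (((2 * Q - 12) * (d * b * m') : ℕ) : ℝ) ∧
      w ≤ 8 * (2 * Q ^ 2 + 14 + 1) * (d * b) ∧ 1 ≤ k := by
  obtain ⟨Q, hQ6, hQev, hQε, c, hc4, hcQ, hc288, hcE, hpow⟩ := consts2 ε hε
  obtain ⟨E, hE⟩ : ∃ E, E = E1 Q := ⟨_, rfl⟩
  rw [← hE] at hcE hpow
  obtain ⟨B, hB⟩ : ∃ B, B = 2 * Q ^ 2 + 14 + 1 := ⟨_, rfl⟩
  have hE1 : 1 ≤ E := by rw [hE]; unfold E1; omega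
  have hlog2 : 0 < Real.log 2 := Real.log_pos (by norm_num)
  have hER : (1 : ℝ) ≤ E := by exact_mod_cast hE1
  have hQR : (6 : ℝ) ≤ Q := by exact_mod_cast hQ6
  have hB1 : 1 ≤ B := by omega
  have hBR : (1 : ℝ) ≤ B := by exact_mod_cast hB1
  have hc00 : 0 ≤ c := by linarith only [hc4]
  have hc1 : 0 < 1 + c / Real.log 2 := by positivity
  refine ⟨Q, hQ6, hQev, hQε, 24 * B * c * (1 + c / Real.log 2), by positivity, ?_⟩
  intro n d g w hn hd hw hwn
  have hnR2 : (2 : ℝ) ≤ n := by exact_mod_cast hn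
  have hnR : (1 : ℝ) ≤ n := by linarith only [hnR2]
  have hdR : (1 : ℝ) ≤ d := by exact_mod_cast hd
  have hg0 : (0 : ℝ) ≤ g := Nat.cast_nonneg g
  have hlogn : 0 ≤ Real.log n := Real.log_nonneg hnR
  have hwnR : (w : ℝ) ≤ n := by exact_mod_cast hwn
  obtain ⟨NN, hNN⟩ : ∃ NN : ℕ, NN = 4 * (n + g) := ⟨_, rfl⟩
  have hNNR : (NN : ℝ) = 4 * (n + g) := by rw [hNN]; push_cast; ring
  have hNN2 : 2 ≤ NN := by omega
  have hlogN : Real.log 2 ≤ Real.log NN := Real.log_le_log (by norm_num) (by exact_mod_cast hNN2)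
  have hlogN0 : 0 ≤ Real.log NN := by linarith only [hlogN, hlog2]
  have hdl : 0 ≤ (d : ℝ) * Real.log NN := by positivity
  have hc0 : 0 ≤ c := hc00
  have hl2' : Real.log 2 ≤ Real.log n := Real.log_le_log (by norm_num) hnR2
  have hng0 : Real.log 2 ≤ Real.log (n + g) :=
    Real.log_le_log (by norm_num) (by linarith only [hnR2, hg0])
  have hlog3 : Real.log NN ≤ 3 * Real.log (n + g) := by
    rw [hNNR, Real.log_mul (by norm_num) (by linarith only [hnR2, hg0])]
    have : Real.log 4 = 2 * Real.log 2 := by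
      rw [show (4 : ℝ) = 2 ^ 2 by norm_num, Real.log_pow]; norm_num
    linarith only [this, hng0]
  have hCC : 24 * B * c ≤ 24 * B * c * (1 + c / Real.log 2) := by
    have h1 : (24 * B * c) * 1 ≤ 24 * B * c * (1 + c / Real.log 2) := by
      apply mul_le_mul_of_nonneg_left _ (by positivity)
      have : 0 ≤ c / Real.log 2 := by positivity
      linarith only [this]
    linarith only [h1]
  have hdl3 : 0 ≤ (d : ℝ) * Real.log (n + g) := by
    have : 0 ≤ Real.log (n + g) := by linarith only [hng0, hlog2]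
    positivity
  have hw2 : 8 * B * c * (d * Real.log NN) ≤ w := by
    have h1 : 24 * B * c * (d * Real.log (n + g)) ≤ w := by
      refine le_trans ?_ hw
      exact mul_le_mul_of_nonneg_right hCC hdl3
    have h2 : (d : ℝ) * Real.log NN ≤ d * (3 * Real.log (n + g)) :=
      mul_le_mul_of_nonneg_left hlog3 (by linarith only [hdR])
    have h3 : 8 * B * c * (d * Real.log NN) ≤ 8 * B * c * (d * (3 * Real.log (n + g))) :=
      mul_le_mul_of_nonneg_left h2 (by positivity)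
    linarith only [h1, h3]
  -- `n` is large
  have hnc : c * c ≤ n := by
    have h1 : (d : ℝ) * Real.log (n + g) ≥ Real.log 2 := by
      have : (1 : ℝ) * Real.log (n + g) ≤ d * Real.log (n + g) :=
        mul_le_mul_of_nonneg_right hdR (by linarith only [hng0, hlog2])
      linarith only [this, hng0]
    have hcpos : 0 < c := by linarith only [hc4]
    have h3 : (c * c) ≤ 24 * B * c * (1 + c / Real.log 2) * Real.log 2 := by
      have e1 : 24 * B * c * (1 + c / Real.log 2) * Real.log 2 =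
          24 * B * c * Real.log 2 + 24 * B * (c * c) := by
        field_simp
      have e2 : 0 ≤ 24 * B * c * Real.log 2 := by positivity
      have e3 : 1 * (c * c) ≤ (24 * B) * (c * c) :=
        mul_le_mul_of_nonneg_right (by linarith only [hBR]) (by positivity)
      linarith only [e1, e2, e3]
    have h4 : 24 * B * c * (1 + c / Real.log 2) * Real.log 2 ≤
        24 * B * c * (1 + c / Real.log 2) * (d * Real.log (n + g)) :=
      mul_le_mul_of_nonneg_left h1 (by positivity)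
    linarith only [h3, h4, hw, hwnR]
  have hn4Q : 4 * (Q : ℝ) * Q ≤ n := by
    have : (2 * (Q : ℝ)) * (2 * Q) ≤ c * c := mul_le_mul hcQ hcQ (by positivity) hc0
    linarith only [this, hnc]
  have hn2 : 2 ≤ n := hn
  have hl2 : Real.log 2 ≤ Real.log n := hl2'
  -- the parameter `b`
  obtain ⟨b, hb⟩ : ∃ b, b = w / (4 * d * B) := ⟨_, rfl⟩
  have hdB : 0 < 4 * d * B := by positivity
  have hb1 : b * (4 * d * B) ≤ w := by rw [hb]; exact Nat.div_mul_le_self _ _
  have hb2 : w < (b + 1) * (4 * d * B) := by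
    rw [hb]
    exact Nat.lt_mul_of_div_lt (Nat.lt_succ_self _) hdB
  have hb1R : (b : ℝ) * (4 * d * B) ≤ w := by exact_mod_cast hb1
  have hb2R : (w : ℝ) < (b + 1) * (4 * d * B) := by exact_mod_cast hb2
  have hba : 2 * c * Real.log NN < b + 1 := by
    have h1 : (2 * c * Real.log NN) * (4 * d * B) < (b + 1) * (4 * d * B) := by
      have : (2 * c * Real.log NN) * (4 * d * B) = 8 * B * c * (d * Real.log NN) := by ring
      linarith only [this, hw2, hb2R]
    exact lt_of_mul_lt_mul_right h1 (by positivity)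
  have hcl : 600 * (Q : ℝ) + 96 + 32 * E ≤ c * Real.log NN :=
    hcE.trans (mul_le_mul_of_nonneg_left hlogN hc0)
  have hbt : (b : ℝ) + 1 ≤ 2 * b := by
    linarith only [hcl, hQR, hER, hba]
  have hbl : c * Real.log NN ≤ b := by linarith only [hcl, hQR, hER, hba]
  have hbR' : 600 * (Q : ℝ) + 96 + 32 * E ≤ b := by linarith only [hcl, hbl]
  have hb1' : 600 * Q + 96 + 32 * E ≤ b := by
    have : ((600 * Q + 96 + 32 * E : ℕ) : ℝ) ≤ b := by push_cast; exact hbR'
    exact_mod_cast this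
  have hbpos : 1 ≤ b := by omega
  have hbR : (1 : ℝ) ≤ b := by exact_mod_cast hbpos
  have hdb0 : 0 < d * b := Nat.mul_pos (by omega) (by omega)
  have hdb1 : (1 : ℝ) ≤ d * b := one_le_mul_of_one_le_of_one_le hdR hbR
  -- the parameter `m'`
  obtain ⟨ℓ, hℓ⟩ : ∃ ℓ, ℓ = 2 * d * b + 1 := ⟨_, rfl⟩
  obtain ⟨m', hm'⟩ : ∃ m', m' = n / (Q * ℓ) := ⟨_, rfl⟩
  have hQℓ : 0 < Q * ℓ := by rw [hℓ]; positivity
  have hm1 : m' * (Q * ℓ) ≤ n := by rw [hm']; exact Nat.div_mul_le_self _ _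
  have hm2 : n < (m' + 1) * (Q * ℓ) := by
    rw [hm']
    exact Nat.lt_mul_of_div_lt (Nat.lt_succ_self _) hQℓ
  have hm1R : (m' : ℝ) * (Q * ℓ) ≤ n := by exact_mod_cast hm1
  have hm2R : (n : ℝ) < (m' + 1) * (Q * ℓ) := by exact_mod_cast hm2
  have hℓR : (ℓ : ℝ) = 2 * d * b + 1 := by rw [hℓ]; push_cast; ring
  have hBQ : (2 : ℝ) * Q * Q ≤ B := by
    rw [hB]; push_cast
    have : (Q : ℝ) ^ 2 = Q * Q := by ring
    linarith only [this]
  have hq1 : (4 * (Q : ℝ)) * (Q * (2 * d * b)) ≤ n := by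
    have h1 : (4 * (Q : ℝ)) * (Q * (2 * d * b)) = (2 * Q * Q) * (4 * d * b) := by ring
    have h2 : (2 * (Q : ℝ) * Q) * (4 * d * b) ≤ B * (4 * d * b) :=
      mul_le_mul_of_nonneg_right hBQ (by positivity)
    have h3 : (B : ℝ) * (4 * d * b) = b * (4 * d * B) := by ring
    linarith only [h1, h2, h3, hb1R, hwnR]
  have hm'2 : 2 ≤ m' := by
    rw [hm', Nat.le_div_iff_mul_le hQℓ]
    have h1 : (2 : ℝ) * (Q * ℓ) ≤ n := by
      rw [hℓR]
      have h2 : 24 * ((Q : ℝ) * (2 * d * b)) ≤ 4 * (Q : ℝ) * (Q * (2 * d * b)) :=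
        mul_le_mul_of_nonneg_right (by linarith only [hQR]) (by positivity)
      have h3 : 24 * (Q : ℝ) ≤ 4 * Q * Q :=
        mul_le_mul_of_nonneg_right (by linarith only [hQR]) (by positivity)
      have h4 : (2 : ℝ) * (Q * (2 * d * b + 1)) = 2 * (Q * (2 * d * b)) + 2 * Q := by ring
      have h5 : (0 : ℝ) ≤ Q * (2 * d * b) := by positivity
      rw [h4]
      linarith only [h2, h3, h5, hq1, hn4Q, hQR]
    exact_mod_cast h1
  have hm'R : (2 : ℝ) ≤ m' := by exact_mod_cast hm'2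
  have hm'0 : (0 : ℝ) ≤ m' := by linarith only [hm'R]
  have hdtQ : (d : ℝ) * b ≤ Q * (2 * d * b + 1) := by
    have h1 : (1 : ℝ) * (d * b) ≤ Q * (2 * d * b + 1) :=
      mul_le_mul (by linarith only [hQR]) (by linarith only [hdb1]) (by positivity)
        (by positivity)
    linarith only [h1]
  have hmdb : (m' : ℝ) * (d * b) ≤ n := by
    refine le_trans ?_ hm1R
    apply mul_le_mul_of_nonneg_left _ hm'0
    rw [hℓR]
    exact hdtQ
  -- the parameter `k`
  obtain ⟨k, hk⟩ : ∃ k, k = 2 * (g + 2) / (d * b) + 1 := ⟨_, rfl⟩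
  have hkpos : 1 ≤ k := by rw [hk]; exact Nat.le_add_left 1 _
  have hk1 : (k - 1) * (d * b) ≤ 2 * (g + 2) := by
    rw [hk, Nat.add_sub_cancel]; exact Nat.div_mul_le_self _ _
  have hk2 : 2 * (g + 2) < k * (d * b) := by
    rw [hk]
    exact Nat.lt_mul_of_div_lt (Nat.lt_succ_self _) hdb0
  have hk1R : ((k : ℝ) - 1) * (d * b) ≤ 2 * (g + 2) := by
    have : (((k - 1 : ℕ) * (d * b) : ℕ) : ℝ) ≤ ((2 * (g + 2) : ℕ) : ℝ) := by exact_mod_cast hk1
    rw [Nat.cast_mul, Nat.cast_sub hkpos] at this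
    push_cast at this
    exact this
  -- `d k ≤ g + 2 + d`
  have hdk : (d : ℝ) * k ≤ g + 2 + d := by
    have h1 : (d : ℝ) * (k - 1) * b ≤ (g + 2) * b := by
      have h2 : (2 : ℝ) * (g + 2) ≤ b * (g + 2) :=
        mul_le_mul_of_nonneg_right (by linarith only [hbR', hQR, hER]) (by linarith only [hg0])
      linarith only [h2, hk1R]
    have h3 := le_of_mul_le_mul_right h1 (by linarith only [hbR])
    linarith only [h3]
  refine ⟨b, m', k, hbpos, hm'2, ?_, ?_, ?_, ?_, ?_, ?_, ?_, ?_, hkpos⟩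
  · -- condition (A)
    rw [← hE]
    refine le_trans ?_ (hpow NN b hNN2 hbl)
    apply Nat.mul_le_mul_left
    apply Nat.pow_le_pow_left
    apply Nat.mul_le_mul_left
    apply Nat.mul_le_mul_left
    have hdm : (d : ℝ) * m' ≤ n := by
      have h1 : (m' : ℝ) * (d * 1) ≤ m' * (d * b) := by
        apply mul_le_mul_of_nonneg_left _ hm'0
        exact mul_le_mul_of_nonneg_left hbR (by linarith only [hdR])
      linarith only [h1, hmdb]
    have hd1n : (d : ℝ) ≤ n := by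
      have h1 : (d : ℝ) * 1 ≤ d * m' :=
        mul_le_mul_of_nonneg_left (by linarith only [hm'R]) (by linarith only [hdR])
      linarith only [h1, hdm]
    have h3 : (d : ℝ) * (E * m' + k) ≤ (E + 1) * NN := by
      have h4 : (E : ℝ) * (d * m') ≤ E * n := mul_le_mul_of_nonneg_left hdm (by positivity)
      have h5 : (E : ℝ) * n ≤ E * NN := by
        apply mul_le_mul_of_nonneg_left _ (by positivity)
        rw [hNNR]
        linarith only [hg0, hnR]
      have h6 : (g : ℝ) + 2 + d ≤ NN := by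
        rw [hNNR]
        linarith only [hg0, hnR2, hd1n]
      linarith only [h4, h5, h6, hdk]
    exact_mod_cast h3
  · -- condition (B1)
    apply pow_aux
    omega
  · -- condition (B2)
    have hbd : (600 * (Q : ℝ) + 96) ≤ d * b := by
      have h1 : (1 : ℝ) * b ≤ d * b := mul_le_mul_of_nonneg_right hdR (by linarith only [hbR])
      linarith only [h1, hbR', hER]
    have hfin : 4 * (Q : ℝ) + 8 ≤ d * b := by
      linarith only [hbd, hQR]
    exact_mod_cast hfin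
  · calc 2 * (g + 2) ≤ k * (d * b) := hk2.le
      _ = d * b * k := mul_comm _ _
  · rw [← hB]
    have h1 : B * (2 * d * b) * 2 = b * (4 * d * B) := by ring
    have h2 : 1 ≤ B * (2 * d * b) := Nat.one_le_iff_ne_zero.2 (by positivity)
    omega
  · rw [← hℓ]
    calc Q * m' * ℓ = m' * (Q * ℓ) := by ring
      _ ≤ n := hm1
  · rw [hℓ] at hm2
    refine exponent ε hε Q n d b m' hQ6 hQε (by omega) hm2 ?_ hq1 hn4Q
    have h1 : 4 * (Q : ℝ) ≤ ℓ := by
      rw [hℓR]
      have h2 : (b : ℝ) ≤ 2 * d * b :=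
        le_mul_of_one_le_left (by linarith only [hbR]) (by linarith only [hdR])
      linarith only [hbR', h2, hER, hQR]
    have h2 := mul_le_mul_of_nonneg_right h1 (by positivity : (0 : ℝ) ≤ m' * Q)
    linarith only [h2, hm1R]
  · rw [← hB]
    have h1 : (b + 1) * (4 * d * B) ≤ (2 * b) * (4 * d * B) := Nat.mul_le_mul_right _ (by omega)
    calc w ≤ (b + 1) * (4 * d * B) := hb2.le
      _ ≤ (2 * b) * (4 * d * B) := h1
      _ = 8 * B * (d * b) := by ring

end Pool.Agent.W964.Pram
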