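import Mathlib
import Pool.Agent.W964.Pram.Ip.Moments
import Pool.Agent.W964.Pram.Ip.Arith2
import Pool.Agent.W964.Pram.Ip.Param7
import Pool.Agent.W964.Pram.Hard
import Pool.Agent.H592R3.Csp3

/-!
The moments of the number of planted instances on which the result of a parallel machine changes.
-/

set_option linter.unusedSectionVars false

namespace Pool.Agent.W964.Pram

open Finset H568R2 H592R3

open Classical in
/-- The moments for a parallel machine, with the parameters fixed. -/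
theorem mom_fixed (Q T b m' k : ℕ) (hQ : 6 ≤ Q) (hT : 1 ≤ T) (hm' : 2 ≤ m') (hk : 1 ≤ k)
    (hb : 1 ≤ b)
    (hA : 2 * (12 * (2 * (3 * T * (E1 Q * m' + k)))) ^ 16 ≤ 2 ^ b)
    (hB1 : 2 ^ (2 * Q + 16) * b ^ 4 ≤ 2 ^ b)
    (hB2 : 4 * Q + 8 ≤ 3 * T * b)
    (s : Fin (Q * m') → Fin (2 * Q ^ 2 + 14 + 1) → Fin (Q * m'))
    (hexp : ∀ H : Finset (Fin (Q * m')), m' ≤ H.card → Q * m' - (touched s H).card ≤ m')
    (hsm : ∀ H : Finset (Fin (Q * m')), 1 ≤ H.card → H.card < m' →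
        3 * H.card ≤ (touched s H).card)
    {J : Type} {P : ℕ} (M : Machine J P) {Kl : ℕ} (hK : ∀ q, (M.query q).length ≤ Kl)
    (hKl : Kl ≤ 2 ^ (2 * Q ^ 2 * (3 * T * b * m')))
    (hP : P ≤ 2 ^ ((2 * Q - 12) * (3 * T * b * m')))
    (σ : ((Fin (Q * m') × (Fin (2 * Q ^ 2 + 14 + 1) → Fin (2 ^ (2 * (3 * T) * b)))) → Bool) →
      (J → Bool))
    (hσ : ∀ j, Junta 1 (fun x => σ x j)) :
    Ex (vp ((1 / ((2 : ℝ) ^ (3 * T * b)) ^ 3) / 2)) (fun X : (Fin (Q * m') ×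
      (Fin (2 * Q ^ 2 + 14 + 1) → Fin (2 ^ (2 * (3 * T) * b)))) → Bool =>
        nch s (fun X => M.res T (σ X)) X ^ k) ≤
      (((2 : ℝ) ^ (2 * (3 * T) * b)) ^ (Q * m') * (4 / 2 ^ (3 * T * b))) ^ k := by
  obtain ⟨e, he⟩ : ∃ e, e = 3 * T * (E1 Q * m' + k) := ⟨_, rfl⟩
  obtain ⟨l, hl⟩ : ∃ l, l = 3 * T * b * (E0 Q * m') := ⟨_, rfl⟩
  obtain ⟨Wm, hW⟩ : ∃ Wm, Wm = 3 * T * (2 * e * (3 * T * b * (E0 Q * m'))) := ⟨_, rfl⟩
  obtain ⟨τ, hτ⟩ : ∃ τ : ℝ, τ = 2 ^ b := ⟨_, rfl⟩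
  obtain ⟨U, hU⟩ : ∃ U : ℝ, U = (2 : ℝ) ^ (3 * T * b) := ⟨_, rfl⟩
  rw [← he] at hA
  have hUτ : U = τ ^ (3 * T) := by rw [hU, hτ, ← pow_mul, mul_comm b]
  have ar : Ar2 Q T b m' k U τ e Wm := by
    refine ⟨hQ, hT, hm', hk, hb, hUτ, he, hτ, ?_, ?_, ?_, hW⟩
    · have : ((2 * (12 * (2 * e)) ^ 16 : ℕ) : ℝ) ≤ ((2 ^ b : ℕ) : ℝ) := by exact_mod_cast hA
      push_cast at this
      rw [hτ, show 24 * (e : ℝ) = 12 * (2 * e) by ring]
      exact this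
    · rw [hτ]
      exact_mod_cast hB1
    · rw [hU]
      exact pow_le_pow_right₀ (by norm_num) hB2
  have hU0 := ar.Upos
  have hU1 := ar.U1
  have hτ0 := ar.τpos
  have hE0 : 1 ≤ E0 Q := by unfold E0; omega
  have hl1 : 1 ≤ 3 * T * b * m' := Nat.one_le_iff_ne_zero.2 (by positivity)
  have hpw2 : ∀ k, U ^ k = (2 : ℝ) ^ (k * (3 * T * b)) := by
    intro k; rw [hU, ← pow_mul, mul_comm]
  have hPR : (P : ℝ) ≤ U ^ ((2 * Q - 12) * m') := by
    rw [hpw2]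
    have h1 : (P : ℝ) ≤ ((2 ^ ((2 * Q - 12) * (3 * T * b * m')) : ℕ) : ℝ) := by exact_mod_cast hP
    refine h1.trans (le_of_eq ?_)
    push_cast
    congr 1
    ring
  have hKR : (Kl : ℝ) ≤ U ^ (2 * Q ^ 2 * m') := by
    rw [hpw2]
    have h1 : (Kl : ℝ) ≤ ((2 ^ (2 * Q ^ 2 * (3 * T * b * m')) : ℕ) : ℝ) := by exact_mod_cast hKl
    refine h1.trans (le_of_eq ?_)
    push_cast
    congr 1
    ring
  have hl2 : ∀ k, k + 3 ≤ E0 Q → ∀ x, x ≤ 2 ^ (k * (3 * T * b * m')) → x + 3 ≤ 2 ^ l := by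
    intro k hk x hx
    have h1 : l = (3 * T * b * m') * E0 Q := by rw [hl]; ring
    have h2 : 2 ^ (k * (3 * T * b * m')) + 3 ≤ 2 ^ ((k + 2) * (3 * T * b * m')) := by
      rw [Nat.add_mul, pow_add]
      have h3 : 2 ^ 2 ≤ 2 ^ (2 * (3 * T * b * m')) := Nat.pow_le_pow_right (by norm_num) (by omega)
      have h4 : 1 ≤ 2 ^ (k * (3 * T * b * m')) := Nat.one_le_two_pow
      have h5 : 2 ^ (k * (3 * T * b * m')) * 2 ^ 2 ≤
          2 ^ (k * (3 * T * b * m')) * 2 ^ (2 * (3 * T * b * m')) := Nat.mul_le_mul_left _ h3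
      omega
    refine (Nat.add_le_add_right hx 3).trans (h2.trans ?_)
    apply Nat.pow_le_pow_right (by norm_num)
    rw [h1, mul_comm]
    exact Nat.mul_le_mul_left _ (by omega)
  have hm1 : Kl + 2 ≤ 2 ^ l := by
    have := hl2 (2 * Q ^ 2) (by unfold E0; omega) Kl hKl
    omega
  have hm2 : P + 3 ≤ 2 ^ l := by
    refine hl2 (2 * Q - 12) (by unfold E0; omega) P hP
  have hl2' : 2 ≤ l := by
    rw [hl]
    calc 2 ≤ 3 * T * b * 1 := by
          have : 1 ≤ T * b := Nat.one_le_iff_ne_zero.2 (by positivity)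
          have h2 : 3 * T * b * 1 = 3 * (T * b) := by ring
          omega
      _ ≤ 3 * T * b * (E0 Q * m') :=
          Nat.mul_le_mul_left _ (Nat.one_le_iff_ne_zero.2 (by positivity))
  have hWm : 2 * e + (2 * e * l + (2 * e + T * (2 * e * l))) ≤ Wm := by
    rw [hW, ← hl]
    have h1 : 2 * e * 2 ≤ 2 * e * l := Nat.mul_le_mul_left _ hl2'
    have h2 : 1 * (2 * e * l) ≤ T * (2 * e * l) := Nat.mul_le_mul_right _ hT
    have h3 : 3 * T * (2 * e * l) = 3 * (T * (2 * e * l)) := by ring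
    omega
  have hnU : ((2 ^ (2 * (3 * T) * b) : ℕ) : ℝ) = U ^ 2 := by
    rw [hU, ← pow_mul]; push_cast; congr 1; ring
  have hBs := Mb2.small_sum (h := Wm) (L := m') s hU1 hnU hsm ar.small
  have hq3 : 1 / U = ((1 / τ) ^ 3) ^ T := by
    rw [hUτ, ← pow_mul, one_div_pow]
  have hτ3 : 3 ≤ τ := by
    have := ar.τ2
    have : (3 : ℝ) ≤ 24 ^ 16 * 2 := by norm_num
    linarith
  obtain ⟨X, hX⟩ : ∃ X : ℝ, X = (U ^ 2) ^ (Q * m') := ⟨_, rfl⟩
  have hX0 : 0 < X := by rw [hX]; positivity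
  have hmed := ar.medium hPR
  have hBdd : Bdd T P Wm m' (Q * m') (2 ^ (2 * (3 * T) * b)) m' (2 * U ^ 4) (X / U) ≤
      X / U + X / U := by
    unfold Bdd
    rw [hnU]
    rw [← hX] at hmed
    exact add_le_add hmed le_rfl
  have hBN : Bdd T P Wm m' (Q * m') (2 ^ (2 * (3 * T) * b)) m' (2 * U ^ 4) (X / U) ≤
      (((2 ^ (2 * (3 * T) * b) : ℕ) : ℝ)) ^ (Q * m') := by
    refine hBdd.trans ?_
    rw [hnU, ← hX, ← add_div, div_le_iff₀ hU0]
    have := ar.U576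
    nlinarith
  rw [← hX] at hBs
  have hmom := res_moment (n := 2 ^ (2 * (3 * T) * b)) (T := T) s M σ hσ
    (h := 2 * e) (l := l) (Wm := Wm) (L := m')
    (u := m') (by have := ar.e1; omega) hK hm1 hm2 hWm hm' Nat.one_le_two_pow hexp
    (q₀ := 1 / τ) (y := 1 / U ^ 3) (q := 1 / U) (c := 2 * U ^ 4) (by positivity)
    (one_div_le_one_div_of_le (by norm_num) hτ3) hq3
    (by positivity) (by rw [div_le_one (by positivity)]; exact one_le_pow₀ hU1)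
    (by apply le_of_eq; field_simp) (by
      have : 1 ≤ U ^ 4 := one_le_pow₀ hU1
      linarith) hBs hBN k
  rw [← hU]
  refine hmom.trans ?_
  have hfail := ar.fail hPR hKR
  have hU2 : (2 : ℝ) ^ (2 * (3 * T) * b) = U ^ 2 := by
    rw [hU, ← pow_mul]; congr 1; ring
  rw [hnU, hU2, ← hX]
  obtain ⟨R, hR⟩ : ∃ R : ℝ, R = (2 ^ (Q * m') * (2 * U ^ 4) ^ (2 * m')) *
      (T * (((P * 2 ^ (2 * e) * (Kl + P + 3) : ℕ) : ℝ) *
        (12 * (Wm : ℝ) * (1 / τ)) ^ (2 * e + 1))) := ⟨_, rfl⟩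
  have h2 : (k : ℝ) * X ^ k * (2 ^ (Q * m') * (2 * U ^ 4) ^ (2 * m')) *
      (T * (((P * 2 ^ (2 * e) * (Kl + P + 3) : ℕ) : ℝ) *
        (12 * (Wm : ℝ) * (1 / τ)) ^ (2 * e + 1))) = k * X ^ k * R := by rw [hR]; ring
  rw [h2]
  rw [← hR] at hfail
  have hBd0 : 0 ≤ Bdd T P Wm m' (Q * m') (2 ^ (2 * (3 * T) * b)) m' (2 * U ^ 4) (X / U) := by
    unfold Bdd
    positivity
  have h3 : Bdd T P Wm m' (Q * m') (2 ^ (2 * (3 * T) * b)) m' (2 * U ^ 4) (X / U) ^ k ≤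
      (X / U + X / U) ^ k := pow_le_pow_left₀ hBd0 hBdd k
  have h4 : (k : ℝ) * X ^ k * R ≤ k * X ^ k * (1 / U ^ k) :=
    mul_le_mul_of_nonneg_left hfail (by positivity)
  have h5 : (2 : ℝ) ^ k + k ≤ 4 ^ k := by
    have h6 : k < 2 ^ k := Nat.lt_two_pow_self
    have h7 : (k : ℝ) ≤ 2 ^ k := by exact_mod_cast h6.le
    have h8 : (4 : ℝ) ^ k = 2 ^ k * 2 ^ k := by rw [← mul_pow]; norm_num
    have h9 : (2 : ℝ) ≤ 2 ^ k := by
      calc (2 : ℝ) = 2 ^ 1 := (pow_one _).symm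
        _ ≤ 2 ^ k := pow_le_pow_right₀ (by norm_num) hk
    rw [h8]
    nlinarith
  calc _ ≤ (X / U + X / U) ^ k + k * X ^ k * (1 / U ^ k) := add_le_add h3 h4
    _ = (2 ^ k + k) * (X ^ k / U ^ k) := by
        rw [← two_mul, mul_pow, div_pow]
        ring
    _ ≤ 4 ^ k * (X ^ k / U ^ k) := mul_le_mul_of_nonneg_right h5 (by positivity)
    _ = (X * (4 / U)) ^ k := by
        rw [mul_pow, div_pow]
        ring

open Classical in
theorem mom_hard (ε : ℝ) (hε : 0 < ε) (hε1 : ε ≤ 1 / 2) (K : ℕ) :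
    ∃ Q : ℕ, 6 ≤ Q ∧ Even Q ∧ ∃ C : ℝ, 0 < C ∧
    ∀ n T g w : ℕ, 2 ≤ n → 1 ≤ T → C * (T * Real.log (n + g)) ≤ w → w ≤ n →
    ∃ b m' k : ℕ, 1 ≤ b ∧ 2 ≤ m' ∧ 1 ≤ k ∧ 4 * Q + 8 ≤ 3 * T * b ∧
      2 * (g + 2) ≤ 3 * T * b * k ∧ (8 * (g + 1)) ^ 4 ≤ 2 ^ (3 * T * b) ∧
      ar Q * (2 * (3 * T) * b) + 1 ≤ w ∧ Q * m' * (2 * (3 * T) * b + 1) ≤ n ∧
      (1 - ε) * n ≤ (((2 * Q - 12) * (3 * T * b * m') : ℕ) : ℝ) ∧
      w ≤ 8 * ar Q * (3 * T * b) ∧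
      ∃ s : Fin (Q * m') → Fin (ar Q) → Fin (Q * m'), (∀ i, s i 0 = i) ∧
      (∀ a : Fin (Q * m') → Fin (dom T b), Ex (vp (dens T b)) (fun X : Vr Q T b m' → Bool =>
        if ¬ Uniq s a X then (1 : ℝ) else 0) ≤ 1 / 2) ∧
      ∀ (J : Type) (σ : (Vr Q T b m' → Bool) → (J → Bool)), (∀ j, Junta 1 (fun x => σ x j)) →
      ∀ (P : ℕ) (M : Machine J P), (P : ℝ) ≤ 2 ^ ((1 - ε) * n) →
        (∀ q, (M.query q).length ≤ 2 ^ (K * n)) →
        Ex (vp (dens T b)) (fun X : Vr Q T b m' → Bool =>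
          nch s (fun X => M.res T (σ X)) X ^ k) ≤
        ((((dom T b : ℕ) : ℝ)) ^ (Q * m') * (4 / 2 ^ (3 * T * b))) ^ k := by
  obtain ⟨ε', hε'⟩ : ∃ ε' : ℝ, ε' = min ε (1 / (K + 1)) := ⟨_, rfl⟩
  have hε'0 : 0 < ε' := by rw [hε']; exact lt_min hε (by positivity)
  have hε'1 : ε' ≤ ε := by rw [hε']; exact min_le_left _ _
  have hε'2 : ε' ≤ 1 / (K + 1) := by rw [hε']; exact min_le_right _ _
  obtain ⟨Q, hQ6, hQev, hQε, C, hC, hpar⟩ := params7 ε' hε'0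
  have hQR : (6 : ℝ) ≤ Q := by exact_mod_cast hQ6
  have hQK : 2 * K ≤ Q := by
    have h1 : ε' * Q ≤ 1 / (K + 1) * Q := mul_le_mul_of_nonneg_right hε'2 (by positivity)
    have h2 : (7 : ℝ) ≤ 1 / (K + 1) * Q := hQε.trans h1
    have h3 : (7 : ℝ) * (K + 1) ≤ Q := by
      have h4 : (0 : ℝ) < K + 1 := by positivity
      rw [one_div_mul_eq_div, le_div_iff₀ h4] at h2
      exact h2
    have h4 : (2 : ℝ) * K ≤ Q := by
      have : (0 : ℝ) ≤ K := Nat.cast_nonneg K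
      linarith
    exact_mod_cast h4
  refine ⟨Q, hQ6, hQev, C / 3 * 9, by positivity, ?_⟩
  intro n T g w hn hT hw hwn
  have hTlog : C * (((3 * T : ℕ) : ℝ) * Real.log (n + g)) ≤ w := by
    refine le_trans (le_of_eq ?_) hw
    push_cast
    ring
  obtain ⟨b, m', k, hb, hm', hA, hB1, hB2, hgk, hBw, hQn, hexp, hwb, hk⟩ :=
    hpar n (3 * T) g w hn (by omega) hTlog hwn
  obtain ⟨s, hs, hsexp, hssm⟩ := scopes2 Q m' hQ6 (by omega)
  have hn0 : (0 : ℝ) ≤ n := Nat.cast_nonneg n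
  have hexp' : (1 - ε) * n ≤ (((2 * Q - 12) * (3 * T * b * m') : ℕ) : ℝ) := by
    refine le_trans ?_ hexp
    exact mul_le_mul_of_nonneg_right (by linarith) hn0
  -- the bound of the number of prover bits
  obtain ⟨e, he⟩ : ∃ e, e = 3 * T * (E1 Q * m' + k) := ⟨_, rfl⟩
  have hA' := hA
  rw [← he] at hA'
  have hek : 3 * T * k ≤ e := by
    rw [he]; exact Nat.mul_le_mul_left _ (Nat.le_add_left _ _)
  have hg8 : (8 * (g + 1)) ^ 4 ≤ 2 ^ (3 * T * b) := by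
    have h1 : g + 1 ≤ e * b := by
      have h2 : 3 * T * b * k ≤ e * b := by
        calc 3 * T * b * k = 3 * T * k * b := by ring
          _ ≤ e * b := Nat.mul_le_mul_right _ hek
      omega
    have he1 : 1 ≤ e := by
      refine le_trans ?_ hek
      exact Nat.one_le_iff_ne_zero.2 (by positivity)
    have h3 : 2 ^ b * 2 ^ b ≤ 2 ^ (3 * T * b) := by
      rw [← pow_add]
      apply Nat.pow_le_pow_right (by norm_num)
      calc b + b = 2 * b := by ring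
        _ ≤ 3 * T * b := Nat.mul_le_mul_right _ (by omega)
    refine le_trans ?_ h3
    calc (8 * (g + 1)) ^ 4 ≤ (8 * (e * b)) ^ 4 := Nat.pow_le_pow_left (by omega) _
      _ = (8 ^ 4 * e ^ 4) * b ^ 4 := by ring
      _ ≤ (2 * (12 * (2 * e)) ^ 16) * (2 ^ (2 * Q + 16) * b ^ 4) := by
          apply Nat.mul_le_mul
          · calc 8 ^ 4 * e ^ 4 ≤ 8 ^ 4 * e ^ 16 :=
                  Nat.mul_le_mul_left _ (Nat.pow_le_pow_right he1 (by norm_num))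
              _ ≤ (2 * 24 ^ 16) * e ^ 16 := Nat.mul_le_mul_right _ (by norm_num)
              _ = 2 * (12 * (2 * e)) ^ 16 := by ring
          · exact Nat.le_mul_of_pos_left _ (by positivity)
      _ ≤ 2 ^ b * 2 ^ b := Nat.mul_le_mul hA' hB1
  -- uniqueness
  obtain ⟨U, hU⟩ : ∃ U : ℝ, U = (2 : ℝ) ^ (3 * T * b) := ⟨_, rfl⟩
  have hnU : ((2 ^ (2 * (3 * T) * b) : ℕ) : ℝ) = U ^ 2 := by
    rw [hU, ← pow_mul]; push_cast; congr 1; ring
  have hQm : 1 ≤ Q * m' := Nat.one_le_iff_ne_zero.2 (by positivity)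
  have h8 : 8 * (((Q * m' : ℕ) : ℝ)) ≤ U := by
    have h1 : Q * m' ≤ e := by
      rw [he]
      calc Q * m' ≤ E1 Q * m' := Nat.mul_le_mul_right _ (by unfold E1 E0; omega)
        _ ≤ E1 Q * m' + k := Nat.le_add_right _ _
        _ = 1 * (E1 Q * m' + k) := (one_mul _).symm
        _ ≤ 3 * T * (E1 Q * m' + k) := Nat.mul_le_mul_right _ (by omega)
    have h2 : 8 * (Q * m') ≤ 2 ^ (3 * T * b) := by
      calc 8 * (Q * m') ≤ 12 * (2 * e) := by omega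
        _ ≤ (12 * (2 * e)) ^ 16 := Nat.le_self_pow (by norm_num) _
        _ ≤ 2 ^ b := by omega
        _ ≤ 2 ^ (3 * T * b) := Nat.pow_le_pow_right (by norm_num)
            (Nat.le_mul_of_pos_left b (by omega))
    rw [hU]
    exact_mod_cast h2
  have hbad := bad_small (Q * m') U h8 hQm _ hnU
  refine ⟨b, m', k, hb, hm', hk, hB2, hgk, hg8, hBw, hQn, hexp', hwb, s, hs, ?_, ?_⟩
  · intro a
    have hp0 : 0 ≤ dens T b := by unfold dens; positivity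
    have hp1 : dens T b ≤ 1 := by
      have h1 : (1 : ℝ) ≤ ((2 : ℝ) ^ (3 * T * b)) ^ 3 := one_le_pow₀ (one_le_pow₀ (by norm_num))
      have h2 : 1 / ((2 : ℝ) ^ (3 * T * b)) ^ 3 ≤ 1 := by
        rw [div_le_one (by positivity)]; exact h1
      unfold dens
      linarith
    refine (uniq_prob (r := 2 * Q ^ 2 + 14) (n := dom T b) hs a hp0 hp1).trans ?_
    rw [hU] at hbad
    exact hbad
  · intro J σ hσ P M hP hK
    have hPn : P ≤ 2 ^ ((2 * Q - 12) * (3 * T * b * m')) :=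
      le_two_pow_of (x := (1 - ε) * n) (E := (1 - ε) * n) hP le_rfl hexp'
    have hKn : K * n ≤ 2 * Q ^ 2 * (3 * T * b * m') := by
      obtain ⟨x, hx⟩ : ∃ x, x = 3 * T * b * m' := ⟨_, rfl⟩
      rw [← hx] at hexp' ⊢
      have h1 : (n : ℝ) ≤ 4 * Q * x := by
        have h2 : (((2 * Q - 12) * x : ℕ) : ℝ) ≤ ((2 * Q * x : ℕ) : ℝ) := by
          exact_mod_cast Nat.mul_le_mul_right x (Nat.sub_le _ _)
        have h3 : (1 / 2 : ℝ) * n ≤ (1 - ε) * n := mul_le_mul_of_nonneg_right (by linarith) hn0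
        have h4 := hexp'.trans h2
        push_cast at h4
        linarith
      have h2 : n ≤ 4 * Q * x := by exact_mod_cast h1
      calc K * n ≤ K * (4 * Q * x) := Nat.mul_le_mul_left _ h2
        _ = 2 * K * (2 * Q * x) := by ring
        _ ≤ Q * (2 * Q * x) := Nat.mul_le_mul_right _ hQK
        _ = 2 * Q ^ 2 * x := by ring
    have hfirst := mom_fixed Q T b m' k hQ6 hT hm' hk hb hA hB1 hB2 s hsexp hssm M
      (Kl := 2 ^ (K * n)) hK (Nat.pow_le_pow_right (by norm_num) hKn) hPn σ hσ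
    refine hfirst.trans (le_of_eq ?_)
    unfold dom
    push_cast
    rfl

end Pool.Agent.W964.Pram
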