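import Mathlib
import Pool.Agent.W964.Pram.Ip.Verifier
import Pool.Agent.W964.Pram.Ip.MomHard

/-!
The conversations on an instance and on the planted instances.
-/

set_option linter.unusedSectionVars false

namespace Pool.Agent.W964.Pram

open Finset H568R2 H592R3

section Talk
variable {J : Type} {P : ℕ}

lemma talk_length (V : Verifier J P) (T : ℕ) (x : J → Bool) (π : List V.W → Bool) (ω : V.Ω)
    (i : ℕ) : (V.talk T x π ω i).2.length = i := by
  induction i with
  | zero => rfl
  | succ i ih =>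
    show ((V.talk T x π ω i).2 ++ [_]).length = i + 1
    rw [List.length_append, ih]
    rfl

/-- The conversations agree when the results agree. -/
lemma talk_congr (V : Verifier J P) (T : ℕ) (x x' : J → Bool) (π : List V.W → Bool) (ω : V.Ω)
    (i : ℕ) (h : ∀ j < i, (V.mach ω (V.talk T x π ω j).2).result T x =
      (V.mach ω (V.talk T x π ω j).2).result T x') :
    V.talk T x' π ω i = V.talk T x π ω i := by
  induction i with
  | zero => rfl
  | succ i ih =>
    have h1 := ih (fun j hj => h j (by omega))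
    have h2 := h i (by omega)
    show ((V.talk T x' π ω i).1 ++ [V.msg ω (V.talk T x' π ω i).2
        ((V.mach ω (V.talk T x' π ω i).2).result T x')], _) = _
    rw [h1, ← h2]
    rfl

lemma list_ofFn_getD (z : List Bool) (i : ℕ) (hz : z.length = i) :
    List.ofFn (fun j : Fin i => z.getD j false) = z := by
  subst hz
  apply List.ext_getElem
  · simp
  · intro j h1 h2
    simp [List.getD_eq_getElem?_getD]

lemma sum_pow_le {g k : ℕ} (c : ℕ → ℝ) (hc : ∀ i, 0 ≤ c i) :
    (∑ i ∈ Finset.range (g + 1), c i) ^ k ≤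
      ((g : ℝ) + 1) ^ k * ∑ i ∈ Finset.range (g + 1), c i ^ k := by
  obtain ⟨i0, hi0, hmax⟩ := Finset.exists_max_image (Finset.range (g + 1)) c ⟨0, by simp⟩
  have h1 : ∑ i ∈ Finset.range (g + 1), c i ≤ ((g : ℝ) + 1) * c i0 := by
    have := Finset.sum_le_card_nsmul (Finset.range (g + 1)) c (c i0) hmax
    rw [Finset.card_range, nsmul_eq_mul] at this
    push_cast at this
    exact this
  have h2 : 0 ≤ ∑ i ∈ Finset.range (g + 1), c i := Finset.sum_nonneg fun i _ => hc i
  calc (∑ i ∈ Finset.range (g + 1), c i) ^ k ≤ (((g : ℝ) + 1) * c i0) ^ k :=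
        pow_le_pow_left₀ h2 h1 k
    _ = ((g : ℝ) + 1) ^ k * c i0 ^ k := mul_pow _ _ _
    _ ≤ _ := by
        apply mul_le_mul_of_nonneg_left _ (by positivity)
        exact Finset.single_le_sum (f := fun i => c i ^ k) (fun i _ => pow_nonneg (hc i) k) hi0

variable {m n r : ℕ}

/-- The sum over all lists of at most `g` bits of the powers of the numbers of changes. -/
noncomputable def allz (V : Verifier J P) (T g k : ℕ) (s : Fin m → Fin r → Fin m)
    (σ : ((Fin m × (Fin r → Fin n)) → Bool) → (J → Bool)) (ω : V.Ω)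
    (X : (Fin m × (Fin r → Fin n)) → Bool) : ℝ :=
  ∑ i ∈ Finset.range (g + 1), ∑ v : Fin i → Bool,
    nch s (fun X => (V.mach ω (List.ofFn v)).res T (σ X)) X ^ k

open Classical in
/-- The gain of a strategy is bounded by the number of changes. -/
lemma acc_diff (V : Verifier J P) (T g : ℕ) (s : Fin m → Fin r → Fin m)
    (σ : ((Fin m × (Fin r → Fin n)) → Bool) → (J → Bool))
    (X : (Fin m × (Fin r → Fin n)) → Bool) (π : List V.W → Bool)
    (u : (Fin m → Fin n) → ℝ) (hu0 : ∀ a, 0 ≤ u a) (hu1 : ∀ a, u a ≤ 1) :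
    letI := V.fin
    ∑ a : Fin m → Fin n, u a * (V.acc T g (σ X) π - V.acc T g (σ (plant (vr s a) univ X)) π) ≤
      ∑ ω, V.prob ω * ∑ i ∈ Finset.range (g + 1),
        nch s (fun Y => (V.mach ω (V.talk T (σ X) π ω i).2).res T (σ Y)) X := by
  letI := V.fin
  have h1 : ∀ a : Fin m → Fin n, u a * (V.acc T g (σ X) π -
      V.acc T g (σ (plant (vr s a) univ X)) π) ≤
      ∑ ω, V.prob ω * ∑ i ∈ Finset.range (g + 1),
        (if (V.mach ω (V.talk T (σ X) π ω i).2).res T (σ X) ≠
          (V.mach ω (V.talk T (σ X) π ω i).2).res T (σ (plant (vr s a) univ X))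
          then (1 : ℝ) else 0) := by
    intro a
    unfold Verifier.acc
    rw [← Finset.sum_sub_distrib, Finset.mul_sum]
    refine Finset.sum_le_sum fun ω _ => ?_
    have hp := V.nonneg ω
    have hnn : (0 : ℝ) ≤ ∑ i ∈ Finset.range (g + 1),
        (if (V.mach ω (V.talk T (σ X) π ω i).2).res T (σ X) ≠
          (V.mach ω (V.talk T (σ X) π ω i).2).res T (σ (plant (vr s a) univ X))
          then (1 : ℝ) else 0) := Finset.sum_nonneg fun i _ => by split_ifs <;> norm_num
    by_cases hall : ∀ i < g + 1, (V.mach ω (V.talk T (σ X) π ω i).2).res T (σ X) =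
          (V.mach ω (V.talk T (σ X) π ω i).2).res T (σ (plant (vr s a) univ X))
    · have h2 := talk_congr V T (σ X) (σ (plant (vr s a) univ X)) π ω g
        (fun j hj => hall j (by omega))
      have h3 : (V.mach ω (V.talk T (σ (plant (vr s a) univ X)) π ω g).2).answer T
          (σ (plant (vr s a) univ X)) =
          (V.mach ω (V.talk T (σ X) π ω g).2).answer T (σ X) := by
        rw [h2]
        show (V.mach ω (V.talk T (σ X) π ω g).2).accept
          ((V.mach ω (V.talk T (σ X) π ω g).2).res T (σ (plant (vr s a) univ X))) = _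
        rw [← hall g (by omega)]
        rfl
      rw [h3, sub_self, mul_zero]
      exact mul_nonneg hp hnn
    · push Not at hall
      obtain ⟨i, hi, hne⟩ := hall
      have h2 : (1 : ℝ) ≤ ∑ i ∈ Finset.range (g + 1),
        (if (V.mach ω (V.talk T (σ X) π ω i).2).res T (σ X) ≠
          (V.mach ω (V.talk T (σ X) π ω i).2).res T (σ (plant (vr s a) univ X))
          then (1 : ℝ) else 0) := by
        refine le_trans ?_ (Finset.single_le_sum (f := fun i =>
          (if (V.mach ω (V.talk T (σ X) π ω i).2).res T (σ X) ≠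
          (V.mach ω (V.talk T (σ X) π ω i).2).res T (σ (plant (vr s a) univ X))
          then (1 : ℝ) else 0)) (fun i _ => by
            beta_reduce
            split_ifs <;> norm_num) (Finset.mem_range.2 hi))

        rw [if_pos hne]
      have h3 : (if (V.mach ω (V.talk T (σ X) π ω g).2).answer T (σ X) = true then V.prob ω
          else 0) - (if (V.mach ω (V.talk T (σ (plant (vr s a) univ X)) π ω g).2).answer T
            (σ (plant (vr s a) univ X)) = true then V.prob ω else 0) ≤ V.prob ω := by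
        split_ifs <;> linarith
      have h4 := hu0 a
      have h5 := hu1 a
      calc u a * _ ≤ u a * V.prob ω := mul_le_mul_of_nonneg_left h3 h4
        _ ≤ 1 * V.prob ω := mul_le_mul_of_nonneg_right h5 hp
        _ = V.prob ω * 1 := by ring
        _ ≤ _ := mul_le_mul_of_nonneg_left h2 hp
  refine (Finset.sum_le_sum fun a _ => h1 a).trans (le_of_eq ?_)
  rw [Finset.sum_comm]
  refine Finset.sum_congr rfl fun ω _ => ?_
  rw [← Finset.mul_sum, Finset.sum_comm]
  rfl

open Classical in
/-- The pointwise bound. -/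
lemma acc_pow (V : Verifier J P) (T g k : ℕ) (s : Fin m → Fin r → Fin m)
    (σ : ((Fin m × (Fin r → Fin n)) → Bool) → (J → Bool))
    (X : (Fin m × (Fin r → Fin n)) → Bool) (π : List V.W → Bool) :
    letI := V.fin
    (∑ ω, V.prob ω * ∑ i ∈ Finset.range (g + 1),
        nch s (fun Y => (V.mach ω (V.talk T (σ X) π ω i).2).res T (σ Y)) X) ^ k ≤
      ((g : ℝ) + 1) ^ k * ∑ ω, V.prob ω * allz V T g k s σ ω X := by
  letI := V.fin
  have hnn : ∀ ω, 0 ≤ ∑ i ∈ Finset.range (g + 1),
        nch s (fun Y => (V.mach ω (V.talk T (σ X) π ω i).2).res T (σ Y)) X := fun ω =>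
    Finset.sum_nonneg fun i _ => nch_nonneg s _ X
  have h1 := Real.pow_arith_mean_le_arith_mean_pow univ V.prob (fun ω =>
    ∑ i ∈ Finset.range (g + 1),
        nch s (fun Y => (V.mach ω (V.talk T (σ X) π ω i).2).res T (σ Y)) X)
    (fun ω _ => V.nonneg ω) V.total (fun ω _ => hnn ω) k
  refine h1.trans ?_
  rw [Finset.mul_sum]
  refine Finset.sum_le_sum fun ω _ => ?_
  have h2 := sum_pow_le (g := g) (k := k) (fun i =>
    nch s (fun Y => (V.mach ω (V.talk T (σ X) π ω i).2).res T (σ Y)) X)
    (fun i => nch_nonneg s _ X)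
  have h3 : ∑ i ∈ Finset.range (g + 1),
      nch s (fun Y => (V.mach ω (V.talk T (σ X) π ω i).2).res T (σ Y)) X ^ k ≤
      allz V T g k s σ ω X := by
    unfold allz
    refine Finset.sum_le_sum fun i _ => ?_
    have h4 := list_ofFn_getD _ _ (talk_length V T (σ X) π ω i)
    refine le_trans (le_of_eq ?_) (Finset.single_le_sum
      (f := fun v : Fin i → Bool =>
        nch s (fun X => (V.mach ω (List.ofFn v)).res T (σ X)) X ^ k)
      (fun v _ => pow_nonneg (nch_nonneg s _ X) k)
      (Finset.mem_univ (fun j : Fin i => (V.talk T (σ X) π ω i).2.getD j false)))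
    beta_reduce
    rw [h4]
  calc V.prob ω * _ ≤ V.prob ω * (((g : ℝ) + 1) ^ k * allz V T g k s σ ω X) := by
        apply mul_le_mul_of_nonneg_left _ (V.nonneg ω)
        exact h2.trans (mul_le_mul_of_nonneg_left h3 (by positivity))
    _ = _ := by ring

open Classical in
/-- The expectation of the bound. -/
lemma allz_exp (V : Verifier J P) (T g k : ℕ) (s : Fin m → Fin r → Fin m)
    (σ : ((Fin m × (Fin r → Fin n)) → Bool) → (J → Bool)) {p : ℝ} {R : ℝ} (hR0 : 0 ≤ R)
    (hR : ∀ ω z, Ex (vp p) (fun X : (Fin m × (Fin r → Fin n)) → Bool =>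
      nch s (fun X => (V.mach ω z).res T (σ X)) X ^ k) ≤ R) (ω : V.Ω) :
    Ex (vp p) (fun X => allz V T g k s σ ω X) ≤ 2 ^ (g + 1) * R := by
  unfold allz
  rw [Ex_sum]
  have h1 : ∀ i ∈ Finset.range (g + 1), Ex (vp p) (fun X : (Fin m × (Fin r → Fin n)) → Bool =>
      ∑ v : Fin i → Bool, nch s (fun X => (V.mach ω (List.ofFn v)).res T (σ X)) X ^ k) ≤
      2 ^ i * R := by
    intro i _
    rw [Ex_sum]
    refine (Finset.sum_le_card_nsmul _ _ R (fun v _ => hR ω (List.ofFn v))).trans ?_
    rw [Finset.card_univ, Fintype.card_fun, Fintype.card_fin, Fintype.card_bool, nsmul_eq_mul]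
    push_cast
    exact le_rfl
  refine (Finset.sum_le_sum h1).trans ?_
  rw [← Finset.sum_mul]
  apply mul_le_mul_of_nonneg_right _ hR0
  have h2 : (∑ i ∈ Finset.range (g + 1), (2 : ℝ) ^ i) = 2 ^ (g + 1) - 1 := by
    rw [geom_sum_eq (by norm_num)]
    norm_num
  rw [h2]
  linarith

end Talk

end Pool.Agent.W964.Pram
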