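import Mathlib
import Pool.Agent.W964.Pram.Ip.Talk

/-!
Planted constraint satisfaction problems whose unsatisfiability has no interactive proofs.
-/

set_option linter.unusedSectionVars false

namespace Pool.Agent.W964.Pram

open Finset H568R2 H592R3

lemma ip_arith (g k t : ℕ) (NN δ : ℝ) (hNN : 0 < NN)
    (hgk : 2 * (g + 2) ≤ t * k) (hg8 : (8 * (g + 1)) ^ 4 ≤ 2 ^ t)
    (hδ : (2 : ℝ) ^ (-((t : ℝ) / 4)) ≤ δ)
    (h : (δ * (NN / 2)) ^ k ≤ ((g : ℝ) + 1) ^ k * (2 ^ (g + 1) * (NN * (4 / 2 ^ t)) ^ k)) :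
    False := by
  obtain ⟨u, hu⟩ : ∃ u : ℝ, u = (2 : ℝ) ^ ((t : ℝ) / 4) := ⟨_, rfl⟩
  have hu0 : 0 < u := by rw [hu]; positivity
  have hu4 : u ^ 4 = 2 ^ t := by
    rw [hu, ← Real.rpow_natCast, ← Real.rpow_mul (by norm_num), ← Real.rpow_natCast]
    congr 1
    push_cast
    ring
  have hδu : 1 / u ≤ δ := by
    refine le_trans (le_of_eq ?_) hδ
    rw [hu, Real.rpow_neg (by norm_num), one_div]
  have hgu : 8 * ((g : ℝ) + 1) ≤ u := by
    apply (pow_le_pow_iff_left₀ (by positivity) hu0.le (by norm_num : (4 : ℕ) ≠ 0)).1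
    rw [hu4]
    exact_mod_cast hg8
  have hδ0 : 0 < δ := lt_of_lt_of_le (by positivity) hδu
  rw [← hu4] at h
  -- divide by `NN ^ k`
  have h1 : (δ / 2) ^ k ≤ 2 ^ (g + 1) * (4 * ((g : ℝ) + 1) / u ^ 4) ^ k := by
    have e1 : (δ * (NN / 2)) ^ k = (δ / 2) ^ k * NN ^ k := by rw [← mul_pow]; congr 1; ring
    have e2 : ((g : ℝ) + 1) ^ k * (2 ^ (g + 1) * (NN * (4 / u ^ 4)) ^ k) =
        (2 ^ (g + 1) * (4 * ((g : ℝ) + 1) / u ^ 4) ^ k) * NN ^ k := by
      rw [show (4 * ((g : ℝ) + 1) / u ^ 4) = ((g : ℝ) + 1) * (4 / u ^ 4) by ring, mul_pow,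
        mul_pow]
      ring
    rw [e1, e2] at h
    exact le_of_mul_le_mul_right h (by positivity)
  have h2 : (4 * ((g : ℝ) + 1) / u ^ 4) ≤ (δ / 2) * (1 / u ^ 2) := by
    have h3 : (4 * ((g : ℝ) + 1) / u ^ 4) ≤ (u / 2) / u ^ 4 := by
      apply div_le_div_of_nonneg_right _ (by positivity)
      linarith
    have h4 : (u / 2) / u ^ 4 = ((1 / u) / 2) * (1 / u ^ 2) := by
      field_simp
    rw [h4] at h3
    refine h3.trans ?_
    apply mul_le_mul_of_nonneg_right _ (by positivity)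
    linarith
  have h3 : (4 * ((g : ℝ) + 1) / u ^ 4) ^ k ≤ (δ / 2) ^ k * (1 / u ^ 2) ^ k := by
    rw [← mul_pow]
    exact pow_le_pow_left₀ (by positivity) h2 k
  have h4 : (δ / 2) ^ k ≤ 2 ^ (g + 1) * ((δ / 2) ^ k * (1 / u ^ 2) ^ k) :=
    h1.trans (mul_le_mul_of_nonneg_left h3 (by positivity))
  have h5 : (0 : ℝ) < (δ / 2) ^ k := by positivity
  have h6 : (1 : ℝ) ≤ 2 ^ (g + 1) * (1 / u ^ 2) ^ k := by
    have e1 : 2 ^ (g + 1) * ((δ / 2) ^ k * (1 / u ^ 2) ^ k) =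
        (2 ^ (g + 1) * (1 / u ^ 2) ^ k) * (δ / 2) ^ k := by ring
    rw [e1] at h4
    nth_rewrite 1 [← one_mul ((δ / 2) ^ k)] at h4
    exact le_of_mul_le_mul_right h4 h5
  have h7 : ((u ^ 2) ^ k) ≤ 2 ^ (g + 1) := by
    rw [one_div_pow, mul_one_div, le_div_iff₀ (by positivity), one_mul] at h6
    exact h6
  have h8 : ((u ^ 2) ^ k) ^ 2 = 2 ^ (t * k) := by
    calc ((u ^ 2) ^ k) ^ 2 = (u ^ 4) ^ k := by rw [← pow_mul, ← pow_mul, ← pow_mul]; congr 1; ring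
      _ = 2 ^ (t * k) := by rw [hu4, ← pow_mul]
  have h9 : (2 : ℝ) ^ (t * k) ≤ (2 ^ (g + 1)) ^ 2 := by
    rw [← h8]
    exact pow_le_pow_left₀ (by positivity) h7 2
  rw [← pow_mul] at h9
  have h10 := (pow_le_pow_iff_right₀ (by norm_num : (1 : ℝ) < 2)).1 h9
  omega

open Classical in
theorem ip_hard (ε : ℝ) (hε : 0 < ε) (hε1 : ε ≤ 1 / 2) (K : ℕ) :
    ∃ Q : ℕ, 6 ≤ Q ∧ Even Q ∧ ∃ C : ℝ, 0 < C ∧
    ∀ n T g w : ℕ, 2 ≤ n → 1 ≤ T → C * (T * Real.log (n + g)) ≤ w → w ≤ n →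
    ∃ b m' : ℕ, 1 ≤ b ∧ 2 ≤ m' ∧ 4 * Q + 8 ≤ 3 * T * b ∧
      ar Q * (2 * (3 * T) * b) + 1 ≤ w ∧ Q * m' * (2 * (3 * T) * b + 1) ≤ n ∧
      (1 - ε) * n ≤ (((2 * Q - 12) * (3 * T * b * m') : ℕ) : ℝ) ∧
      w ≤ 8 * ar Q * (3 * T * b) ∧
      ∃ s : Fin (Q * m') → Fin (ar Q) → Fin (Q * m'), (∀ i, s i 0 = i) ∧
      ∀ (J : Type) (σ : (Vr Q T b m' → Bool) → (J → Bool)), (∀ j, Junta 1 (fun x => σ x j)) →
      ∀ (P : ℕ) (V : Verifier J P), (P : ℝ) ≤ 2 ^ ((1 - ε) * n) → V.Lists (2 ^ (K * n)) →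
      ∀ γ : ℝ, (∀ X, ¬ Sat s X → ∃ π, γ + 2 ^ (-((w : ℝ) / C)) ≤ V.acc T g (σ X) π) →
        ∃ X, AtMostOne s X ∧ Sat s X ∧ ∃ π, γ < V.acc T g (σ X) π := by
  obtain ⟨Q, hQ6, hQev, C', hC', hpar⟩ := mom_hard ε hε hε1 K
  obtain ⟨C, hC⟩ : ∃ C : ℝ, C = C' + 32 * ((ar Q : ℕ) : ℝ) := ⟨_, rfl⟩
  have hC0 : 0 < C := by rw [hC]; positivity
  refine ⟨Q, hQ6, hQev, C, hC0, ?_⟩
  intro n T g w hn hT hw hwn
  have hnR : (2 : ℝ) ≤ n := by exact_mod_cast hn
  have hlog : 0 ≤ Real.log ((n : ℝ) + g) := by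
    apply Real.log_nonneg
    have : (0 : ℝ) ≤ g := Nat.cast_nonneg g
    linarith
  obtain ⟨b, m', k, hb, hm', hk, hB2, hgk, hg8, hBw, hQn, hexp, hwb, s, hs, huniq, hmom⟩ :=
    hpar n T g w hn hT (by
      refine le_trans ?_ hw
      apply mul_le_mul_of_nonneg_right _ (by positivity)
      rw [hC]
      have : (0 : ℝ) ≤ 32 * ((ar Q : ℕ) : ℝ) := by positivity
      linarith) hwn
  refine ⟨b, m', hb, hm', hB2, hBw, hQn, hexp, hwb, s, hs, ?_⟩
  intro J σ hσ P V hP hL γ hyes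
  by_contra hcon
  push Not at hcon
  letI := V.fin
  obtain ⟨t, ht⟩ : ∃ t, t = 3 * T * b := ⟨_, rfl⟩
  obtain ⟨δ, hδ⟩ : ∃ δ : ℝ, δ = (2 : ℝ) ^ (-((w : ℝ) / C)) := ⟨_, rfl⟩
  have hδ0 : 0 < δ := by rw [hδ]; positivity
  have hδ1 : (2 : ℝ) ^ (-((t : ℝ) / 4)) ≤ δ := by
    rw [hδ]
    apply Real.rpow_le_rpow_of_exponent_le (by norm_num)
    rw [neg_le_neg_iff, div_le_div_iff₀ hC0 (by norm_num)]
    have h1 : (w : ℝ) ≤ 8 * ((ar Q : ℕ) : ℝ) * (t : ℝ) := by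
      have : ((w : ℕ) : ℝ) ≤ ((8 * ar Q * (3 * T * b) : ℕ) : ℝ) := by exact_mod_cast hwb
      rw [← ht, Nat.cast_mul, Nat.cast_mul] at this
      exact_mod_cast this
    have h2 : 32 * ((ar Q : ℕ) : ℝ) * t ≤ C * t := by
      apply mul_le_mul_of_nonneg_right _ (Nat.cast_nonneg t)
      rw [hC]
      linarith
    linarith
  rw [← hδ] at hyes
  have hp0 : 0 ≤ dens T b := by unfold dens; positivity
  have hp1 : dens T b ≤ 1 := by
    have h1 : (1 : ℝ) ≤ ((2 : ℝ) ^ (3 * T * b)) ^ 3 := one_le_pow₀ (one_le_pow₀ (by norm_num))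
    have h2 : 1 / ((2 : ℝ) ^ (3 * T * b)) ^ 3 ≤ 1 := by
      rw [div_le_one (by positivity)]; exact h1
    unfold dens
    linarith
  have hQm : 1 ≤ Q * m' := Nat.one_le_iff_ne_zero.2 (by positivity)
  obtain ⟨NN, hNN⟩ : ∃ NN : ℝ, NN = (((dom T b : ℕ) : ℝ)) ^ (Q * m') := ⟨_, rfl⟩
  have hNN0 : 0 < NN := by rw [hNN]; unfold dom; positivity
  -- the pointwise inequality
  have hpt : ∀ X : Vr Q T b m' → Bool,
      (∑ a : Fin (Q * m') → Fin (dom T b), δ * (1 - (if ¬ Uniq s a X then (1 : ℝ) else 0))) ^ k ≤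
      ((g : ℝ) + 1) ^ k * ∑ ω, V.prob ω * allz V T g k s σ ω X := by
    intro X
    have hR : 0 ≤ ((g : ℝ) + 1) ^ k * ∑ ω, V.prob ω * allz V T g k s σ ω X := by
      apply mul_nonneg (by positivity)
      refine Finset.sum_nonneg fun ω _ => mul_nonneg (V.nonneg ω) ?_
      unfold allz
      exact Finset.sum_nonneg fun i _ => Finset.sum_nonneg fun v _ =>
        pow_nonneg (nch_nonneg s _ X) k
    by_cases hsat : Sat s X
    · have h0 : ∀ a : Fin (Q * m') → Fin (dom T b), ¬ Uniq s a X := by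
        intro a hU
        have h4 : plant (vr s a) (∅ : Finset (Fin (Q * m'))) X = X := by
          funext i
          unfold plant
          simp
        rw [← h4, uniq_sat hU] at hsat
        have h6 : (⟨0, by omega⟩ : Fin (Q * m')) ∈ (univ : Finset (Fin (Q * m'))) :=
          Finset.mem_univ _
        rw [← hsat] at h6
        simp at h6
      simp only [h0, not_false_iff, if_true, sub_self, mul_zero, Finset.sum_const_zero]
      rw [zero_pow (by omega)]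
      exact hR
    · obtain ⟨π, hπ⟩ := hyes X hsat
      have h1 := acc_diff V T g s σ X π (fun a => 1 - (if ¬ Uniq s a X then (1 : ℝ) else 0))
        (fun a => by split_ifs <;> norm_num) (fun a => by split_ifs <;> norm_num)
      have h2 : ∑ a : Fin (Q * m') → Fin (dom T b),
          δ * (1 - (if ¬ Uniq s a X then (1 : ℝ) else 0)) ≤
          ∑ a : Fin (Q * m') → Fin (dom T b), (1 - (if ¬ Uniq s a X then (1 : ℝ) else 0)) *
            (V.acc T g (σ X) π - V.acc T g (σ (plant (vr s a) univ X)) π) := by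
        refine Finset.sum_le_sum fun a _ => ?_
        by_cases hU : Uniq s a X
        · simp only [hU, not_true, if_false, sub_zero, mul_one, one_mul]
          have h3 := hcon _ (uniq_atMostOne hU univ) ((uniq_sat hU univ).2 rfl) π
          linarith
        · simp only [hU, not_false_iff, if_true, sub_self, mul_zero, zero_mul, le_refl]
      refine (pow_le_pow_left₀ ?_ (h2.trans h1) k).trans (acc_pow V T g k s σ X π)
      refine Finset.sum_nonneg fun a _ => mul_nonneg hδ0.le ?_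
      split_ifs <;> norm_num
  -- expectations
  have hupper : Ex (vp (dens T b)) (fun X : Vr Q T b m' → Bool =>
      ((g : ℝ) + 1) ^ k * ∑ ω, V.prob ω * allz V T g k s σ ω X) ≤
      ((g : ℝ) + 1) ^ k * (2 ^ (g + 1) * (NN * (4 / 2 ^ t)) ^ k) := by
    rw [Ex_smul]
    apply mul_le_mul_of_nonneg_left _ (by positivity)
    rw [Ex_sum]
    have h1 : ∀ ω ∈ (univ : Finset V.Ω), Ex (vp (dens T b)) (fun X : Vr Q T b m' → Bool =>
        V.prob ω * allz V T g k s σ ω X) ≤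
        V.prob ω * (2 ^ (g + 1) * (NN * (4 / 2 ^ t)) ^ k) := by
      intro ω _
      rw [Ex_smul]
      apply mul_le_mul_of_nonneg_left _ (V.nonneg ω)
      apply allz_exp V T g k s σ (by positivity) _ ω
      intro ω z
      rw [hNN, ht]
      exact hmom J σ hσ P (V.mach ω z) hP (hL ω z)
    refine (Finset.sum_le_sum h1).trans (le_of_eq ?_)
    rw [← Finset.sum_mul, V.total, one_mul]
  have hlower : (δ * (NN / 2)) ^ k ≤ Ex (vp (dens T b)) (fun X : Vr Q T b m' → Bool =>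
      (∑ a : Fin (Q * m') → Fin (dom T b), δ * (1 - (if ¬ Uniq s a X then (1 : ℝ) else 0))) ^ k) := by
    have hnn : ∀ X : Vr Q T b m' → Bool,
        0 ≤ ∑ a : Fin (Q * m') → Fin (dom T b), δ * (1 - (if ¬ Uniq s a X then (1 : ℝ) else 0)) := by
      intro X
      refine Finset.sum_nonneg fun a _ => mul_nonneg hδ0.le ?_
      split_ifs <;> norm_num
    refine le_trans ?_ (Mb2.Ex_pow hp0 hp1 _ hnn k)
    apply pow_le_pow_left₀ (by positivity)
    rw [Ex_sum]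
    have h2 : ∀ a ∈ (univ : Finset (Fin (Q * m') → Fin (dom T b))), δ / 2 ≤ Ex (vp (dens T b))
        (fun X : Vr Q T b m' → Bool => δ * (1 - (if ¬ Uniq s a X then (1 : ℝ) else 0))) := by
      intro a _
      rw [Ex_smul]
      have h3 : Ex (vp (dens T b)) (fun X : Vr Q T b m' → Bool =>
          1 - (if ¬ Uniq s a X then (1 : ℝ) else 0)) =
          1 + (-1) * Ex (vp (dens T b)) (fun X : Vr Q T b m' → Bool =>
            (if ¬ Uniq s a X then (1 : ℝ) else 0)) := by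
        rw [← Ex_smul]
        have h4 := Ex_add (vp (dens T b)) (fun _ : Vr Q T b m' → Bool => (1 : ℝ))
          (fun X => (-1) * (if ¬ Uniq s a X then (1 : ℝ) else 0))
        rw [Ex_const (vp_sum (dens T b))] at h4
        rw [← h4]
        congr 1
        funext X
        ring
      rw [h3]
      have h5 := huniq a
      have h6 : δ * (1 / 2) ≤ δ * (1 + (-1) * Ex (vp (dens T b)) (fun X : Vr Q T b m' → Bool =>
            (if ¬ Uniq s a X then (1 : ℝ) else 0))) :=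
        mul_le_mul_of_nonneg_left (by linarith) hδ0.le
      linarith
    have h6 := Finset.card_nsmul_le_sum _ _ _ h2
    rw [Finset.card_univ, Fintype.card_fun, Fintype.card_fin, Fintype.card_fin,
      nsmul_eq_mul, Nat.cast_pow, ← hNN] at h6
    linarith
  have hfin := hlower.trans ((Ex_mono (vp_nonneg hp0 hp1) hpt).trans hupper)
  rw [← ht] at hgk hg8
  exact ip_arith g k t NN δ hNN0 hgk hg8 hδ1 hfin

end Pool.Agent.W964.Pram
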