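import Mathlib
import Pool.Agent.W964.Pram.Ip.IpHard
import Pool.Agent.W964.Pram.CntEnc

/-!
Interactive proofs that a formula has few satisfying assignments.
-/

set_option linter.unusedSectionVars false

namespace Pool.Agent.W964.Pram

open Finset H568R2 H592R3 SmallDepth

lemma sols_one {m r N : ℕ} {s : Fin m → Fin r → Fin m}
    {X : (Fin m × (Fin r → Fin N)) → Bool} (h1 : AtMostOne s X) (h2 : Sat s X) :
    (Sols s X).ncard = 1 := by
  obtain ⟨a, ha⟩ := h2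
  rw [Set.ncard_eq_one]
  refine ⟨a, ?_⟩
  ext b
  constructor
  · intro hb
    exact h1 b a hb ha
  · rintro rfl
    exact ha

theorem cnt_down (ε : ℝ) (hε : 0 < ε) (Kc : ℕ) : ∃ C : ℝ, 0 < C ∧
    ∀ n T g w M k : ℕ, 2 ≤ n → 1 ≤ T → C * (T * Real.log (n + g)) ≤ w → w ≤ n →
    n * 2 ^ w ≤ M → 1 ≤ k → k ≤ 2 ^ (n - 1) →
    ∀ (P : ℕ) (V : Verifier (Fin M × Fin n × Bool) P), (P : ℝ) ≤ 2 ^ ((1 - ε) * n) →
      V.Lists (2 ^ (Kc * n)) →
      ∀ γ : ℝ, (∀ x, AllOccur x → numModels x = k - 1 →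
          ∃ π, γ + 2 ^ (-((w : ℝ) / C)) ≤ V.acc T g x π) →
        ∃ x, AllOccur x ∧ numModels x = k ∧ ∃ π, γ < V.acc T g x π := by
  obtain ⟨ε', hε'⟩ : ∃ ε' : ℝ, ε' = min (ε / 2) (1 / 2) := ⟨_, rfl⟩
  have hε'0 : 0 < ε' := by rw [hε']; exact lt_min (by positivity) (by norm_num)
  have hε'1 : ε' ≤ 1 / 2 := by rw [hε']; exact min_le_right _ _
  have hε'2 : ε' ≤ ε / 2 := by rw [hε']; exact min_le_left _ _
  obtain ⟨Q, hQ6, _, C', hC', hpar⟩ := ip_hard ε' hε'0 hε'1 (2 * Kc)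
  obtain ⟨C, hC⟩ : ∃ C : ℝ, C = C' + 128 + 4 / ε := ⟨_, rfl⟩
  have h4ε : 0 < 4 / ε := by positivity
  have hC0 : 0 < C := by rw [hC]; positivity
  refine ⟨C, hC0, ?_⟩
  intro n T g w M k hn hT hw hwn hM hk1 hk2 P V hP hL γ hyes
  have hnR : (2 : ℝ) ≤ n := by exact_mod_cast hn
  have hg0 : (0 : ℝ) ≤ g := Nat.cast_nonneg g
  have hl2 : (1 : ℝ) / 2 ≤ Real.log 2 := by
    have := Real.log_two_gt_d9
    linarith
  have hlogn : 1 / 2 ≤ Real.log (n + g) :=
    hl2.trans (Real.log_le_log (by norm_num) (by linarith))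
  have hTR : (1 : ℝ) ≤ T := by exact_mod_cast hT
  have hTl : 1 / 2 ≤ (T : ℝ) * Real.log (n + g) := by
    have h1 : 1 * (1 / 2) ≤ (T : ℝ) * Real.log (n + g) :=
      mul_le_mul hTR hlogn (by norm_num) (by linarith)
    linarith
  have hnw : (w : ℝ) ≤ n := by exact_mod_cast hwn
  have hw64 : (64 : ℝ) ≤ w := by
    have h1 : 128 * (1 / 2) ≤ C * (T * Real.log (n + g)) :=
      mul_le_mul (by rw [hC]; linarith) hTl (by norm_num) hC0.le
    linarith
  have hw64' : 64 ≤ w := by exact_mod_cast hw64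
  have hnε : 2 / ε ≤ n := by
    have h1 : (4 / ε) * (1 / 2) ≤ C * (T * Real.log (n + g)) :=
      mul_le_mul (by rw [hC]; linarith) hTl (by norm_num) hC0.le
    have h2 : (4 / ε) * (1 / 2) = 2 / ε := by ring
    linarith
  obtain ⟨n', hn'⟩ : ∃ n', n = n' + 1 := ⟨n - 1, by omega⟩
  subst hn'
  have hn'R : ((n' + 1 : ℕ) : ℝ) = (n' : ℝ) + 1 := by push_cast; ring
  obtain ⟨w', hw'⟩ : ∃ w', w = w' + 1 := ⟨w - 1, by omega⟩
  have hw'R : (w : ℝ) = w' + 1 := by rw [hw']; push_cast; ring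
  have hn'2 : 2 ≤ n' := by omega
  have hlogn' : Real.log (n' + g) ≤ Real.log ((n' + 1 : ℕ) + g) := by
    apply Real.log_le_log
    · have : (2 : ℝ) ≤ n' := by exact_mod_cast hn'2
      linarith
    · push_cast; linarith
  have hCw' : C' * (T * Real.log (n' + g)) ≤ w' := by
    have h1 : C' * (T * Real.log (n' + g)) ≤ C' * (T * Real.log ((n' + 1 : ℕ) + g)) := by gcongr
    have h2 : (C' + 2) * (T * Real.log ((n' + 1 : ℕ) + g)) ≤
        C * (T * Real.log ((n' + 1 : ℕ) + g)) := by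
      apply mul_le_mul_of_nonneg_right _ (by linarith)
      rw [hC]; linarith
    have h3 : 1 ≤ 2 * ((T : ℝ) * Real.log ((n' + 1 : ℕ) + g)) := by linarith
    linarith
  obtain ⟨b, m', hb, hm', hB2, hBw, hQn, hexp, hwb, s, hs, hip⟩ := hpar n' T g w' hn'2 hT hCw'
    (by omega)
  have hQm : Q * m' * 2 ≤ n' := by
    refine le_trans ?_ hQn
    apply Nat.mul_le_mul_left
    have : 1 ≤ T * b := Nat.one_le_iff_ne_zero.2 (by positivity)
    have h2 : 2 * (3 * T) * b = 6 * (T * b) := by ring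
    omega
  have hcardM : (n' + 1) + (Q * m' * (2 ^ (2 * (3 * T) * b)) ^ (ar Q) + n') + (n' + 1) ≤ M := by
    refine le_trans ?_ hM
    have h1 : (2 ^ (2 * (3 * T) * b)) ^ (ar Q) ≤ 2 ^ w' := by
      rw [← pow_mul]
      apply Nat.pow_le_pow_right (by norm_num)
      rw [mul_comm]; omega
    have h2 : Q * m' * (2 ^ (2 * (3 * T) * b)) ^ (ar Q) ≤ n' * 2 ^ w' :=
      Nat.mul_le_mul (by omega) h1
    have h3 : (n' + 1) * 2 ^ w = (n' + 1) * 2 ^ w' + (n' + 1) * 2 ^ w' := by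
      rw [hw', pow_succ]; ring
    have h4 : 4 ≤ 2 ^ w' := by
      calc 4 = 2 ^ 2 := by norm_num
        _ ≤ 2 ^ w' := Nat.pow_le_pow_right (by norm_num) (by omega)
    have h5 : (n' + 1) * 4 ≤ (n' + 1) * 2 ^ w' := Nat.mul_le_mul_left _ h4
    have h6 : n' * 2 ^ w' ≤ (n' + 1) * 2 ^ w' := Nat.mul_le_mul_right _ (by omega)
    omega
  have he : Q * m' * (2 * (3 * T) * b) ≤ n' := by
    refine le_trans ?_ hQn
    exact Nat.mul_le_mul_left _ (by omega)
  obtain ⟨σ, hσ, hσo, hσs⟩ := enc_cnt (Q * m') (ar Q) (2 * (3 * T) * b) n' M (k - 1) (by omega)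
    hcardM he (by rw [Nat.add_sub_cancel] at hk2; omega) s
  have hPle : (P : ℝ) ≤ 2 ^ ((1 - ε') * n') := by
    refine hP.trans ?_
    apply Real.rpow_le_rpow_of_exponent_le (by norm_num)
    have h1 : 2 ≤ ε * ((n' + 1 : ℕ) : ℝ) := by
      rw [div_le_iff₀ hε] at hnε
      linarith
    rw [hn'R] at h1 ⊢
    have h2 : (1 - ε / 2) * (n' : ℝ) ≤ (1 - ε') * n' :=
      mul_le_mul_of_nonneg_right (by linarith) (Nat.cast_nonneg _)
    linarith
  have hKle : V.Lists (2 ^ (2 * Kc * n')) := by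
    intro ω z q
    refine (hL ω z q).trans (Nat.pow_le_pow_right (by norm_num) ?_)
    calc Kc * (n' + 1) ≤ Kc * (2 * n') := Nat.mul_le_mul_left _ (by omega)
      _ = 2 * Kc * n' := by ring
  obtain ⟨X, hX1, hX2, π, hπ⟩ := hip (Fin M × Fin (n' + 1) × Bool) σ hσ P V hPle hKle γ (by
    intro X hX
    obtain ⟨π, hπ⟩ := hyes (σ X) (hσo X) (by rw [hσs, sols_empty hX, add_zero])
    refine ⟨π, le_trans ?_ hπ⟩
    have hexp2 : (w : ℝ) / C ≤ w' / C' := by
      rw [hw'R] at hw ⊢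
      rw [div_le_div_iff₀ hC0 hC']
      have h2 : (128 : ℝ) * (1 / 2) ≤ 128 * (T * Real.log ((n' + 1 : ℕ) + g)) := by linarith
      have h3 : (0 : ℝ) ≤ w' := Nat.cast_nonneg w'
      have h0 : (63 : ℝ) ≤ w' := by
        have : 63 ≤ w' := by omega
        exact_mod_cast this
      have h4 : C' ≤ 128 * w' ∨ C' ≤ w' * 128 := by
        left
        have h6 : C' * (1 / 2) ≤ C * (T * Real.log ((n' + 1 : ℕ) + g)) :=
          mul_le_mul (by rw [hC]; linarith) hTl (by norm_num) hC0.le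
        linarith
      have h5 : (w' : ℝ) * (C' + 128) ≤ w' * C := by
        apply mul_le_mul_of_nonneg_left _ h3
        rw [hC]; linarith
      rcases h4 with h4 | h4
      · linarith
      · linarith
    have hexp3 : (2 : ℝ) ^ (-((w' : ℝ) / C')) ≤ 2 ^ (-((w : ℝ) / C)) := by
      apply Real.rpow_le_rpow_of_exponent_le (by norm_num)
      linarith
    linarith)
  refine ⟨σ X, hσo X, ?_, π, hπ⟩
  rw [hσs, sols_one hX1 hX2]
  omega

end Pool.Agent.W964.Pram
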