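import Mathlib
import Pool.Agent.W964.Pram.CntEnc

/-!
A formula whose satisfying assignments correspond to the assignments that violate a constraint
satisfaction problem.
-/

set_option linter.unusedSectionVars false

namespace Pool.Agent.W964.Pram

open Finset H568R2 H592R3 SmallDepth

/-- A family of clauses given by their literals; the clauses that are not present are replaced by
tautologies. -/
noncomputable def litf {κ : Type} {n : ℕ} (lits : κ → Fin n → Bool → Prop) (pres : κ → Bool)
    (v0 : Fin n) : κ → Fin n → Bool → Bool :=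
  open Classical in
  fun c v b => decide (lits c v b) || (decide (v = v0) && !pres c)

lemma litf_iff {κ : Type} {n : ℕ} {lits : κ → Fin n → Bool → Prop} {pres : κ → Bool}
    {v0 : Fin n} {α : Fin n → Bool} (c : κ) :
    (∃ v, litf lits pres v0 c v (α v) = true) ↔ (pres c = true → ∃ v, lits c v (α v)) := by
  classical
  unfold litf
  constructor
  · rintro ⟨v, hv⟩ hp
    rw [Bool.or_eq_true, decide_eq_true_eq, Bool.and_eq_true, hp] at hv
    rcases hv with h | ⟨_, h⟩
    · exact ⟨v, h⟩
    · cases h
  · intro h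
    by_cases hp : pres c = true
    · obtain ⟨v, hv⟩ := h hp
      refine ⟨v, ?_⟩
      rw [Bool.or_eq_true, decide_eq_true_eq]
      exact Or.inl hv
    · refine ⟨v0, ?_⟩
      rw [Bool.not_eq_true] at hp
      simp [hp]

section Neg
variable {m r ℓ q n : ℕ}

/-- The literals of the clauses. -/
def negLits (s : Fin m → Fin r → Fin m) (e : ((Fin m × Fin ℓ) ⊕ Fin q) ↪ Fin n)
    (dec : (Fin ℓ → Bool) ≃ Fin (2 ^ ℓ)) (code : Fin m → (Fin q → Bool)) :
    (Fin m × Fin m × (Fin r → Fin (2 ^ ℓ))) ⊕ ((Fin q → Bool) ⊕ Fin n) → Fin n → Bool → Prop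
  | Sum.inl (j, i, u), v, b => (∃ k t, v = e (Sum.inl (s i k, t)) ∧ b ≠ dec.symm (u k) t) ∨
      ∃ t, v = e (Sum.inr t) ∧ b ≠ code j t
  | Sum.inr (Sum.inl c), v, b => ∃ t, v = e (Sum.inr t) ∧ b ≠ c t
  | Sum.inr (Sum.inr w), v, b => v = w ∧ b = false

open Classical in
/-- The clauses that are present. -/
noncomputable def negPres (e : ((Fin m × Fin ℓ) ⊕ Fin q) ↪ Fin n)
    (code : Fin m → (Fin q → Bool)) (X : (Fin m × (Fin r → Fin (2 ^ ℓ))) → Bool) :
    (Fin m × Fin m × (Fin r → Fin (2 ^ ℓ))) ⊕ ((Fin q → Bool) ⊕ Fin n) → Bool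
  | Sum.inl (j, i, u) => if i < j then !X (i, u) else if i = j then X (i, u) else false
  | Sum.inr (Sum.inl c) => decide (c ∉ Set.range code)
  | Sum.inr (Sum.inr w) => decide (w ∉ Set.range e)

lemma neg_junta (s : Fin m → Fin r → Fin m) (e : ((Fin m × Fin ℓ) ⊕ Fin q) ↪ Fin n)
    (dec : (Fin ℓ → Bool) ≃ Fin (2 ^ ℓ)) (code : Fin m → (Fin q → Bool)) (v0 : Fin n)
    (c : (Fin m × Fin m × (Fin r → Fin (2 ^ ℓ))) ⊕ ((Fin q → Bool) ⊕ Fin n)) (v : Fin n)
    (b : Bool) :
    Junta 1 (fun X : (Fin m × (Fin r → Fin (2 ^ ℓ))) → Bool =>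
      litf (negLits s e dec code) (negPres e code X) v0 c v b) := by
  classical
  rcases c with ⟨j, i, u⟩ | c | w
  · refine ⟨{(i, u)}, by simp, fun X Y h => ?_⟩
    have h1 : X (i, u) = Y (i, u) := h (i, u) (by simp)
    unfold litf negPres
    simp only [h1]
  · exact ⟨∅, by simp, fun X Y _ => rfl⟩
  · exact ⟨∅, by simp, fun X Y _ => rfl⟩

/-- The violating assignments, with the index of the first violated constraint. -/
def FirstBad (s : Fin m → Fin r → Fin m) (X : (Fin m × (Fin r → Fin (2 ^ ℓ))) → Bool)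
    (a : Fin m → Fin (2 ^ ℓ)) (j : Fin m) : Prop :=
  X (j, fun k => a (s j k)) = false ∧ ∀ i < j, X (i, fun k => a (s i k)) = true

lemma firstBad_unique {s : Fin m → Fin r → Fin m} {X : (Fin m × (Fin r → Fin (2 ^ ℓ))) → Bool}
    {a : Fin m → Fin (2 ^ ℓ)} {j j' : Fin m} (h : FirstBad s X a j) (h' : FirstBad s X a j') :
    j = j' := by
  rcases lt_trichotomy j j' with h1 | h1 | h1
  · have := h'.2 j h1
    rw [h.1] at this
    cases this
  · exact h1
  · have := h.2 j' h1
    rw [h'.1] at this
    cases this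

lemma firstBad_exists {s : Fin m → Fin r → Fin m} {X : (Fin m × (Fin r → Fin (2 ^ ℓ))) → Bool}
    {a : Fin m → Fin (2 ^ ℓ)} (h : ¬ ∀ i, X (i, fun k => a (s i k)) = true) :
    ∃ j, FirstBad s X a j := by
  classical
  push Not at h
  obtain ⟨i, hi⟩ := h
  have hne : (univ.filter (fun i => X (i, fun k => a (s i k)) ≠ true)).Nonempty :=
    ⟨i, Finset.mem_filter.2 ⟨Finset.mem_univ _, hi⟩⟩
  refine ⟨Finset.min' _ hne, ?_, ?_⟩
  · have := Finset.min'_mem _ hne
    rw [Finset.mem_filter] at this
    simpa using this.2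
  · intro i' hi'
    by_contra hcon
    have := Finset.min'_le (univ.filter (fun i => X (i, fun k => a (s i k)) ≠ true)) i'
      (Finset.mem_filter.2 ⟨Finset.mem_univ _, hcon⟩)
    exact absurd hi' (not_lt.2 this)

lemma neg_models (s : Fin m → Fin r → Fin m) (e : ((Fin m × Fin ℓ) ⊕ Fin q) ↪ Fin n)
    (dec : (Fin ℓ → Bool) ≃ Fin (2 ^ ℓ)) (code : Fin m → (Fin q → Bool))
    (hcode : Function.Injective code) (v0 : Fin n)
    (X : (Fin m × (Fin r → Fin (2 ^ ℓ))) → Bool) (α : Fin n → Bool) :
    (∀ c, ∃ v, litf (negLits s e dec code) (negPres e code X) v0 c v (α v) = true) ↔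
      (∀ v, v ∉ Set.range e → α v = false) ∧
      ∃ j, (fun t => α (e (Sum.inr t))) = code j ∧
        FirstBad s X (fun p => dec (fun t => α (e (Sum.inl (p, t))))) j := by
  classical
  have hsel : ∀ c : Fin q → Bool, (∃ v, ∃ t, v = e (Sum.inr t) ∧ α v ≠ c t) ↔
      (fun t => α (e (Sum.inr t))) ≠ c := by
    intro c
    constructor
    · rintro ⟨v, t, rfl, h⟩ hc
      exact h (congrFun hc t)
    · intro h
      obtain ⟨t, ht⟩ := Function.ne_iff.1 h
      exact ⟨_, t, rfl, ht⟩
  have hcl : ∀ j i u, (∃ v, negLits s e dec code (Sum.inl (j, i, u)) v (α v)) ↔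
      ¬ ((fun t => α (e (Sum.inr t))) = code j ∧
        (fun k => dec (fun t => α (e (Sum.inl (s i k, t))))) = u) := by
    intro j i u
    constructor
    · rintro ⟨v, ⟨k, t, rfl, h⟩ | ⟨t, rfl, h⟩⟩ ⟨h1, h2⟩
      · apply h
        have h3 := congrFun h2 k
        rw [← h3, Equiv.symm_apply_apply]
      · exact h (congrFun h1 t)
    · intro h
      rw [not_and_or] at h
      rcases h with h | h
      · obtain ⟨v, t, h1, h2⟩ := (hsel (code j)).2 h
        exact ⟨v, Or.inr ⟨t, h1, h2⟩⟩
      · obtain ⟨k, hk⟩ := Function.ne_iff.1 h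
        have h3 : (fun t => α (e (Sum.inl (s i k, t)))) ≠ dec.symm (u k) := by
          intro h4
          apply hk
          show dec (fun t => α (e (Sum.inl (s i k, t)))) = u k
          rw [h4, Equiv.apply_symm_apply]
        obtain ⟨t, ht⟩ := Function.ne_iff.1 h3
        exact ⟨_, Or.inl ⟨k, t, rfl, ht⟩⟩
  simp only [litf_iff]
  constructor
  · intro h
    refine ⟨?_, ?_⟩
    · intro v hv
      obtain ⟨w, rfl, h2⟩ := h (Sum.inr (Sum.inr v)) (by
        show decide (v ∉ Set.range e) = true
        rw [decide_eq_true_eq]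
        exact hv)
      exact h2
    · by_cases hr : (fun t => α (e (Sum.inr t))) ∈ Set.range code
      · obtain ⟨j, hj⟩ := hr
        refine ⟨j, hj.symm, ?_, ?_⟩
        · by_contra hX
          rw [Bool.not_eq_false] at hX
          have h1 := h (Sum.inl (j, j, fun k => dec (fun t => α (e (Sum.inl (s j k, t)))))) (by
            show (if j < j then _ else if j = j then _ else _) = true
            rw [if_neg (lt_irrefl j), if_pos rfl]
            exact hX)
          rw [hcl] at h1
          exact h1 ⟨hj.symm, rfl⟩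
        · intro i hi
          by_contra hX
          rw [Bool.not_eq_true] at hX
          have h1 := h (Sum.inl (j, i, fun k => dec (fun t => α (e (Sum.inl (s i k, t)))))) (by
            show (if i < j then _ else if i = j then _ else _) = true
            rw [if_pos hi]
            show (!X (i, fun k => dec (fun t => α (e (Sum.inl (s i k, t)))))) = true
            rw [hX]
            rfl)
          rw [hcl] at h1
          exact h1 ⟨hj.symm, rfl⟩
      · exfalso
        obtain ⟨v, t, h1, h2⟩ := h (Sum.inr (Sum.inl (fun t => α (e (Sum.inr t))))) (by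
          show decide (_ ∉ Set.range code) = true
          rw [decide_eq_true_eq]
          exact hr)
        apply h2
        rw [h1]
  · rintro ⟨h1, j, hj, hX, hlt⟩ c hc
    rcases c with ⟨j', i, u⟩ | c | w
    · rw [hcl]
      rintro ⟨h2, h3⟩
      have hjj : j = j' := hcode (hj.symm.trans h2)
      subst hjj
      subst h3
      have hc' : (if i < j then !X (i, fun k => dec (fun t => α (e (Sum.inl (s i k, t)))))
        else if i = j then X (i, fun k => dec (fun t => α (e (Sum.inl (s i k, t))))) else false)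
          = true := hc
      by_cases c1 : i < j
      · rw [if_pos c1, hlt i c1] at hc'
        cases hc'
      · rw [if_neg c1] at hc'
        by_cases c2 : i = j
        · subst c2
          rw [if_pos rfl, hX] at hc'
          cases hc'
        · rw [if_neg c2] at hc'
          cases hc'
    · have hc' : decide (c ∉ Set.range code) = true := hc
      rw [decide_eq_true_eq] at hc'
      exact (hsel c).2 (fun h => hc' ⟨j, by rw [← hj, h]⟩)
    · have hc' : decide (w ∉ Set.range e) = true := hc
      rw [decide_eq_true_eq] at hc'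
      exact ⟨w, rfl, h1 w hc'⟩

/-- The number of satisfying assignments. -/
theorem neg_cnt (s : Fin m → Fin r → Fin m) (e : ((Fin m × Fin ℓ) ⊕ Fin q) ↪ Fin n)
    (dec : (Fin ℓ → Bool) ≃ Fin (2 ^ ℓ)) (code : Fin m → (Fin q → Bool))
    (hcode : Function.Injective code) (v0 : Fin n)
    (X : (Fin m × (Fin r → Fin (2 ^ ℓ))) → Bool) :
    cnt (litf (negLits s e dec code) (negPres e code X) v0) + (Sols s X).ncard =
      2 ^ (m * ℓ) := by
  classical
  have h0 : (Sols s X)ᶜ.ncard + (Sols s X).ncard = 2 ^ (m * ℓ) := by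
    rw [add_comm, Set.ncard_add_ncard_compl, Nat.card_eq_fintype_card, Fintype.card_fun,
      Fintype.card_fin, Fintype.card_fin, ← pow_mul, mul_comm]
  rw [← h0]
  congr 1
  unfold cnt
  have h1 : {α : Fin n → Bool | ∀ c, ∃ v, litf (negLits s e dec code) (negPres e code X) v0 c v
      (α v) = true} = {α : Fin n → Bool | (∀ v, v ∉ Set.range e → α v = false) ∧
      ∃ j, (fun t => α (e (Sum.inr t))) = code j ∧
        FirstBad s X (fun p => dec (fun t => α (e (Sum.inl (p, t))))) j} := by
    ext α
    exact neg_models s e dec code hcode v0 X α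
  rw [h1]
  -- the map from the assignments of the constraint satisfaction problem
  have hch : ∀ a : Fin m → Fin (2 ^ ℓ), a ∈ (Sols s X)ᶜ → ∃ j, FirstBad s X a j :=
    fun a ha => firstBad_exists ha
  choose jj hjj using hch
  obtain ⟨F, hF⟩ : ∃ F : (Fin m → Fin (2 ^ ℓ)) → (Fin q → Bool) → (Fin n → Bool),
      F = fun a c => Function.extend e
        (Sum.elim (fun p : Fin m × Fin ℓ => dec.symm (a p.1) p.2) c) (fun _ => false) :=
    ⟨_, rfl⟩
  have hFl : ∀ a c p, dec (fun t => F a c (e (Sum.inl (p, t)))) = a p := by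
    intro a c p
    have h2 : (fun t => F a c (e (Sum.inl (p, t)))) = dec.symm (a p) := by
      funext t
      rw [hF]
      show Function.extend e _ _ (e (Sum.inl (p, t))) = _
      rw [e.injective.extend_apply]
      rfl
    rw [h2, Equiv.apply_symm_apply]
  have hFr : ∀ a c, (fun t => F a c (e (Sum.inr t))) = c := by
    intro a c
    funext t
    rw [hF]
    show Function.extend e _ _ (e (Sum.inr t)) = _
    rw [e.injective.extend_apply]
    rfl
  symm
  apply Set.ncard_congr (fun a ha => F a (code (jj a ha)))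
  · intro a ha
    refine ⟨?_, jj a ha, hFr _ _, ?_⟩
    · intro v hv
      rw [hF]
      show Function.extend e _ _ v = _
      rw [Function.extend_apply']
      rintro ⟨p, hp⟩
      exact hv ⟨p, hp⟩
    · have h2 : (fun p => dec (fun t => F a (code (jj a ha)) (e (Sum.inl (p, t))))) = a := by
        funext p
        exact hFl _ _ p
      rw [h2]
      exact hjj a ha
  · intro a b ha hb h
    funext p
    have h2 := hFl a (code (jj a ha)) p
    have h3 := hFl b (code (jj b hb)) p
    rw [h] at h2
    exact h2.symm.trans h3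
  · rintro α ⟨h2, j, hj, hbad⟩
    have hmem : (fun p => dec (fun t => α (e (Sum.inl (p, t))))) ∈ (Sols s X)ᶜ := by
      intro hS
      have := hS j
      rw [hbad.1] at this
      cases this
    refine ⟨_, hmem, ?_⟩
    have hjeq : jj _ hmem = j := firstBad_unique (hjj _ hmem) hbad
    rw [hjeq, hF]
    funext v
    by_cases hv : v ∈ Set.range e
    · obtain ⟨p, rfl⟩ := hv
      show Function.extend e _ _ (e p) = _
      rw [e.injective.extend_apply]
      rcases p with ⟨p, t⟩ | t
      · show dec.symm (dec (fun t => α (e (Sum.inl (p, t))))) t = _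
        rw [Equiv.symm_apply_apply]
      · show code j t = _
        rw [← hj]
    · show Function.extend e _ _ v = _
      rw [Function.extend_apply', h2 v hv]
      rintro ⟨p, hp⟩
      exact hv ⟨p, hp⟩

end Neg

end Pool.Agent.W964.Pram
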