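import Mathlib
import Pool.Agent.W964.Pram.Ip.IpHard
import Pool.Agent.W964.Pram.Ip.NegEnc
import Pool.Agent.W964.Pram.Ip.Down

/-!
Interactive proofs that a formula has many satisfying assignments.
-/

set_option linter.unusedSectionVars false

namespace Pool.Agent.W964.Pram

open Finset H568R2 H592R3 SmallDepth

theorem cnt_up (ε : ℝ) (hε : 0 < ε) (hε1 : ε ≤ 1) (Kc : ℕ) : ∃ C : ℝ, 0 < C ∧
    ∀ n T g w M k : ℕ, 2 ≤ n → 1 ≤ T → C * (T * Real.log (n + g)) ≤ w → 2 ^ w ≤ k →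
    n * 2 ^ w ≤ M → k ≤ 2 ^ (n - 1) →
    ∀ (P : ℕ) (V : Verifier (Fin M × Fin n × Bool) P), (P : ℝ) ≤ (k : ℝ) ^ (1 - ε) →
      V.Lists (k ^ Kc) →
      ∀ γ : ℝ, (∀ x, AllOccur x → numModels x = k →
          ∃ π, γ + 2 ^ (-((w : ℝ) / C)) ≤ V.acc T g x π) →
        ∃ x, AllOccur x ∧ numModels x = k - 1 ∧ ∃ π, γ < V.acc T g x π := by
  obtain ⟨ε', hε'⟩ : ∃ ε' : ℝ, ε' = ε / 2 := ⟨_, rfl⟩
  have hε'0 : 0 < ε' := by rw [hε']; positivity
  have hε'1 : ε' ≤ 1 / 2 := by rw [hε']; linarith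
  obtain ⟨Q, hQ6, _, C', hC', hpar⟩ := ip_hard ε' hε'0 hε'1 (4 * Kc)
  obtain ⟨C, hC⟩ : ∃ C : ℝ, C = C' + 128 + 16 / ε := ⟨_, rfl⟩
  have h4ε : 0 < 16 / ε := by positivity
  have hC0 : 0 < C := by rw [hC]; positivity
  refine ⟨C, hC0, ?_⟩
  intro n T g w M k hn hT hw hk1 hM hk2 P V hP hL γ hyes
  have hnR : (2 : ℝ) ≤ n := by exact_mod_cast hn
  have hg0 : (0 : ℝ) ≤ g := Nat.cast_nonneg g
  have hl2 : (1 : ℝ) / 2 ≤ Real.log 2 := by
    have := Real.log_two_gt_d9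
    linarith
  have hlogn : 1 / 2 ≤ Real.log (n + g) :=
    hl2.trans (Real.log_le_log (by norm_num) (by linarith))
  have hTR : (1 : ℝ) ≤ T := by exact_mod_cast hT
  obtain ⟨τ, hτ⟩ : ∃ τ : ℝ, τ = T * Real.log (n + g) := ⟨_, rfl⟩
  have hτl : Real.log (n + g) ≤ τ := by
    rw [hτ]
    exact le_mul_of_one_le_left (by linarith) hTR
  have hτ2 : 1 / 2 ≤ τ := hlogn.trans hτl
  rw [← hτ] at hw
  -- the number `q` of bits of an index
  obtain ⟨q, hq⟩ : ∃ q, q = Nat.clog 2 n := ⟨_, rfl⟩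
  have hnq : n ≤ 2 ^ q := by rw [hq]; exact Nat.le_pow_clog (by norm_num) n
  have hq1 : 1 ≤ q := by
    by_contra h
    have : q = 0 := by omega
    rw [this] at hnq
    omega
  have hqn : 2 ^ (q - 1) < n := by
    have := Nat.pow_pred_clog_lt_self (b := 2) (by norm_num) (x := n) (by omega)
    rw [← hq] at this
    exact this
  have hqR : (q : ℝ) + 2 ≤ 8 * τ := by
    have h1 : ((q - 1 : ℕ) : ℝ) * Real.log 2 ≤ Real.log n := by
      rw [← Real.log_pow]
      apply Real.log_le_log (by positivity)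
      exact_mod_cast hqn.le
    have h2 : ((q - 1 : ℕ) : ℝ) = (q : ℝ) - 1 := by
      rw [Nat.cast_sub hq1]; norm_num
    rw [h2] at h1
    have h3 : Real.log n ≤ Real.log (n + g) := Real.log_le_log (by linarith) (by linarith)
    have h4 : ((q : ℝ) - 1) * (1 / 2) ≤ ((q : ℝ) - 1) * Real.log 2 := by
      apply mul_le_mul_of_nonneg_left hl2
      have : (1 : ℝ) ≤ q := by exact_mod_cast hq1
      linarith
    linarith
  have hw16 : 16 * ((q : ℝ) + 2) ≤ w := by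
    have h1 : 128 * τ ≤ C * τ := mul_le_mul_of_nonneg_right (by rw [hC]; linarith) (by linarith)
    linarith
  have hw16' : 16 * (q + 2) ≤ w := by exact_mod_cast hw16
  -- the exponent `κ` of the largest power of two below `k`
  have hk0 : k ≠ 0 := by
    have : 0 < 2 ^ w := by positivity
    omega
  obtain ⟨κ, hκ⟩ : ∃ κ, κ = Nat.log 2 k := ⟨_, rfl⟩
  have hκ1 : 2 ^ κ ≤ k := by rw [hκ]; exact Nat.pow_log_le_self 2 hk0
  have hκ2 : k < 2 ^ (κ + 1) := by rw [hκ]; exact Nat.lt_pow_succ_log_self (by norm_num) k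
  have hwκ : w ≤ κ := by
    have : 2 ^ w < 2 ^ (κ + 1) := by omega
    have := (Nat.pow_lt_pow_iff_right (by norm_num : 1 < 2)).1 this
    omega
  have hκn : κ ≤ n - 1 := by
    have : 2 ^ κ ≤ 2 ^ (n - 1) := hκ1.trans hk2
    exact (Nat.pow_le_pow_iff_right (by norm_num : 1 < 2)).1 this
  obtain ⟨n', hn'⟩ : ∃ n', n = n' + 1 := ⟨n - 1, by omega⟩
  obtain ⟨N, hN⟩ : ∃ N, κ = N + q := ⟨κ - q, by omega⟩
  obtain ⟨w', hw'⟩ : ∃ w', w = w' + (q + 2) := ⟨w - (q + 2), by omega⟩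
  have hw'R : (w : ℝ) = w' + (q + 2) := by rw [hw']; push_cast; ring
  have hN2 : 2 ≤ N := by omega
  have hNn : N ≤ n := by omega
  have hlogN : Real.log (N + g) ≤ Real.log (n + g) := by
    apply Real.log_le_log
    · have : (2 : ℝ) ≤ N := by exact_mod_cast hN2
      linarith
    · have : (N : ℝ) ≤ n := by exact_mod_cast hNn
      linarith
  have hCw' : C' * (T * Real.log (N + g)) ≤ w' := by
    have h1 : C' * (T * Real.log (N + g)) ≤ C' * τ := by
      rw [hτ]; gcongr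
    have h2 : (C' + 8) * τ ≤ C * τ := mul_le_mul_of_nonneg_right (by rw [hC]; linarith)
      (by linarith)
    linarith
  obtain ⟨b, m', hb, hm', hB2, hBw, hQn, hexp, hwb, s, hs, hip⟩ := hpar N T g w' hN2 hT hCw'
    (by omega)
  obtain ⟨ℓ, hℓ⟩ : ∃ ℓ, ℓ = 2 * (3 * T) * b := ⟨_, rfl⟩
  rw [← hℓ] at hBw hQn
  have he : Q * m' * ℓ ≤ N := by
    refine le_trans ?_ hQn
    exact Nat.mul_le_mul_left _ (by omega)
  have hmN : Q * m' ≤ N := by
    refine le_trans ?_ hQn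
    exact Nat.le_mul_of_pos_right _ (by omega)
  have hrw : (2 ^ ℓ) ^ (ar Q) ≤ 2 ^ w' := by
    rw [← pow_mul]
    apply Nat.pow_le_pow_right (by norm_num)
    rw [mul_comm]; omega
  have hpow1 : 2 ^ (Q * m' * ℓ) ≤ k :=
    (Nat.pow_le_pow_right (by norm_num) (by omega)).trans hκ1
  have hcardM : (n' + 1) + (Q * m' * (Q * m' * (2 ^ ℓ) ^ (ar Q)) + (2 ^ q + n')) + (n' + 1) ≤
      M := by
    refine le_trans ?_ hM
    have h2 : Q * m' * (Q * m' * (2 ^ ℓ) ^ (ar Q)) ≤ n * 2 ^ (w - 2) := by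
      calc Q * m' * (Q * m' * (2 ^ ℓ) ^ (ar Q)) ≤ n * (2 ^ q * 2 ^ w') := by
            apply Nat.mul_le_mul (by omega)
            apply Nat.mul_le_mul (by omega) hrw
        _ = n * 2 ^ (w - 2) := by rw [← pow_add]; congr 2; omega
    have h3 : 2 ^ w = 4 * 2 ^ (w - 2) := by
      have : w = (w - 2) + 2 := by omega
      conv_lhs => rw [this, pow_add]
      ring
    have h4 : 4 ≤ 2 ^ (w - 2) := by
      calc 4 = 2 ^ 2 := by norm_num
        _ ≤ 2 ^ (w - 2) := Nat.pow_le_pow_right (by norm_num) (by omega)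
    have h5 : n * 4 ≤ n * 2 ^ (w - 2) := Nat.mul_le_mul_left _ h4
    have h6 : 2 ^ q ≤ 2 * n := by
      have : 2 ^ q = 2 * 2 ^ (q - 1) := by
        conv_lhs => rw [show q = (q - 1) + 1 by omega, pow_succ]
        ring
      omega
    have h7 : n * 2 ^ w = 4 * (n * 2 ^ (w - 2)) := by rw [h3]; ring
    omega
  have hκε : 2 + 2 * (q : ℝ) ≤ ε * κ := by
    have h1 : (16 / ε) * τ ≤ C * τ := mul_le_mul_of_nonneg_right (by rw [hC]; linarith)
      (by linarith)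
    have h2 : (w : ℝ) ≤ κ := by exact_mod_cast hwκ
    have h3 : (16 / ε) * τ ≤ κ := by linarith
    have h4 : 16 * τ ≤ ε * κ := by
      have h5 : ε * ((16 / ε) * τ) ≤ ε * κ := mul_le_mul_of_nonneg_left h3 hε.le
      have h6 : ε * ((16 / ε) * τ) = 16 * τ := by field_simp
      linarith
    linarith
  have hNR : (κ : ℝ) = N + q := by rw [hN]; push_cast; ring
  have hPle : (P : ℝ) ≤ 2 ^ ((1 - ε') * N) := by
    refine hP.trans ?_
    have h1 : (k : ℝ) ≤ 2 ^ ((κ : ℝ) + 1) := by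
      have : (k : ℝ) ≤ ((2 ^ (κ + 1) : ℕ) : ℝ) := by exact_mod_cast hκ2.le
      refine this.trans (le_of_eq ?_)
      push_cast
      rw [← Real.rpow_natCast]
      push_cast
      rfl
    calc (k : ℝ) ^ (1 - ε) ≤ (2 ^ ((κ : ℝ) + 1)) ^ (1 - ε) :=
          Real.rpow_le_rpow (Nat.cast_nonneg _) h1 (by linarith)
      _ = 2 ^ (((κ : ℝ) + 1) * (1 - ε)) := by rw [← Real.rpow_mul (by norm_num)]
      _ ≤ 2 ^ ((1 - ε') * N) := by
          apply Real.rpow_le_rpow_of_exponent_le (by norm_num)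
          have h2 : (N : ℝ) = κ - q := by linarith
          rw [h2, hε']
          have h3 : ((κ : ℝ) + 1) * (1 - ε) = κ - ε * κ + 1 - ε := by ring
          have h4 : (1 - ε / 2) * ((κ : ℝ) - q) = κ - ε * κ / 2 - q + ε / 2 * q := by ring
          rw [h3, h4]
          have h5 : (0 : ℝ) ≤ ε / 2 * q := by positivity
          linarith
  have hKle : V.Lists (2 ^ (4 * Kc * N)) := by
    intro ω z p
    refine (hL ω z p).trans ?_
    calc k ^ Kc ≤ (2 ^ (κ + 1)) ^ Kc := Nat.pow_le_pow_left hκ2.le _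
      _ = 2 ^ ((κ + 1) * Kc) := by rw [← pow_mul]
      _ ≤ 2 ^ (4 * Kc * N) := by
          apply Nat.pow_le_pow_right (by norm_num)
          calc (κ + 1) * Kc ≤ (4 * N) * Kc := Nat.mul_le_mul_right _ (by omega)
            _ = 4 * Kc * N := by ring
  have ha : k - 2 ^ (Q * m' * ℓ) ≤ 2 ^ n' := by
    have : n - 1 = n' := by omega
    rw [this] at hk2
    exact (Nat.sub_le _ _).trans hk2
  have heq : Q * m' * ℓ + q ≤ n' := by omega
  have hQq : Q * m' ≤ 2 ^ q := by omega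
  have hn'0 : 0 < n' := by omega
  subst hn'
  subst hℓ
  obtain ⟨σ, hσ, hσo, hσs⟩ := enc_neg (Q * m') (ar Q) (2 * (3 * T) * b) q n' M
    (k - 2 ^ (Q * m' * (2 * (3 * T) * b))) hn'0 hcardM heq hQq ha s
  obtain ⟨X, hX1, hX2, π, hπ⟩ := hip (Fin M × Fin (n' + 1) × Bool) σ hσ P V hPle hKle γ (by
    intro X hX
    obtain ⟨π, hπ⟩ := hyes (σ X) (hσo X) (by
      have h := hσs X
      rw [sols_empty hX, add_zero] at h
      omega)
    refine ⟨π, le_trans ?_ hπ⟩
    have hexp2 : (w : ℝ) / C ≤ w' / C' := by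
      rw [div_le_div_iff₀ hC0 hC']
      have h2 : ((q : ℝ) + 2) * C ≤ 8 * w := by
        calc ((q : ℝ) + 2) * C ≤ (8 * τ) * C := mul_le_mul_of_nonneg_right hqR hC0.le
          _ = 8 * (C * τ) := by ring
          _ ≤ 8 * w := by linarith
      have h3 : (w : ℝ) * (C' + 128) ≤ w * C := by
        apply mul_le_mul_of_nonneg_left _ (Nat.cast_nonneg _)
        rw [hC]; linarith
      have h4 : (w' : ℝ) * C = w * C - (q + 2) * C := by
        have : (w' : ℝ) = w - (q + 2) := by linarith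
        rw [this]; ring
      rw [h4]
      have h5 : (0 : ℝ) ≤ w := Nat.cast_nonneg w
      linarith
    have hexp3 : (2 : ℝ) ^ (-((w' : ℝ) / C')) ≤ 2 ^ (-((w : ℝ) / C)) := by
      apply Real.rpow_le_rpow_of_exponent_le (by norm_num)
      linarith
    linarith)
  refine ⟨σ X, hσo X, ?_, π, hπ⟩
  have h := hσs X
  rw [sols_one hX1 hX2] at h
  omega

end Pool.Agent.W964.Pram
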