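import Mathlib
import Pool.Agent.W964.Pram.Ip.Up

/-!
Interactive proofs that a formula has few or many satisfying assignments: both directions with a
common constant.
-/

set_option linter.unusedSectionVars false

namespace Pool.Agent.W964.Pram

open Finset SmallDepth

theorem cnt_both (ε : ℝ) (hε : 0 < ε) (hε1 : ε ≤ 1) (Kc : ℕ) : ∃ C : ℝ, 0 < C ∧
    ∀ n T g w M k : ℕ, 2 ≤ n → 1 ≤ T → C * (T * Real.log (n + g)) ≤ w → n * 2 ^ w ≤ M →
    1 ≤ k → k ≤ 2 ^ (n - 1) →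
    ∀ (P : ℕ) (V : Verifier (Fin M × Fin n × Bool) P) (γ : ℝ),
      (2 ^ w ≤ k → (P : ℝ) ≤ (k : ℝ) ^ (1 - ε) → V.Lists (k ^ Kc) →
        (∀ x, AllOccur x → numModels x = k →
          ∃ π, γ + 2 ^ (-((w : ℝ) / C)) ≤ V.acc T g x π) →
        ∃ x, AllOccur x ∧ numModels x = k - 1 ∧ ∃ π, γ < V.acc T g x π) ∧
      (w ≤ n → (P : ℝ) ≤ 2 ^ ((1 - ε) * n) → V.Lists (2 ^ (Kc * n)) →
        (∀ x, AllOccur x → numModels x = k - 1 →
          ∃ π, γ + 2 ^ (-((w : ℝ) / C)) ≤ V.acc T g x π) →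
        ∃ x, AllOccur x ∧ numModels x = k ∧ ∃ π, γ < V.acc T g x π) := by
  obtain ⟨C₁, hC₁, H₁⟩ := cnt_up ε hε hε1 Kc
  obtain ⟨C₂, hC₂, H₂⟩ := cnt_down ε hε Kc
  refine ⟨C₁ + C₂, by positivity, ?_⟩
  intro n T g w M k hn hT hw hM hk1 hk2 P V γ
  have hnR : (2 : ℝ) ≤ n := by exact_mod_cast hn
  have hnn : 0 ≤ (T : ℝ) * Real.log (n + g) := by
    apply mul_nonneg (Nat.cast_nonneg _)
    apply Real.log_nonneg
    have : (0 : ℝ) ≤ g := Nat.cast_nonneg _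
    linarith
  have hmono : ∀ C' : ℝ, 0 < C' → C' ≤ C₁ + C₂ →
      (2 : ℝ) ^ (-((w : ℝ) / C')) ≤ 2 ^ (-((w : ℝ) / (C₁ + C₂))) := by
    intro C' hC' hle
    apply Real.rpow_le_rpow_of_exponent_le (by norm_num)
    have : (w : ℝ) / (C₁ + C₂) ≤ w / C' :=
      div_le_div_of_nonneg_left (Nat.cast_nonneg _) hC' hle
    linarith
  constructor
  · intro hwk hP hL hyes
    refine H₁ n T g w M k hn hT ?_ hwk hM hk2 P V hP hL γ ?_
    · have : C₁ * (T * Real.log (n + g)) ≤ (C₁ + C₂) * (T * Real.log (n + g)) :=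
        mul_le_mul_of_nonneg_right (by linarith) hnn
      linarith
    · intro x hx1 hx2
      obtain ⟨π, hπ⟩ := hyes x hx1 hx2
      exact ⟨π, by linarith [hmono C₁ hC₁ (by linarith)]⟩
  · intro hwn hP hL hyes
    refine H₂ n T g w M k hn hT ?_ hwn hM hk1 hk2 P V hP hL γ ?_
    · have : C₂ * (T * Real.log (n + g)) ≤ (C₁ + C₂) * (T * Real.log (n + g)) :=
        mul_le_mul_of_nonneg_right (by linarith) hnn
      linarith
    · intro x hx1 hx2
      obtain ⟨π, hπ⟩ := hyes x hx1 hx2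
      exact ⟨π, by linarith [hmono C₂ hC₂ (by linarith)]⟩

end Pool.Agent.W964.Pram
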