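import Mathlib
import Pool.Agent.W964.Pram.Ip.IpHard
import Pool.Agent.H592R3.Cnf3

/-!
Unsatisfiability of CNF formulas has no interactive proofs with fast parallel verifiers.
-/

set_option linter.unusedSectionVars false

namespace Pool.Agent.W964.Pram

open Finset H568R2 H592R3 SmallDepth

theorem unsat_ip (ε : ℝ) (hε : 0 < ε) (Kc : ℕ) : ∃ C : ℝ, 0 < C ∧
    ∀ n T g w M : ℕ, 2 ≤ n → 1 ≤ T → C * (T * Real.log (n + g)) ≤ w → w ≤ n → n * 2 ^ w ≤ M →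
    ∀ (P : ℕ) (V : Verifier (Fin M × Fin n × Bool) P), (P : ℝ) ≤ 2 ^ ((1 - ε) * n) →
      V.Lists (2 ^ (Kc * n)) →
      ∀ γ : ℝ, (∀ x, WidthLe x w → (¬ ∃ α, Models x α) →
          ∃ π, γ + 2 ^ (-((w : ℝ) / C)) ≤ V.acc T g x π) →
        ∃ x, WidthLe x w ∧ (∃! α, Models x α) ∧ ∃ π, γ < V.acc T g x π := by
  classical
  obtain ⟨ε', hε'⟩ : ∃ ε' : ℝ, ε' = min ε (1 / 2) := ⟨_, rfl⟩
  have hε'0 : 0 < ε' := by rw [hε']; exact lt_min hε (by norm_num)
  have hε'1 : ε' ≤ 1 / 2 := by rw [hε']; exact min_le_right _ _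
  have hε'2 : ε' ≤ ε := by rw [hε']; exact min_le_left _ _
  obtain ⟨Q, hQ6, _, C, hC, hpar⟩ := ip_hard ε' hε'0 hε'1 Kc
  refine ⟨C, hC, ?_⟩
  intro n T g w M hn hT hw hwn hM P V hP hL γ hyes
  obtain ⟨b, m', hb, hm', hB2, hBw, hQn, hexp, hwb, s, hs, hip⟩ := hpar n T g w hn hT hw hwn
  have hℓ2 : 2 ≤ 2 * (3 * T) * b := by
    have h1 : 1 ≤ T * b := Nat.one_le_iff_ne_zero.2 (by positivity)
    have : 2 * (3 * T) * b = 6 * (T * b) := by ring
    omega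
  -- encoding of the variables
  have hcard1 : Q * m' * (2 * (3 * T) * b) ≤ n := by
    refine le_trans ?_ hQn
    exact Nat.mul_le_mul_left _ (by omega)
  obtain ⟨e⟩ : Nonempty ((Fin (Q * m') × Fin (2 * (3 * T) * b)) ↪ Fin n) := by
    apply Function.Embedding.nonempty_of_card_le
    rw [Fintype.card_prod, Fintype.card_fin, Fintype.card_fin, Fintype.card_fin]
    exact hcard1
  obtain ⟨dec⟩ : Nonempty ((Fin (2 * (3 * T) * b) → Bool) ≃ Fin (2 ^ (2 * (3 * T) * b))) :=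
    ⟨Fintype.equivFinOfCardEq (by simp)⟩
  have hn0 : 0 < n := by omega
  -- encoding of the clauses
  have hcard2 : Q * m' * (2 ^ (2 * (3 * T) * b)) ^ (ar Q) + n ≤ M := by
    refine le_trans ?_ hM
    have h1 : (2 ^ (2 * (3 * T) * b)) ^ (ar Q) ≤ 2 ^ w := by
      rw [← pow_mul]
      apply Nat.pow_le_pow_right (by norm_num)
      rw [mul_comm]; omega
    have h2 : 2 * (Q * m') ≤ n := by
      refine le_trans ?_ hcard1
      rw [mul_comm]
      exact Nat.mul_le_mul_left _ hℓ2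
    have h3 : 2 ≤ 2 ^ w := by
      calc 2 = 2 ^ 1 := (pow_one 2).symm
        _ ≤ 2 ^ w := Nat.pow_le_pow_right (by norm_num) (by omega)
    have h4 : 2 * (Q * m' * (2 ^ (2 * (3 * T) * b)) ^ (ar Q)) ≤ n * 2 ^ w := by
      calc 2 * (Q * m' * (2 ^ (2 * (3 * T) * b)) ^ (ar Q)) =
          (2 * (Q * m')) * (2 ^ (2 * (3 * T) * b)) ^ (ar Q) := by ring
        _ ≤ n * 2 ^ w := Nat.mul_le_mul h2 h1
    have h5 : 2 * n ≤ n * 2 ^ w := by
      rw [mul_comm]; exact Nat.mul_le_mul_left _ h3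
    omega
  obtain ⟨π, hπ⟩ : ∃ π : Fin M → (Fin (Q * m') × (Fin (ar Q) →
      Fin (2 ^ (2 * (3 * T) * b)))) ⊕ Fin n, Function.Surjective π := by
    have : Nonempty ((Fin (Q * m') × (Fin (ar Q) →
      Fin (2 ^ (2 * (3 * T) * b)))) ⊕ Fin n) := ⟨Sum.inr ⟨0, hn0⟩⟩
    obtain ⟨g⟩ : Nonempty (((Fin (Q * m') × (Fin (ar Q) →
      Fin (2 ^ (2 * (3 * T) * b)))) ⊕ Fin n) ↪ Fin M) := by
      apply Function.Embedding.nonempty_of_card_le
      rw [Fintype.card_sum, Fintype.card_prod, Fintype.card_fun, Fintype.card_fin,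
        Fintype.card_fin, Fintype.card_fin, Fintype.card_fin, Fintype.card_fin]
      exact hcard2
    exact ⟨Function.invFun g, Function.invFun_surjective g.injective⟩
  have hw2 : 2 ≤ w := by
    have h1 : 1 * 2 ≤ ar Q * (2 * (3 * T) * b) := Nat.mul_le_mul (by unfold ar; omega) hℓ2
    omega
  have hwid : ∀ X, WidthLe (cnfOf s e dec ⟨0, hn0⟩ π X) w := fun X =>
    cnfOf_width (by omega) (by omega) X
  obtain ⟨X, hX1, hX2, π', hπ'⟩ := hip (Fin M × Fin n × Bool)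
    (fun X => cnfOf s e dec ⟨0, hn0⟩ π X) (cnfOf_junta s e dec ⟨0, hn0⟩ π) P V (by
      refine hP.trans ?_
      apply Real.rpow_le_rpow_of_exponent_le (by norm_num)
      exact mul_le_mul_of_nonneg_right (by linarith) (Nat.cast_nonneg n)) hL γ (by
      intro X hX
      exact hyes _ (hwid X) (fun h => hX ((cnfOf_sat hπ X).1 h)))
  refine ⟨_, hwid X, ?_, π', hπ'⟩
  obtain ⟨α, hα⟩ := (cnfOf_sat hπ X).2 hX2
  exact ⟨α, hα, fun β hβ => cnfOf_unique hπ X hX1 β α hβ hα⟩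

end Pool.Agent.W964.Pram
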