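import Mathlib
import Pool.Agent.W964.Pram.Ip.Unsat
import Pool.Agent.W964.Pram.Ip.Asym
import Pool.Agent.W964.Pram.Ip.SatVer

/-!
Interactive proofs of unsatisfiability: the asymptotic statement.
-/

set_option linter.unusedSectionVars false

namespace Pool.Agent.W964.Pram

open Finset SmallDepth Filter

lemma eighth {C w : ℝ} (hC : 0 < C) (h : 3 * C ≤ w) : (2 : ℝ) ^ (-(w / C)) ≤ 1 / 8 := by
  have h1 : (2 : ℝ) ^ (-(w / C)) ≤ 2 ^ (-(3 : ℝ)) := by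
    apply Real.rpow_le_rpow_of_exponent_le (by norm_num)
    rw [neg_le_neg_iff, le_div_iff₀ hC]
    exact h
  refine h1.trans (le_of_eq ?_)
  rw [Real.rpow_neg (by norm_num)]
  norm_num

theorem unsat_q1 (δ : ℝ) (hδ : 0 < δ) (hδ2 : δ < 2) (Kc c : ℕ) (T : ℕ → ℕ)
    (hT : ∀ n, 1 ≤ T n)
    (hTo : (fun n : ℕ => (T n : ℝ) * Real.log n) =o[atTop] (fun n : ℕ => (n : ℝ))) :
    ∃ w : ℕ → ℕ, (∃ C : ℝ, ∀ n, 2 ≤ n → (w n : ℝ) ≤ C * (T n * Real.log n)) ∧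
      ∀ e : ℕ, ∀ᶠ n : ℕ in atTop,
        ∀ (P : ℕ) (V : Verifier (Fin (n * 2 ^ w n) × Fin n × Bool) P),
        (P : ℝ) ≤ (2 - δ) ^ n * (e * (((n * 2 ^ w n : ℕ) : ℝ)) ^ e) → V.Lists (2 ^ (Kc * n)) →
        (∀ x, WidthLe x (w n) → (¬ ∃ α, Models x α) →
          ∃ π, 2 / 3 ≤ V.acc (T n) (n ^ c) x π) →
        ∃ x, WidthLe x (w n) ∧ (∃! α, Models x α) ∧ ∃ π, 1 / 3 < V.acc (T n) (n ^ c) x π := by
  obtain ⟨ε, hε, has⟩ := asym δ hδ hδ2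
  obtain ⟨C, hC, H⟩ := unsat_ip ε hε Kc
  obtain ⟨w, hw1, hw2, hw3⟩ := has C hC c T hT hTo
  refine ⟨w, hw1, fun e => ?_⟩
  filter_upwards [hw3 e] with n hn P V hP hL hyes
  obtain ⟨hn2, hwn, hwC, _, hPn⟩ := hn
  have h8 := eighth hC hwC
  have hε1 : (P : ℝ) ≤ 2 ^ ((1 - ε) * n) := hP.trans hPn
  refine H n (T n) (n ^ c) (w n) (n * 2 ^ w n) hn2 (hT n) (hw2 n hn2) (by omega) le_rfl P V
    hε1 hL (1 / 3) ?_
  intro x hx1 hx2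
  obtain ⟨π, hπ⟩ := hyes x hx1 hx2
  exact ⟨π, by linarith⟩

end Pool.Agent.W964.Pram
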