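import Mathlib
import Pool.Agent.W964.Pram.Ip.Up
import Pool.Agent.W964.Pram.Ip.UnsatFinal

/-!
Interactive proofs for the majority problem and its complement: the asymptotic statement.
-/

set_option linter.unusedSectionVars false

namespace Pool.Agent.W964.Pram

open Finset SmallDepth Filter

theorem maj_q1 (δ : ℝ) (hδ : 0 < δ) (hδ2 : δ < 2) (Kc c : ℕ) (T : ℕ → ℕ)
    (hT : ∀ n, 1 ≤ T n)
    (hTo : (fun n : ℕ => (T n : ℝ) * Real.log n) =o[atTop] (fun n : ℕ => (n : ℝ))) :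
    ∃ w : ℕ → ℕ, (∃ C : ℝ, ∀ n, 2 ≤ n → (w n : ℝ) ≤ C * (T n * Real.log n)) ∧
      ∀ e : ℕ, ∀ᶠ n : ℕ in atTop,
        ∀ (P : ℕ) (V : Verifier (Fin (n * 2 ^ w n) × Fin n × Bool) P),
        (P : ℝ) ≤ (2 - δ) ^ n * (e * (((n * 2 ^ w n : ℕ) : ℝ)) ^ e) → V.Lists (2 ^ (Kc * n)) →
        ((∀ x, AllOccur x → 2 ^ (n - 1) ≤ numModels x →
            ∃ π, 2 / 3 ≤ V.acc (T n) (n ^ c) x π) →
          ∃ x, AllOccur x ∧ numModels x = 2 ^ (n - 1) - 1 ∧
            ∃ π, 1 / 3 < V.acc (T n) (n ^ c) x π) ∧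
        ((∀ x, AllOccur x → numModels x < 2 ^ (n - 1) →
            ∃ π, 2 / 3 ≤ V.acc (T n) (n ^ c) x π) →
          ∃ x, AllOccur x ∧ numModels x = 2 ^ (n - 1) ∧
            ∃ π, 1 / 3 < V.acc (T n) (n ^ c) x π) := by
  obtain ⟨ε, hε, has⟩ := asym δ hδ hδ2
  obtain ⟨ε', hε'⟩ : ∃ ε' : ℝ, ε' = min ε 1 := ⟨_, rfl⟩
  have hε'0 : 0 < ε' := by rw [hε']; exact lt_min hε (by norm_num)
  have hε'1 : ε' ≤ 1 := by rw [hε']; exact min_le_right _ _
  have hε'2 : ε' ≤ ε := by rw [hε']; exact min_le_left _ _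
  obtain ⟨C₁, hC₁, H₁⟩ := cnt_up ε' hε'0 hε'1 (2 * Kc)
  obtain ⟨C₂, hC₂, H₂⟩ := cnt_down ε hε Kc
  obtain ⟨w, hw1, hw2, hw3⟩ := has (C₁ + C₂) (by positivity) c T hT hTo
  refine ⟨w, hw1, fun e => ?_⟩
  filter_upwards [hw3 e] with n hn P V hP hL
  obtain ⟨hn2, hwn, hwC, hPn1, hPn⟩ := hn
  have hnR : (2 : ℝ) ≤ n := by exact_mod_cast hn2
  have h8₁ : (2 : ℝ) ^ (-((w n : ℝ) / C₁)) ≤ 1 / 8 := eighth hC₁ (by linarith)
  have h8₂ : (2 : ℝ) ^ (-((w n : ℝ) / C₂)) ≤ 1 / 8 := eighth hC₂ (by linarith)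
  have hnn : 0 ≤ (T n : ℝ) * Real.log (n + (n ^ c : ℕ)) := by
    apply mul_nonneg (Nat.cast_nonneg _)
    apply Real.log_nonneg
    have : (0 : ℝ) ≤ ((n ^ c : ℕ) : ℝ) := Nat.cast_nonneg _
    linarith
  have hw2' := hw2 n hn2
  constructor
  · intro hyes
    refine H₁ n (T n) (n ^ c) (w n) (n * 2 ^ w n) (2 ^ (n - 1)) hn2 (hT n) ?_
      (Nat.pow_le_pow_right (by norm_num) (by omega)) le_rfl le_rfl P V ?_ ?_ (1 / 3) ?_
    · have : C₁ * (T n * Real.log (n + (n ^ c : ℕ))) ≤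
          (C₁ + C₂) * (T n * Real.log (n + (n ^ c : ℕ))) :=
        mul_le_mul_of_nonneg_right (by linarith) hnn
      linarith
    · refine (hP.trans hPn1).trans ?_
      have h1 : ((2 ^ (n - 1) : ℕ) : ℝ) ^ (1 - ε') = 2 ^ ((1 - ε') * ((n : ℝ) - 1)) := by
        push_cast
        rw [← Real.rpow_natCast, ← Real.rpow_mul (by norm_num)]
        congr 1
        rw [Nat.cast_sub (by omega)]
        push_cast
        ring
      rw [h1]
      apply Real.rpow_le_rpow_of_exponent_le (by norm_num)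
      exact mul_le_mul_of_nonneg_right (by linarith) (by linarith)
    · intro ω z p
      refine (hL ω z p).trans ?_
      rw [← pow_mul]
      apply Nat.pow_le_pow_right (by norm_num)
      calc Kc * n ≤ Kc * (2 * (n - 1)) := Nat.mul_le_mul_left _ (by omega)
        _ = (n - 1) * (2 * Kc) := by ring
    · intro x hx1 hx2
      obtain ⟨π, hπ⟩ := hyes x hx1 (by omega)
      exact ⟨π, by linarith⟩
  · intro hyes
    refine H₂ n (T n) (n ^ c) (w n) (n * 2 ^ w n) (2 ^ (n - 1)) hn2 (hT n) ?_ (by omega)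
      le_rfl Nat.one_le_two_pow le_rfl P V (hP.trans hPn) hL (1 / 3) ?_
    · have : C₂ * (T n * Real.log (n + (n ^ c : ℕ))) ≤
          (C₁ + C₂) * (T n * Real.log (n + (n ^ c : ℕ))) :=
        mul_le_mul_of_nonneg_right (by linarith) hnn
      linarith
    · intro x hx1 hx2
      have : 0 < 2 ^ (n - 1) := by positivity
      obtain ⟨π, hπ⟩ := hyes x hx1 (by omega)
      exact ⟨π, by linarith⟩

end Pool.Agent.W964.Pram
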